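import Mathlib

/-!
Counting patterns: replacing the pair relations one after the other by the factor one half.
-/

set_option autoImplicit false

open Finset

namespace Pool.Agent.H482.MR

/-- two coordinates of a tuple, and the remaining ones -/
theorem sum_update {k : ℕ} (A : Fin k → Finset ℕ) (a b : Fin k) (hab : a ≠ b)
    (φ : (Fin k → ℕ) → ℝ) :
    ∑ t ∈ Fintype.piFinset A, φ t =
      ∑ r ∈ Fintype.piFinset (Function.update (Function.update A a {0}) b {0}),
        ∑ e ∈ A a ×ˢ A b, φ (Function.update (Function.update r a e.1) b e.2) := by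
  classical
  rw [← sum_product']
  symm
  apply sum_nbij' (fun y : (Fin k → ℕ) × (ℕ × ℕ) =>
      Function.update (Function.update y.1 a y.2.1) b y.2.2)
    (fun t => (Function.update (Function.update t a 0) b 0, (t a, t b)))
  · rintro ⟨r, u, w⟩ h
    simp only [mem_product, Fintype.mem_piFinset] at h ⊢
    intro i
    by_cases hib : i = b
    · subst hib; simpa using h.2.2
    · by_cases hia : i = a
      · subst hia; simpa [hib] using h.2.1
      · have := h.1 i
        simpa [hib, hia] using this
  · intro t h
    simp only [mem_product, Fintype.mem_piFinset] at h ⊢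
    refine ⟨fun i => ?_, h a, h b⟩
    by_cases hib : i = b
    · subst hib; simp
    · by_cases hia : i = a
      · subst hia; simp [hib]
      · simpa [hib, hia] using h i
  · rintro ⟨r, u, w⟩ h
    simp only [mem_product, Fintype.mem_piFinset] at h
    have hra : r a = 0 := by
      have := h.1 a
      simpa [hab] using this
    have hrb : r b = 0 := by
      have := h.1 b
      simpa using this
    have e1 : Function.update (Function.update (Function.update (Function.update r a u) b w) a 0) b 0
        = r := by
      funext i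
      by_cases hib : i = b
      · subst hib; simp [hrb]
      · by_cases hia : i = a
        · subst hia; simp [hib, hra]
        · simp [hib, hia]
    simp only [e1]
    simp [hab]
  · intro t h
    funext i
    by_cases hib : i = b
    · subst hib; simp
    · by_cases hia : i = a
      · subst hia; simp [hib]
      · simp [hib, hia]
  · rintro ⟨r, u, w⟩ h
    rfl

/-- the number of choices of the remaining coordinates -/
theorem card_rest {k : ℕ} (A : Fin k → Finset ℕ) (n : Fin k → ℝ) (hn : ∀ i, ((A i).card : ℝ) ≤ n i)
    (a b : Fin k) (hab : a ≠ b) (C : ℝ) (hC : 0 ≤ C) :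
    ((Fintype.piFinset (Function.update (Function.update A a {0}) b {0})).card : ℝ) *
      (C * (n a * n b)) ≤ C * ∏ i, n i := by
  classical
  have hn0 : ∀ i, 0 ≤ n i := fun i => (Nat.cast_nonneg _).trans (hn i)
  rw [Fintype.card_piFinset]
  push_cast
  have h1 : ∏ i, ((Function.update (Function.update A a {0}) b {0} i).card : ℝ) ≤
      ∏ i ∈ (univ.erase a).erase b, n i := by
    have e : (univ : Finset (Fin k)) = insert a (insert b ((univ.erase a).erase b)) := by
      ext i
      simp only [mem_univ, mem_insert, mem_erase, true_iff]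
      tauto
    nth_rewrite 1 [e]
    rw [prod_insert, prod_insert]
    · have h2 : ((Function.update (Function.update A a {0}) b {0} a).card : ℝ) = 1 := by
        simp [hab]
      have h3 : ((Function.update (Function.update A a {0}) b {0} b).card : ℝ) = 1 := by
        simp
      rw [h2, h3, one_mul, one_mul]
      apply prod_le_prod (fun i _ => Nat.cast_nonneg _)
      intro i hi
      simp only [mem_erase, mem_univ, and_true] at hi
      simp only [ne_eq, hi.1, hi.2, not_false_eq_true, Function.update_of_ne]
      exact hn i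
    · simp
    · simp [hab]
  have h2 : ∏ i, n i = n a * (n b * ∏ i ∈ (univ.erase a).erase b, n i) := by
    have e : (univ : Finset (Fin k)) = insert a (insert b ((univ.erase a).erase b)) := by
      ext i
      simp only [mem_univ, mem_insert, mem_erase, true_iff]
      tauto
    nth_rewrite 1 [e]
    rw [prod_insert, prod_insert]
    · simp
    · simp [hab]
  rw [h2]
  have h3 : 0 ≤ C * (n a * n b) := mul_nonneg hC (mul_nonneg (hn0 a) (hn0 b))
  calc (∏ i, ((Function.update (Function.update A a {0}) b {0} i).card : ℝ)) * (C * (n a * n b))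
      ≤ (∏ i ∈ (univ.erase a).erase b, n i) * (C * (n a * n b)) :=
        mul_le_mul_of_nonneg_right h1 h3
    _ = C * (n a * (n b * ∏ i ∈ (univ.erase a).erase b, n i)) := by ring

open Classical in
/-- one more pair -/
theorem one_pair {k : ℕ} (A : Fin k → Finset ℕ) (n : Fin k → ℝ)
    (hn : ∀ i, ((A i).card : ℝ) ≤ n i) (R : Fin k → Fin k → ℕ → ℕ → Prop) (δ : ℝ) (hδ : 0 ≤ δ)
    (a b : Fin k) (hab : a < b)
    (hR : ∀ U ⊆ A a, ∀ W ⊆ A b,
      |(((U ×ˢ W).filter (fun e => R a b e.1 e.2)).card : ℝ) - U.card * W.card / 2| ≤
        δ * (n a * n b))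
    (P : Finset (Fin k × Fin k)) (hP : ∀ e ∈ P, e.1 < e.2) (heP : (a, b) ∉ P) :
    |(((Fintype.piFinset A).filter
        (fun t => R a b (t a) (t b) ∧ ∀ e ∈ P, R e.1 e.2 (t e.1) (t e.2))).card : ℝ) -
      1 / 2 * (((Fintype.piFinset A).filter
        (fun t => ∀ e ∈ P, R e.1 e.2 (t e.1) (t e.2))).card : ℝ)| ≤ δ * ∏ i, n i := by
  have hab' : a ≠ b := hab.ne
  have e1 : (((Fintype.piFinset A).filter
        (fun t => R a b (t a) (t b) ∧ ∀ e ∈ P, R e.1 e.2 (t e.1) (t e.2))).card : ℝ) -
      1 / 2 * (((Fintype.piFinset A).filter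
        (fun t => ∀ e ∈ P, R e.1 e.2 (t e.1) (t e.2))).card : ℝ) =
      ∑ t ∈ Fintype.piFinset A, (((if R a b (t a) (t b) then 1 else 0) - 1 / 2) *
        (if ∀ e ∈ P, R e.1 e.2 (t e.1) (t e.2) then 1 else 0) : ℝ) := by
    rw [card_filter, card_filter]
    push_cast
    rw [mul_sum, ← sum_sub_distrib]
    apply sum_congr rfl
    intro t _
    by_cases h2 : ∀ e ∈ P, R e.1 e.2 (t e.1) (t e.2)
    · rw [if_pos h2]
      by_cases h1 : R a b (t a) (t b)
      · rw [if_pos ⟨h1, h2⟩, if_pos h1]; norm_num
      · rw [if_neg (fun h => h1 h.1), if_neg h1]; norm_num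
    · rw [if_neg h2, if_neg (fun h => h2 h.2)]; norm_num
  rw [e1, sum_update A a b hab']
  refine (abs_sum_le_sum_abs _ _).trans ?_
  have key : ∀ r ∈ Fintype.piFinset (Function.update (Function.update A a {0}) b {0}),
      |∑ e ∈ A a ×ˢ A b, (fun t : Fin k → ℕ => (((if R a b (t a) (t b) then 1 else 0) - 1 / 2) *
        (if ∀ e ∈ P, R e.1 e.2 (t e.1) (t e.2) then 1 else 0) : ℝ))
          (Function.update (Function.update r a e.1) b e.2)| ≤ δ * (n a * n b) := by
    intro r _
    set G : ℕ → Prop := fun u => ∀ e ∈ P, e.1 ≠ b → e.2 ≠ b →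
      R e.1 e.2 (Function.update r a u e.1) (Function.update r a u e.2) with hG
    set H : ℕ → Prop := fun w => ∀ e ∈ P, (e.1 = b ∨ e.2 = b) →
      R e.1 e.2 (Function.update r b w e.1) (Function.update r b w e.2) with hH
    have hiff : ∀ u w : ℕ, (∀ e ∈ P, R e.1 e.2
        (Function.update (Function.update r a u) b w e.1)
        (Function.update (Function.update r a u) b w e.2)) ↔ G u ∧ H w := by
      intro u w
      constructor
      · intro h
        refine ⟨fun e he h1 h2 => ?_, fun e he h1 => ?_⟩
        · have := h e he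
          rwa [Function.update_of_ne h1, Function.update_of_ne h2] at this
        · have h3 := h e he
          have hne := hP e he
          have hna : e.1 ≠ a := by
            intro h4
            rcases h1 with h1 | h1
            · exact hab' (h4.symm.trans h1)
            · exact heP (by rw [← h4, ← h1]; exact he)
          have hnb : e.2 ≠ a := by
            intro h4
            rcases h1 with h1 | h1
            · rw [h1, h4] at hne
              exact absurd hne (not_lt.2 hab.le)
            · exact hab' (h4.symm.trans h1)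
          have e2 : ∀ i : Fin k, i ≠ a → Function.update (Function.update r a u) b w i =
              Function.update r b w i := by
            intro i hi
            by_cases hib : i = b
            · subst hib; simp
            · simp [hib, hi]
          rwa [e2 _ hna, e2 _ hnb] at h3
      · rintro ⟨h1, h2⟩ e he
        by_cases hb : e.1 = b ∨ e.2 = b
        · have h3 := h2 e he hb
          have hne := hP e he
          have hna : e.1 ≠ a := by
            intro h4
            rcases hb with hb | hb
            · exact hab' (h4.symm.trans hb)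
            · exact heP (by rw [← h4, ← hb]; exact he)
          have hnb : e.2 ≠ a := by
            intro h4
            rcases hb with hb | hb
            · rw [hb, h4] at hne
              exact absurd hne (not_lt.2 hab.le)
            · exact hab' (h4.symm.trans hb)
          have e2 : ∀ i : Fin k, i ≠ a → Function.update (Function.update r a u) b w i =
              Function.update r b w i := by
            intro i hi
            by_cases hib : i = b
            · subst hib; simp
            · simp [hib, hi]
          rwa [e2 _ hna, e2 _ hnb]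
        · push Not at hb
          have h3 := h1 e he hb.1 hb.2
          rwa [Function.update_of_ne hb.1, Function.update_of_ne hb.2]
    have h1 := hR ((A a).filter G) (filter_subset _ _) ((A b).filter H) (filter_subset _ _)
    have e2 : ∑ e ∈ A a ×ˢ A b, (fun t : Fin k → ℕ => (((if R a b (t a) (t b) then 1 else 0) - 1 / 2) *
        (if ∀ e ∈ P, R e.1 e.2 (t e.1) (t e.2) then 1 else 0) : ℝ))
          (Function.update (Function.update r a e.1) b e.2) =
        ∑ e ∈ (A a).filter G ×ˢ (A b).filter H, ((if R a b e.1 e.2 then 1 else 0) - 1 / 2 : ℝ) := by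
      rw [← filter_product, sum_filter]
      apply sum_congr rfl
      intro e _
      have e3 : Function.update (Function.update r a e.1) b e.2 a = e.1 := by simp [hab']
      have e4 : Function.update (Function.update r a e.1) b e.2 b = e.2 := by simp
      beta_reduce
      rw [e3, e4]
      by_cases h : G e.1 ∧ H e.2
      · rw [if_pos ((hiff e.1 e.2).2 h), if_pos h, mul_one]
      · rw [if_neg (fun h' => h ((hiff e.1 e.2).1 h')), if_neg h, mul_zero]
    rw [e2, sum_sub_distrib, sum_const, card_product, nsmul_eq_mul, ← sum_filter, sum_const,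
      nsmul_eq_mul]
    push_cast
    rw [mul_one]
    have e5 : ((A a).filter G).card * ((A b).filter H).card * (1 / 2 : ℝ) =
        ((A a).filter G).card * ((A b).filter H).card / 2 := by ring
    rw [e5]
    exact h1
  refine (sum_le_sum key).trans ?_
  rw [sum_const, nsmul_eq_mul]
  exact card_rest A n hn a b hab' δ hδ

open Classical in
/-- **The counting lemma** -/
theorem pattern_count {k : ℕ} (A : Fin k → Finset ℕ) (n : Fin k → ℝ)
    (hn : ∀ i, ((A i).card : ℝ) ≤ n i) (R : Fin k → Fin k → ℕ → ℕ → Prop) (δ : ℝ) (hδ : 0 ≤ δ)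
    (hR : ∀ a b : Fin k, a < b → ∀ U ⊆ A a, ∀ W ⊆ A b,
      |(((U ×ˢ W).filter (fun e => R a b e.1 e.2)).card : ℝ) - U.card * W.card / 2| ≤
        δ * (n a * n b))
    (P : Finset (Fin k × Fin k)) (hP : ∀ e ∈ P, e.1 < e.2) :
    |(((Fintype.piFinset A).filter (fun t => ∀ e ∈ P, R e.1 e.2 (t e.1) (t e.2))).card : ℝ) -
      (1 / 2) ^ P.card * ∏ i, ((A i).card : ℝ)| ≤ P.card * (δ * ∏ i, n i) := by
  have hn0 : ∀ i, 0 ≤ n i := fun i => (Nat.cast_nonneg _).trans (hn i)
  have hprod : 0 ≤ δ * ∏ i, n i := mul_nonneg hδ (prod_nonneg fun i _ => hn0 i)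
  induction P using Finset.induction_on with
  | empty =>
    simp [Fintype.card_piFinset]
  | insert e P he ih =>
    have ih' := ih (fun e' he' => hP e' (mem_insert_of_mem he'))
    have h1 := one_pair A n hn R δ hδ e.1 e.2 (hP e (mem_insert_self _ _))
      (hR e.1 e.2 (hP e (mem_insert_self _ _))) P (fun e' he' => hP e' (mem_insert_of_mem he')) he
    have e1 : (Fintype.piFinset A).filter
        (fun t => ∀ e' ∈ insert e P, R e'.1 e'.2 (t e'.1) (t e'.2)) =
        (Fintype.piFinset A).filter (fun t => R e.1 e.2 (t e.1) (t e.2) ∧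
          ∀ e' ∈ P, R e'.1 e'.2 (t e'.1) (t e'.2)) := by
      apply filter_congr
      intro t _
      rw [forall_mem_insert]
    rw [e1, card_insert_of_notMem he]
    push_cast
    set X : ℝ := (((Fintype.piFinset A).filter (fun t => R e.1 e.2 (t e.1) (t e.2) ∧
          ∀ e' ∈ P, R e'.1 e'.2 (t e'.1) (t e'.2))).card : ℝ)
    set Y : ℝ := (((Fintype.piFinset A).filter
      (fun t => ∀ e' ∈ P, R e'.1 e'.2 (t e'.1) (t e'.2))).card : ℝ)
    set Z : ℝ := ∏ i, ((A i).card : ℝ)
    set W : ℝ := δ * ∏ i, n i
    have e2 : X - (1 / 2) ^ (P.card + 1) * Z = (X - 1 / 2 * Y) + 1 / 2 * (Y - (1 / 2) ^ P.card * Z) := by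
      rw [pow_succ]; ring
    rw [e2]
    have h3 : |1 / 2 * (Y - (1 / 2) ^ P.card * Z)| ≤ 1 / 2 * (P.card * W) := by
      rw [abs_mul, abs_of_nonneg (by norm_num : (0 : ℝ) ≤ 1 / 2)]
      exact mul_le_mul_of_nonneg_left ih' (by norm_num)
    have h4 : (0 : ℝ) ≤ (P.card : ℝ) * W := mul_nonneg (Nat.cast_nonneg _) hprod
    calc |(X - 1 / 2 * Y) + 1 / 2 * (Y - (1 / 2) ^ P.card * Z)|
        ≤ |X - 1 / 2 * Y| + |1 / 2 * (Y - (1 / 2) ^ P.card * Z)| := abs_add_le _ _
      _ ≤ W + 1 / 2 * (P.card * W) := add_le_add h1 h3
      _ ≤ (P.card + 1) * W := by linarith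

open Classical in
/-- few tuples contain a pair from a small set of pairs -/
theorem pair_few {k : ℕ} (A : Fin k → Finset ℕ) (n : Fin k → ℝ)
    (hn : ∀ i, ((A i).card : ℝ) ≤ n i) (R : ℕ → ℕ → Prop) (δ : ℝ) (hδ : 0 ≤ δ)
    (a b : Fin k) (hab : a ≠ b)
    (hR : (((A a ×ˢ A b).filter (fun e => R e.1 e.2)).card : ℝ) ≤ δ * (n a * n b)) :
    (((Fintype.piFinset A).filter (fun t => R (t a) (t b))).card : ℝ) ≤ δ * ∏ i, n i := by
  rw [card_filter]
  push_cast
  rw [sum_update A a b hab]
  have key : ∀ r ∈ Fintype.piFinset (Function.update (Function.update A a {0}) b {0}),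
      ∑ e ∈ A a ×ˢ A b, (fun t : Fin k → ℕ => (if R (t a) (t b) then 1 else 0 : ℝ))
          (Function.update (Function.update r a e.1) b e.2) ≤ δ * (n a * n b) := by
    intro r _
    refine le_trans (le_of_eq ?_) hR
    rw [card_filter]
    push_cast
    apply sum_congr rfl
    intro e _
    have e3 : Function.update (Function.update r a e.1) b e.2 a = e.1 := by simp [hab]
    have e4 : Function.update (Function.update r a e.1) b e.2 b = e.2 := by simp
    rw [e3, e4]
  refine (sum_le_sum key).trans ?_
  rw [sum_const, nsmul_eq_mul]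
  exact card_rest A n hn a b hab δ hδ

end Pool.Agent.H482.MR
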