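import Mathlib
import Pool.Agent.H482.MR.M1
import Pool.Graph.R_seed8.Y855.A18
import Pool.Graph.R_seed8.H386R2.Artin.BadCount
import Pool.Graph.R_seed8.H386R2.Artin.LocalCount

/-!
The relation of being a primitive root modulo each other between primes without small prime factors of `p - 1`.
-/

set_option autoImplicit false

open Finset

namespace Pool.Agent.H482.MR

open Pool.Agent.H386R2.Artin

/-- `q = p` or `q` is an `l`-th power residue modulo `p` for an odd prime `l` dividing `p - 1` -/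
def BadP (q p : ℕ) : Prop :=
  q = p ∨ ∃ l : ℕ, l.Prime ∧ 3 ≤ l ∧ l ∣ p - 1 ∧ (q : ZMod p) ^ ((p - 1) / l) = 1

theorem root_iff {q p : ℕ} (hq : q.Prime) (hp : p.Prime) (hp2 : 2 < p) (hb : ¬ BadP q p) :
    orderOf (q : ZMod p) = p - 1 ↔ jacobiSym q p = -1 := by
  have : Fact p.Prime := ⟨hp⟩
  have hqp : ¬ (p : ℤ) ∣ (q : ℤ) := by
    intro h
    rw [Int.natCast_dvd_natCast, Nat.prime_dvd_prime_iff_eq hp hq] at h
    exact hb (Or.inl h.symm)
  have h1 := Pool.Agent.Y855.order_iff' (q : ℤ) p hp2 hqp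
  rw [Int.cast_natCast] at h1
  rw [h1, jacobiSym.legendreSym.to_jacobiSym]
  constructor
  · exact fun h => h.1
  · intro h
    exact ⟨h, fun h' => hb (Or.inr h')⟩

theorem recip_one {p q : ℕ} (hp : p.Prime) (hq : q.Prime) (hp2 : 2 < p) (hq2 : 2 < q)
    (h : p % 4 = 1 ∨ q % 4 = 1) : jacobiSym p q = jacobiSym q p := by
  have hpo : Odd p := hp.odd_of_ne_two (by omega)
  have hqo : Odd q := hq.odd_of_ne_two (by omega)
  rcases h with h | h
  · exact jacobiSym.quadratic_reciprocity_one_mod_four h hqo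
  · exact jacobiSym.quadratic_reciprocity_one_mod_four' hpo h

theorem recip_three {p q : ℕ} (h : p % 4 = 3) (h' : q % 4 = 3) :
    jacobiSym p q = - jacobiSym q p :=
  jacobiSym.quadratic_reciprocity_three_mod_four h h'

theorem jac_pm {p q : ℕ} (hp : p.Prime) (hq : q.Prime) (hpq : q ≠ p) :
    jacobiSym q p = 1 ∨ jacobiSym q p = -1 := by
  apply jacobiSym.eq_one_or_neg_one
  rw [Int.gcd_natCast_natCast]
  exact (Nat.coprime_primes hq hp).2 hpq

/-- nonresidues in a good set -/
theorem good_symbol (E : Finset ℕ) (hE : ∀ q ∈ E, q.Prime) (M : ℝ) (hM : 0 ≤ M) (p : ℕ)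
    (hp : p.Prime) (hp2 : 2 < p) (hG : Good E M p) :
    |((E.filter (fun q : ℕ => jacobiSym q p = -1)).card : ℝ) - E.card / 2| ≤ M + 1 / 2 := by
  classical
  have hfact : Fact p.Prime := ⟨hp⟩
  have h2 : 2 ∣ p - 1 := by
    have := hp.odd_of_ne_two (by omega)
    rcases this with ⟨m, hm⟩
    exact ⟨m, by omega⟩
  have hdiv : (p - 1) / 2 = p / 2 := by
    have := hp.odd_of_ne_two (by omega)
    rcases this with ⟨m, hm⟩
    omega
  have h1 := power_residue E M 1 hM hG (by
    intro h
    have := Int.le_of_dvd one_pos h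
    omega) 2 h2
  have hpow : ∀ q : ℕ, (((1 : ℤ) * (q : ℤ) : ℤ) : ZMod p) ^ ((p - 1) / 2) = 1 ↔
      (q : ZMod p) ^ (p / 2) = 1 := by
    intro q
    rw [hdiv, one_mul, Int.cast_natCast]
  have e0 : E.filter (fun q : ℕ => (((1 : ℤ) * (q : ℤ) : ℤ) : ZMod p) ^ ((p - 1) / 2) = 1) =
      E.filter (fun q : ℕ => (q : ZMod p) ^ (p / 2) = 1) := filter_congr fun q _ => hpow q
  rw [e0] at h1
  set A1 := E.filter (fun q : ℕ => (q : ZMod p) ^ (p / 2) = 1) with hA1
  set A0 := E.filter (fun q : ℕ => (q : ZMod p) ≠ 0) with hA0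
  set A2 := E.filter (fun q : ℕ => jacobiSym q p = -1) with hA2
  have hp20 : p / 2 ≠ 0 := by omega
  have hsplit : A0.card = A1.card + A2.card := by
    rw [← card_union_of_disjoint]
    · congr 1
      ext q
      simp only [hA0, hA1, hA2, mem_filter, mem_union]
      constructor
      · rintro ⟨hq, h0⟩
        by_cases h : (q : ZMod p) ^ (p / 2) = 1
        · exact Or.inl ⟨hq, h⟩
        · right
          refine ⟨hq, ?_⟩
          rw [← jacobiSym.legendreSym.to_jacobiSym, legendreSym.eq_neg_one_iff]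
          rw [Int.cast_natCast, ZMod.euler_criterion p h0]
          exact h
      · rintro (⟨hq, h⟩ | ⟨hq, h⟩)
        · refine ⟨hq, fun h0 => ?_⟩
          rw [h0, zero_pow hp20] at h
          exact zero_ne_one h
        · refine ⟨hq, fun h0 => ?_⟩
          rw [← jacobiSym.legendreSym.to_jacobiSym] at h
          have h3 : legendreSym p (q : ℤ) = 0 := by
            rw [legendreSym.eq_zero_iff, Int.cast_natCast]
            exact h0
          rw [h3] at h
          norm_num at h
    · rw [disjoint_left]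
      intro q h3 h4
      rw [hA1, mem_filter] at h3
      rw [hA2, mem_filter] at h4
      have h5 := h4.2
      rw [← jacobiSym.legendreSym.to_jacobiSym, legendreSym.eq_neg_one_iff, Int.cast_natCast] at h5
      have h0 : (q : ZMod p) ≠ 0 := by
        intro h0
        rw [h0] at h5
        exact h5 ⟨0, by simp⟩
      rw [ZMod.euler_criterion p h0] at h5
      exact h5 h3.2
  have hE0 : E.card ≤ A0.card + 1 := by
    have h3 : E ⊆ A0 ∪ {p} := by
      intro q hq
      rw [mem_union, mem_singleton]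
      by_cases h : (q : ZMod p) = 0
      · right
        rw [ZMod.natCast_eq_zero_iff, Nat.prime_dvd_prime_iff_eq hp (hE q hq)] at h
        exact h.symm
      · left
        rw [hA0, mem_filter]
        exact ⟨hq, h⟩
    calc E.card ≤ (A0 ∪ {p}).card := card_le_card h3
      _ ≤ A0.card + 1 := by
        refine (card_union_le _ _).trans ?_
        rw [card_singleton]
  have hE1 : A0.card ≤ E.card := card_le_card (filter_subset _ _)
  have r1 : (A0.card : ℝ) = A1.card + A2.card := by exact_mod_cast hsplit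
  have r2 : (E.card : ℝ) ≤ A0.card + 1 := by exact_mod_cast hE0
  have r3 : (A0.card : ℝ) ≤ E.card := by exact_mod_cast hE1
  push_cast at h1
  have h4 := abs_le.1 h1
  rw [abs_le]
  constructor <;> linarith [h4.1, h4.2]

open Classical in
/-- the number of bad moduli -/
theorem bad_moduli (E : Finset ℕ) (x : ℕ) (y : ℝ) (hy : 0 < y) (hyx : (x : ℝ) = y ^ 5)
    (hE : ∀ q ∈ E, q.Prime ∧ q ≤ x) :
    (((PP x).filter (fun p => ¬ Good E (y ^ 4) p)).card : ℝ) ≤ 24 * y ^ 4 := by
  classical
  have h1 := badCount E x x 2 (y ^ 4) hE (by positivity) le_rfl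
  have h2 : (E.card : ℝ) ≤ y ^ 5 := by
    have h3 : E ⊆ Icc 1 x := by
      intro q hq
      rw [mem_Icc]
      exact ⟨(hE q hq).1.one_le, (hE q hq).2⟩
    have h4 := card_le_card h3
    rw [Nat.card_Icc] at h4
    rw [← hyx]
    exact_mod_cast (by omega : E.card ≤ x)
  have h3 : (E.card : ℝ) ^ 2 ≤ (y ^ 5) ^ 2 := pow_le_pow_left₀ (Nat.cast_nonneg _) h2 2
  rw [hyx] at h1
  have h4 : ((2 : ℕ).factorial : ℝ) = 2 := by norm_num
  rw [h4] at h1
  have h5 : (((PP x).filter (fun p => ¬ Good E (y ^ 4) p)).card : ℝ) * y ^ 16 ≤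
      (24 * y ^ 4) * y ^ 16 := by
    have e1 : (y ^ 4) ^ (2 * 2) = y ^ 16 := by ring
    rw [e1] at h1
    refine le_trans ?_ (h1.trans ?_)
    · apply le_of_eq
      congr
    · calc 12 * (y ^ 5) ^ 2 * 2 * (E.card : ℝ) ^ 2 ≤ 12 * (y ^ 5) ^ 2 * 2 * (y ^ 5) ^ 2 :=
            mul_le_mul_of_nonneg_left h3 (by positivity)
        _ = (24 * y ^ 4) * y ^ 16 := by ring
  exact le_of_mul_le_mul_right h5 (by positivity)

open Classical in
/-- the symbol is balanced on products of sets -/
theorem cut_symbol (x : ℕ) (y : ℝ) (hy : 1 ≤ y) (hyx : (x : ℝ) = y ^ 5) (U W : Finset ℕ)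
    (hU : ∀ q ∈ U, q.Prime ∧ q ≤ x) (hW : ∀ q ∈ W, q.Prime ∧ q ≤ x ∧ 2 < q) (s : Prop) :
    |(((U ×ˢ W).filter (fun e => (jacobiSym e.1 e.2 = -1 ↔ s))).card : ℝ) -
      U.card * W.card / 2| ≤ 26 * y ^ 9 := by
  have hy0 : 0 < y := by linarith
  have hy4 : 1 ≤ y ^ 4 := one_le_pow₀ hy
  have hbad := bad_moduli U x y hy0 hyx hU
  have hUx : (U.card : ℝ) ≤ y ^ 5 := by
    have h3 : U ⊆ Icc 1 x := by
      intro q hq
      rw [mem_Icc]
      exact ⟨(hU q hq).1.one_le, (hU q hq).2⟩
    have h4 := card_le_card h3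
    rw [Nat.card_Icc] at h4
    rw [← hyx]
    exact_mod_cast (by omega : U.card ≤ x)
  have hWx : (W.card : ℝ) ≤ y ^ 5 := by
    have h3 : W ⊆ Icc 1 x := by
      intro q hq
      rw [mem_Icc]
      exact ⟨(hW q hq).1.one_le, (hW q hq).2.1⟩
    have h4 := card_le_card h3
    rw [Nat.card_Icc] at h4
    rw [← hyx]
    exact_mod_cast (by omega : W.card ≤ x)
  have e1 : (((U ×ˢ W).filter (fun e => (jacobiSym e.1 e.2 = -1 ↔ s))).card : ℝ) -
      U.card * W.card / 2 = ∑ w ∈ W, (((U.filter (fun u : ℕ => (jacobiSym u w = -1 ↔ s))).card : ℝ) -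
        U.card / 2) := by
    rw [sum_sub_distrib, sum_const, nsmul_eq_mul, card_filter]
    push_cast
    rw [sum_product_right]
    have e2 : ∀ w ∈ W, ∑ u ∈ U, (if (jacobiSym (u : ℤ) w = -1 ↔ s) then (1 : ℝ) else 0) =
        ((U.filter (fun u : ℕ => (jacobiSym u w = -1 ↔ s))).card : ℝ) := by
      intro w _
      rw [card_filter]
      push_cast
      rfl
    rw [sum_congr rfl e2]
    ring
  rw [e1]
  refine (abs_sum_le_sum_abs _ _).trans ?_
  have key : ∀ w ∈ W, |((U.filter (fun u : ℕ => (jacobiSym u w = -1 ↔ s))).card : ℝ) -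
      U.card / 2| ≤ (y ^ 4 + 1 / 2) + (if ¬ Good U (y ^ 4) w then (U.card : ℝ) else 0) := by
    intro w hw
    by_cases hG : Good U (y ^ 4) w
    · rw [if_neg (fun h => h hG), add_zero]
      have h1 := good_symbol U (fun q hq => (hU q hq).1) (y ^ 4) (by positivity) w (hW w hw).1
        (hW w hw).2.2 hG
      by_cases hs : s
      · have e2 : U.filter (fun u : ℕ => (jacobiSym u w = -1 ↔ s)) =
            U.filter (fun u : ℕ => jacobiSym u w = -1) := by
          apply filter_congr
          intro u _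
          simp [hs]
        rw [e2]
        exact h1
      · have e2 : (U.filter (fun u : ℕ => (jacobiSym u w = -1 ↔ s))) =
            U.filter (fun u : ℕ => ¬ jacobiSym u w = -1) := by
          apply filter_congr
          intro u _
          simp [hs]
        have e3 : ((U.filter (fun u : ℕ => jacobiSym u w = -1)).card : ℝ) +
            ((U.filter (fun u : ℕ => ¬ jacobiSym u w = -1)).card : ℝ) = U.card := by
          exact_mod_cast card_filter_add_card_filter_not (s := U)
            (fun u : ℕ => jacobiSym u w = -1)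
        rw [e2]
        have h2 := abs_le.1 h1
        rw [abs_le]
        constructor <;> linarith [h2.1, h2.2]
    · rw [if_pos hG]
      have h1 : ((U.filter (fun u : ℕ => (jacobiSym u w = -1 ↔ s))).card : ℝ) ≤ U.card := by
        exact_mod_cast card_le_card (filter_subset _ _)
      have h2 : (0 : ℝ) ≤ ((U.filter (fun u : ℕ => (jacobiSym u w = -1 ↔ s))).card : ℝ) :=
        Nat.cast_nonneg _
      rw [abs_le]
      constructor <;> linarith
  refine (sum_le_sum key).trans ?_
  rw [sum_add_distrib, sum_const, nsmul_eq_mul, ← sum_filter, sum_const, nsmul_eq_mul]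
  have h5 : ((W.filter (fun w => ¬ Good U (y ^ 4) w)).card : ℝ) ≤ 24 * y ^ 4 := by
    refine le_trans ?_ hbad
    have : W.filter (fun w => ¬ Good U (y ^ 4) w) ⊆ (PP x).filter (fun p => ¬ Good U (y ^ 4) p) := by
      intro w hw
      rw [mem_filter] at hw ⊢
      refine ⟨?_, hw.2⟩
      unfold PP
      rw [mem_filter, mem_range]
      have := hW w hw.1
      exact ⟨by omega, this.1⟩
    exact_mod_cast card_le_card this
  have h6 : (W.card : ℝ) * (y ^ 4 + 1 / 2) ≤ y ^ 5 * (2 * y ^ 4) :=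
    mul_le_mul hWx (by linarith) (by positivity) (by positivity)
  have h7 : ((W.filter (fun w => ¬ Good U (y ^ 4) w)).card : ℝ) * (U.card : ℝ) ≤
      24 * y ^ 4 * y ^ 5 := mul_le_mul h5 hUx (Nat.cast_nonneg _) (by positivity)
  calc (W.card : ℝ) * (y ^ 4 + 1 / 2) +
      ((W.filter (fun w => ¬ Good U (y ^ 4) w)).card : ℝ) * (U.card : ℝ)
      ≤ y ^ 5 * (2 * y ^ 4) + 24 * y ^ 4 * y ^ 5 := add_le_add h6 h7
    _ = 26 * y ^ 9 := by ring

end Pool.Agent.H482.MR
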