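import Mathlib
import Pool.Agent.H482.MR.M2

/-!
Few pairs of primes of a sifted set are power residues of odd order of each other.
-/

set_option autoImplicit false

open Finset

namespace Pool.Agent.H482.MR

open Pool.Agent.H386R2.Artin
open Pool.Agent.Y855 (TT OP mem_OP)

theorem omega_log {n x : ℕ} (hn : n ≠ 0) (hnx : n ≤ x) :
    (n.primeFactors.card : ℝ) ≤ 2 * Real.log x := by
  have h1 : 2 ^ n.primeFactors.card ≤ ∏ q ∈ n.primeFactors, q :=
    Finset.pow_card_le_prod _ _ _ fun q hq => (Nat.prime_of_mem_primeFactors hq).two_le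
  have h2 : ∏ q ∈ n.primeFactors, q ≤ n :=
    Nat.le_of_dvd (Nat.pos_of_ne_zero hn) (Nat.prod_primeFactors_dvd n)
  have h3 : (2 : ℝ) ^ n.primeFactors.card ≤ x := by exact_mod_cast h1.trans (h2.trans hnx)
  have h4 := Real.log_le_log (by positivity) h3
  rw [Real.log_pow] at h4
  have h5 := Real.log_two_gt_d9
  have h6 : (0 : ℝ) ≤ (n.primeFactors.card : ℝ) := Nat.cast_nonneg _
  nlinarith

theorem mem_TT {x z p : ℕ} : p ∈ TT x z ↔ (1 ≤ p ∧ p ≤ x) ∧ p.Prime ∧ ∀ q ∈ OP z, ¬ q ∣ p - 1 := by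
  unfold TT
  rw [mem_filter, mem_Icc]

open Classical in
theorem cut_bad (x z : ℕ) (hz : 1 ≤ z) (y : ℝ) (hy : 1 ≤ y) (hyx : (x : ℝ) = y ^ 5)
    (U W : Finset ℕ) (hU : U ⊆ TT x z) (hW : W ⊆ TT x z) (hW2 : ∀ w ∈ W, 2 < w) :
    (((U ×ˢ W).filter (fun e => BadP e.1 e.2)).card : ℝ) ≤
      W.card * (1 + 2 * Real.log x * ((TT x z).card / z + y ^ 4)) + 24 * y ^ 4 * U.card := by
  set T := TT x z with hT
  have hy0 : 0 < y := by linarith
  have hTp : ∀ q ∈ T, q.Prime ∧ q ≤ x := fun q hq => ⟨(mem_TT.1 hq).2.1, (mem_TT.1 hq).1.2⟩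
  have hbad := bad_moduli T x y hy0 hyx hTp
  have hzr : (1 : ℝ) ≤ z := by exact_mod_cast hz
  have hL0 : 0 ≤ Real.log x := Real.log_natCast_nonneg x
  have e1 : (((U ×ˢ W).filter (fun e => BadP e.1 e.2)).card : ℝ) =
      ∑ w ∈ W, ((U.filter (fun u : ℕ => BadP u w)).card : ℝ) := by
    rw [card_filter]
    push_cast
    rw [sum_product_right]
    apply sum_congr rfl
    intro w _
    rw [card_filter]
    push_cast
    rfl
  rw [e1]
  have key : ∀ w ∈ W, ((U.filter (fun u : ℕ => BadP u w)).card : ℝ) ≤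
      (1 + 2 * Real.log x * (T.card / z + y ^ 4)) +
        (if ¬ Good T (y ^ 4) w then (U.card : ℝ) else 0) := by
    intro w hw
    have hwT := mem_TT.1 (hW hw)
    have hwp := hwT.2.1
    have hw2 := hW2 w hw
    have h0 : (0 : ℝ) ≤ 2 * Real.log x * (T.card / z + y ^ 4) := by positivity
    by_cases hG : Good T (y ^ 4) w
    · rw [if_neg (fun h => h hG), add_zero]
      have hfact : Fact w.Prime := ⟨hwp⟩
      set Λ := (w - 1).primeFactors.filter (fun l => 3 ≤ l) with hΛ
      have hsub : U.filter (fun u : ℕ => BadP u w) ⊆ {w} ∪ Λ.biUnion (fun l =>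
          T.filter (fun u : ℕ => (((1 : ℤ) * (u : ℤ) : ℤ) : ZMod w) ^ ((w - 1) / l) = 1)) := by
        intro u hu
        rw [mem_filter] at hu
        rw [mem_union, mem_singleton, mem_biUnion]
        rcases hu.2 with h | ⟨l, hl, hl3, hlw, h⟩
        · exact Or.inl h
        · right
          refine ⟨l, ?_, ?_⟩
          · rw [hΛ, mem_filter, Nat.mem_primeFactors]
            exact ⟨⟨hl, hlw, by omega⟩, hl3⟩
          · rw [mem_filter]
            refine ⟨hU hu.1, ?_⟩
            rw [one_mul, Int.cast_natCast]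
            exact h
      have hc := (card_le_card hsub).trans (card_union_le _ _)
      have hc2 : (Λ.biUnion (fun l =>
          T.filter (fun u : ℕ => (((1 : ℤ) * (u : ℤ) : ℤ) : ZMod w) ^ ((w - 1) / l) = 1))).card ≤
          ∑ l ∈ Λ, (T.filter (fun u : ℕ => (((1 : ℤ) * (u : ℤ) : ℤ) : ZMod w) ^ ((w - 1) / l) = 1)).card :=
        card_biUnion_le
      rw [card_singleton] at hc
      have hc3 : ((U.filter (fun u : ℕ => BadP u w)).card : ℝ) ≤ 1 + ∑ l ∈ Λ,
          ((T.filter (fun u : ℕ => (((1 : ℤ) * (u : ℤ) : ℤ) : ZMod w) ^ ((w - 1) / l) = 1)).card : ℝ) := by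
        have := hc.trans (Nat.add_le_add_left hc2 1)
        exact_mod_cast this
      refine hc3.trans (add_le_add le_rfl ?_)
      have hterm : ∀ l ∈ Λ,
          ((T.filter (fun u : ℕ => (((1 : ℤ) * (u : ℤ) : ℤ) : ZMod w) ^ ((w - 1) / l) = 1)).card : ℝ) ≤
          T.card / z + y ^ 4 := by
        intro l hl
        rw [hΛ, mem_filter, Nat.mem_primeFactors] at hl
        have hlz : z < l := by
          by_contra hcon
          exact hwT.2.2 l (mem_OP.2 ⟨hl.1.1, hl.2, not_lt.1 hcon⟩) hl.1.2.1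
        have h1 := power_residue T (y ^ 4) 1 (by positivity) hG (by
          intro h
          have := Int.le_of_dvd one_pos h
          omega) l hl.1.2.1
        have h2 : ((T.filter (fun q : ℕ => (q : ZMod w) ≠ 0)).card : ℝ) / l ≤ T.card / z := by
          have h3 : ((T.filter (fun q : ℕ => (q : ZMod w) ≠ 0)).card : ℝ) ≤ T.card := by
            exact_mod_cast card_le_card (filter_subset _ _)
          have h4 : (z : ℝ) ≤ l := by exact_mod_cast hlz.le
          exact div_le_div₀ (Nat.cast_nonneg _) h3 (by linarith) h4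
        have h3 := (abs_le.1 h1).2
        have h4 : ((T.filter (fun u : ℕ => (((1 : ℤ) * (u : ℤ) : ℤ) : ZMod w) ^ ((w - 1) / l) = 1)).card : ℝ)
            ≤ ((T.filter (fun q : ℕ => (q : ZMod w) ≠ 0)).card : ℝ) / l + y ^ 4 := by
          have h5 : ((T.filter (fun u : ℕ => (((1 : ℤ) * (u : ℤ) : ℤ) : ZMod w) ^ ((w - 1) / l) = 1)).card : ℝ)
            - ((T.filter (fun q : ℕ => (q : ZMod w) ≠ 0)).card : ℝ) / l ≤ y ^ 4 := by
            convert h3 using 3
          linarith
        linarith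
      refine (sum_le_sum hterm).trans ?_
      rw [sum_const, nsmul_eq_mul]
      apply mul_le_mul_of_nonneg_right _ (by positivity)
      have h1 : (Λ.card : ℝ) ≤ ((w - 1).primeFactors.card : ℝ) := by
        exact_mod_cast card_le_card (filter_subset _ _)
      have hle : w - 1 ≤ x := by omega
      exact h1.trans (omega_log (by omega) hle)
    · rw [if_pos hG]
      have h1 : ((U.filter (fun u : ℕ => BadP u w)).card : ℝ) ≤ U.card := by
        exact_mod_cast card_le_card (filter_subset _ _)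
      linarith
  refine (sum_le_sum key).trans ?_
  rw [sum_add_distrib, sum_const, nsmul_eq_mul, ← sum_filter, sum_const, nsmul_eq_mul]
  have h5 : ((W.filter (fun w => ¬ Good T (y ^ 4) w)).card : ℝ) ≤ 24 * y ^ 4 := by
    refine le_trans ?_ hbad
    have : W.filter (fun w => ¬ Good T (y ^ 4) w) ⊆ (PP x).filter (fun p => ¬ Good T (y ^ 4) p) := by
      intro w hw
      rw [mem_filter] at hw ⊢
      refine ⟨?_, hw.2⟩
      unfold PP
      rw [mem_filter, mem_range]
      have := mem_TT.1 (hW hw.1)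
      exact ⟨by omega, this.2.1⟩
    exact_mod_cast card_le_card this
  exact add_le_add le_rfl (mul_le_mul_of_nonneg_right h5 (Nat.cast_nonneg _))

end Pool.Agent.H482.MR
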