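import Mathlib
import Pool.Agent.H482.MR.M3

/-!
Relative errors for pairs.
-/

set_option autoImplicit false

open Finset Filter

namespace Pool.Agent.H482.MR

open Pool.Agent.Y855 (TT OP mem_OP)

theorem ev_v (K : ℝ) : ∃ x₀ : ℕ, 3 ≤ x₀ ∧ ∀ x : ℕ, x₀ ≤ x → 48 ≤ Real.log x ∧
    10 ^ 4 * K ^ 2 * Real.log x ^ 4 ≤ (x : ℝ) ^ (1 / 20 : ℝ) := by
  have h1 : ∀ᶠ t : ℝ in atTop, ‖Real.log t‖ ≤ 1 * ‖t ^ (1 / 160 : ℝ)‖ :=
    (isLittleO_log_rpow_atTop (by norm_num : (0 : ℝ) < 1 / 160)).bound one_pos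
  have h2 : ∀ᶠ t : ℝ in atTop, 10 ^ 4 * K ^ 2 ≤ t ^ (1 / 40 : ℝ) :=
    (tendsto_rpow_atTop (by norm_num)).eventually_ge_atTop _
  have h3 : ∀ᶠ t : ℝ in atTop, 48 ≤ Real.log t := Real.tendsto_log_atTop.eventually_ge_atTop _
  have h4 := tendsto_natCast_atTop_atTop.eventually (h1.and (h2.and h3))
  obtain ⟨x₁, hx₁⟩ := eventually_atTop.1 h4
  refine ⟨max x₁ 3, le_max_right _ _, fun x hx => ?_⟩
  obtain ⟨a1, a2, a3⟩ := hx₁ x ((le_max_left _ _).trans hx)
  refine ⟨a3, ?_⟩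
  have hx0 : (0 : ℝ) < x := by
    have : 3 ≤ x := (le_max_right _ _).trans hx
    have : (3 : ℝ) ≤ x := by exact_mod_cast this
    linarith
  have hp : 0 < (x : ℝ) ^ (1 / 160 : ℝ) := Real.rpow_pos_of_pos hx0 _
  rw [one_mul, Real.norm_of_nonneg (by linarith), Real.norm_of_nonneg hp.le] at a1
  have a4 : Real.log x ^ 4 ≤ (x : ℝ) ^ (1 / 40 : ℝ) := by
    calc Real.log x ^ 4 ≤ ((x : ℝ) ^ (1 / 160 : ℝ)) ^ 4 := pow_le_pow_left₀ (by linarith) a1 4
      _ = (x : ℝ) ^ (1 / 40 : ℝ) := by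
        rw [← Real.rpow_natCast, ← Real.rpow_mul hx0.le]
        norm_num
  calc 10 ^ 4 * K ^ 2 * Real.log x ^ 4 ≤ (x : ℝ) ^ (1 / 40 : ℝ) * (x : ℝ) ^ (1 / 40 : ℝ) :=
        mul_le_mul a2 a4 (by positivity) (Real.rpow_pos_of_pos hx0 _).le
    _ = (x : ℝ) ^ (1 / 20 : ℝ) := by
        rw [← Real.rpow_add hx0]; norm_num

theorem rel (K L v s t na nb x z y : ℝ) (hK : 1 ≤ K) (hL : 48 ≤ L) (hv : 10 ^ 4 * K ^ 2 * L ^ 4 ≤ v)
    (hxv : x = v ^ 20) (hyv : y = v ^ 4) (hs1 : 1 ≤ s) (hsv : s ≤ v) (hzs : z = s ^ 2)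
    (hLs : L ^ 2 ≤ s) (ht : x / (K * L ^ 2) ≤ t) (hna : t / 4 ≤ na) (hnb : t / 4 ≤ nb) :
    26 * y ^ 9 ≤ 1 / (2 * s) * (na * nb) ∧
    nb * (1 + 2 * L * (t / z + y ^ 4)) + 24 * y ^ 4 * na ≤ 1 / (2 * s) * (na * nb) := by
  have hL0 : 0 < L := by linarith
  have hK0 : 0 < K := by linarith
  have hK2 : K ≤ K ^ 2 := by nlinarith
  have hK21 : 1 ≤ K ^ 2 := by nlinarith
  have hL1 : 1 ≤ L := by linarith
  have hL2 : L ^ 2 ≤ L ^ 4 := pow_le_pow_right₀ hL1 (by norm_num)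
  have hL3 : L ^ 3 ≤ L ^ 4 := pow_le_pow_right₀ hL1 (by norm_num)
  have hL41 : 1 ≤ L ^ 4 := one_le_pow₀ hL1
  have hv1 : 1 ≤ v := by
    have : 1 ≤ K ^ 2 * L ^ 4 := by nlinarith
    nlinarith
  have hv0 : 0 < v := by linarith
  have hs0 : 0 < s := by linarith
  have hT : v ^ 20 ≤ K * L ^ 2 * t := by
    rw [hxv, div_le_iff₀ (by positivity)] at ht
    linarith
  have ht0 : 0 < t := by
    have h1 : 0 < v ^ 20 := by positivity
    have h2 : 0 < K * L ^ 2 := by positivity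
    by_contra hcon
    have h3 : K * L ^ 2 * t ≤ 0 := mul_nonpos_of_nonneg_of_nonpos h2.le (not_lt.1 hcon)
    linarith
  have hna0 : 0 < na := by linarith
  have hnb0 : 0 < nb := by linarith
  have hv3 : v ≤ v ^ 3 := le_self_pow₀ hv1 (by norm_num)
  -- lower bounds for `na`, `nb`
  have hA : v ^ 20 ≤ 4 * K * L ^ 2 * na := by
    have h1 : K * L ^ 2 * t ≤ K * L ^ 2 * (4 * na) :=
      mul_le_mul_of_nonneg_left (by linarith) (by positivity)
    linarith
  have hB : v ^ 20 ≤ 4 * K * L ^ 2 * nb := by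
    have h1 : K * L ^ 2 * t ≤ K * L ^ 2 * (4 * nb) :=
      mul_le_mul_of_nonneg_left (by linarith) (by positivity)
    linarith
  have hAB : v ^ 40 ≤ 16 * K ^ 2 * L ^ 4 * (na * nb) := by
    calc v ^ 40 = v ^ 20 * v ^ 20 := by ring
      _ ≤ (4 * K * L ^ 2 * na) * (4 * K * L ^ 2 * nb) :=
        mul_le_mul hA hB (by positivity) (by positivity)
      _ = 16 * K ^ 2 * L ^ 4 * (na * nb) := by ring
  constructor
  · rw [hyv, ← sub_nonneg]
    have h1 : 52 * s * v ^ 36 * (16 * K ^ 2 * L ^ 4) ≤ v ^ 40 := by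
      calc 52 * s * v ^ 36 * (16 * K ^ 2 * L ^ 4) = (832 * K ^ 2 * L ^ 4) * (s * v ^ 36) := by ring
        _ ≤ v * (v * v ^ 36) := by
          apply mul_le_mul _ _ (by positivity) (by positivity)
          · refine le_trans ?_ hv
            have : 0 ≤ K ^ 2 * L ^ 4 := by positivity
            nlinarith
          · exact mul_le_mul_of_nonneg_right hsv (by positivity)
        _ = v ^ 38 := by ring
        _ ≤ v ^ 40 := pow_le_pow_right₀ hv1 (by norm_num)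
    have h2 : 52 * s * v ^ 36 ≤ na * nb := by
      have h3 : 52 * s * v ^ 36 * (16 * K ^ 2 * L ^ 4) ≤ (na * nb) * (16 * K ^ 2 * L ^ 4) := by
        linarith
      exact le_of_mul_le_mul_right h3 (by positivity)
    have h3 : 1 / (2 * s) * (na * nb) - 26 * (v ^ 4) ^ 9 =
        (na * nb - 52 * s * v ^ 36) / (2 * s) := by
      field_simp
      ring
    rw [h3]
    exact div_nonneg (by linarith) (by positivity)
  · -- three parts
    have p1 : 2 * L * (t / z) ≤ 1 / (6 * s) * na := by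
      have h1 : 48 * L ≤ s := by nlinarith
      have h2 : 2 * L * (t / z) = (2 * L * t) / s ^ 2 := by rw [hzs]; ring
      have h3 : 1 / (6 * s) * na = (s * na / 6) / s ^ 2 := by
        field_simp
      rw [h2, h3]
      apply div_le_div_of_nonneg_right _ (by positivity)
      have h4 : (48 * L) * (t / 4) ≤ s * na := mul_le_mul h1 hna (by positivity) hs0.le
      linarith
    have hsv16 : s * v ^ 16 ≤ v ^ 17 := by
      calc s * v ^ 16 ≤ v * v ^ 16 := mul_le_mul_of_nonneg_right hsv (by positivity)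
        _ = v ^ 17 := by ring
    have p2 : 1 + 2 * L * y ^ 4 ≤ 1 / (6 * s) * na := by
      have h0 : 1 + 2 * L * y ^ 4 ≤ 3 * L * v ^ 16 := by
        rw [hyv]
        have h1 : (v ^ 4) ^ 4 = v ^ 16 := by ring
        rw [h1]
        have h2 : 1 ≤ v ^ 16 := one_le_pow₀ hv1
        have h3 : 1 * 1 ≤ L * v ^ 16 := mul_le_mul hL1 h2 (by norm_num) hL0.le
        linarith
      have h1 : 18 * L * (s * v ^ 16) * (4 * K * L ^ 2) ≤ v ^ 20 := by
        calc 18 * L * (s * v ^ 16) * (4 * K * L ^ 2) = (72 * K * L ^ 3) * (s * v ^ 16) := by ring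
          _ ≤ v ^ 3 * v ^ 17 := by
            apply mul_le_mul _ hsv16 (by positivity) (by positivity)
            refine le_trans ?_ (hv.trans hv3)
            have h5 : K * L ^ 3 ≤ K ^ 2 * L ^ 4 := mul_le_mul hK2 hL3 (by positivity) (by positivity)
            nlinarith
          _ = v ^ 20 := by ring
      have h2 : 18 * L * (s * v ^ 16) ≤ na := by
        have h3 : 18 * L * (s * v ^ 16) * (4 * K * L ^ 2) ≤ na * (4 * K * L ^ 2) := by
          linarith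
        exact le_of_mul_le_mul_right h3 (by positivity)
      refine h0.trans ?_
      have h4 : 1 / (6 * s) * na - 3 * L * v ^ 16 = (na - 18 * L * (s * v ^ 16)) / (6 * s) := by
        field_simp
        ring
      have h5 : 0 ≤ (na - 18 * L * (s * v ^ 16)) / (6 * s) := div_nonneg (by linarith) (by positivity)
      linarith
    have p3 : 24 * y ^ 4 ≤ 1 / (6 * s) * nb := by
      have h0 : 24 * y ^ 4 = 24 * v ^ 16 := by rw [hyv]; ring
      have h1 : 144 * (s * v ^ 16) * (4 * K * L ^ 2) ≤ v ^ 20 := by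
        calc 144 * (s * v ^ 16) * (4 * K * L ^ 2) = (576 * K * L ^ 2) * (s * v ^ 16) := by ring
          _ ≤ v ^ 3 * v ^ 17 := by
            apply mul_le_mul _ hsv16 (by positivity) (by positivity)
            refine le_trans ?_ (hv.trans hv3)
            have h5 : K * L ^ 2 ≤ K ^ 2 * L ^ 4 := mul_le_mul hK2 hL2 (by positivity) (by positivity)
            nlinarith
          _ = v ^ 20 := by ring
      have h2 : 144 * (s * v ^ 16) ≤ nb := by
        have h3 : 144 * (s * v ^ 16) * (4 * K * L ^ 2) ≤ nb * (4 * K * L ^ 2) := by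
          linarith
        exact le_of_mul_le_mul_right h3 (by positivity)
      rw [h0]
      have h4 : 1 / (6 * s) * nb - 24 * v ^ 16 = (nb - 144 * (s * v ^ 16)) / (6 * s) := by
        field_simp
        ring
      have h5 : 0 ≤ (nb - 144 * (s * v ^ 16)) / (6 * s) := div_nonneg (by linarith) (by positivity)
      linarith
    have q1 : nb * (1 + 2 * L * (t / z + y ^ 4)) ≤ nb * (1 / (6 * s) * na + 1 / (6 * s) * na) := by
      apply mul_le_mul_of_nonneg_left _ hnb0.le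
      linarith
    have q2 : 24 * y ^ 4 * na ≤ 1 / (6 * s) * nb * na := mul_le_mul_of_nonneg_right p3 hna0.le
    have q3 : nb * (1 / (6 * s) * na + 1 / (6 * s) * na) + 1 / (6 * s) * nb * na =
        1 / (2 * s) * (na * nb) := by
      field_simp
      ring
    linarith

open Classical in
/-- **pairs** -/
theorem pairs (K : ℝ) (hK : 1 ≤ K) : ∃ x₀ : ℕ, 3 ≤ x₀ ∧ ∀ x : ℕ, x₀ ≤ x → ∀ z : ℕ,
    (z : ℝ) ^ (10 : ℝ) ≤ x → Real.log x ^ 4 ≤ z →
    (x : ℝ) / (K * Real.log x ^ 2) ≤ (TT x z).card → ∀ na nb : ℝ,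
    ((TT x z).card : ℝ) / 4 ≤ na → ((TT x z).card : ℝ) / 4 ≤ nb → ∀ U W : Finset ℕ,
    U ⊆ TT x z → W ⊆ TT x z → (∀ w ∈ W, 2 < w) → (U.card : ℝ) ≤ na → (W.card : ℝ) ≤ nb →
    (∀ s : Prop, |(((U ×ˢ W).filter (fun e => (jacobiSym e.1 e.2 = -1 ↔ s))).card : ℝ) -
      U.card * W.card / 2| ≤ 1 / (2 * √z) * (na * nb)) ∧
    (((U ×ˢ W).filter (fun e => BadP e.1 e.2)).card : ℝ) ≤ 1 / (2 * √z) * (na * nb) := by
  obtain ⟨x₀, hx₀3, hx₀⟩ := ev_v K
  refine ⟨x₀, hx₀3, fun x hx z hz10 hLz hT na nb hna hnb U W hU hW hW2 hUn hWn => ?_⟩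
  obtain ⟨hL, hv⟩ := hx₀ x hx
  have hx3 : 3 ≤ x := hx₀3.trans hx
  have hx0 : (0 : ℝ) < x := by
    have : (3 : ℝ) ≤ x := by exact_mod_cast hx3
    linarith
  have hz1r : (1 : ℝ) ≤ z := by
    have h1 : (1 : ℝ) ≤ Real.log x ^ 4 := one_le_pow₀ (by linarith)
    linarith
  have hz1 : 1 ≤ z := by exact_mod_cast hz1r
  obtain ⟨v, hvdef⟩ : ∃ v : ℝ, v = (x : ℝ) ^ (1 / 20 : ℝ) := ⟨_, rfl⟩
  rw [← hvdef] at hv
  have hv20 : (x : ℝ) = v ^ 20 := by
    rw [hvdef, ← Real.rpow_natCast, ← Real.rpow_mul hx0.le]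
    norm_num
  have hv0 : 0 < v := by rw [hvdef]; exact Real.rpow_pos_of_pos hx0 _
  obtain ⟨s, hs⟩ : ∃ s : ℝ, s = √z := ⟨_, rfl⟩
  have hzs : (z : ℝ) = s ^ 2 := by rw [hs, Real.sq_sqrt (by linarith)]
  have hs1 : 1 ≤ s := by rw [hs]; exact Real.one_le_sqrt.2 hz1r
  have hsv : s ≤ v := by
    have h1 : s ^ 20 ≤ v ^ 20 := by
      rw [← hv20]
      refine le_trans (le_of_eq ?_) hz10
      have e : (10 : ℝ) = ((10 : ℕ) : ℝ) := by norm_num
      rw [e, Real.rpow_natCast, hzs]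
      ring
    exact le_of_pow_le_pow_left₀ (by norm_num) hv0.le h1
  have hLs : Real.log x ^ 2 ≤ s := by
    have h1 : (Real.log x ^ 2) ^ 2 ≤ s ^ 2 := by
      rw [← hzs]
      refine le_trans (le_of_eq ?_) hLz
      ring
    exact le_of_pow_le_pow_left₀ (by norm_num) (by linarith) h1
  obtain ⟨h1, h2⟩ := rel K (Real.log x) v s (TT x z).card na nb x z (v ^ 4) hK hL hv hv20 rfl hs1
    hsv hzs hLs hT hna hnb
  have hy1 : 1 ≤ v ^ 4 := one_le_pow₀ (hs1.trans hsv)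
  have hyx : (x : ℝ) = (v ^ 4) ^ 5 := by rw [hv20]; ring
  rw [← hs]
  have hL0 : 0 ≤ Real.log x := by linarith
  have hv4 : 0 ≤ v ^ 4 := by positivity
  constructor
  · intro σ
    refine (cut_symbol x (v ^ 4) hy1 hyx U W ?_ ?_ σ).trans h1
    · intro q hq
      have := mem_TT.1 (hU hq)
      exact ⟨this.2.1, this.1.2⟩
    · intro q hq
      have := mem_TT.1 (hW hq)
      exact ⟨this.2.1, this.1.2, hW2 q hq⟩
  · refine (cut_bad x z hz1 (v ^ 4) hy1 hyx U W hU hW hW2).trans (le_trans ?_ h2)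
    have h5 : 0 ≤ ((TT x z).card : ℝ) / z + (v ^ 4) ^ 4 :=
      add_nonneg (div_nonneg (Nat.cast_nonneg _) (Nat.cast_nonneg _)) (by positivity)
    have h6 : 0 ≤ 2 * Real.log x * (((TT x z).card : ℝ) / z + (v ^ 4) ^ 4) :=
      mul_nonneg (by linarith) h5
    apply add_le_add
    · exact mul_le_mul_of_nonneg_right hWn (by linarith)
    · exact mul_le_mul_of_nonneg_left hUn (by positivity)

end Pool.Agent.H482.MR
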