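import Mathlib
import Pool.Agent.H482.MR.M4

/-!
Tuples of primes with prescribed relations.
-/

set_option autoImplicit false

open Finset Filter

namespace Pool.Agent.H482.MR

open Pool.Agent.Y855 (TT OP mem_OP)

/-- the primes of `T` in the class `c` modulo `4` -/
def Tf (x z c : ℕ) : Finset ℕ := (TT x z).filter (fun p => p % 4 = c)

/-- a prescribed relation is compatible with the classes modulo `4` -/
def Cons {k : ℕ} (c : Fin k → ℕ) (s : Fin k → Fin k → Prop) : Prop :=
  (∀ i, c i = 1 ∨ c i = 3) ∧ ∀ i j, i ≠ j →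
    ((c i = 3 ∧ c j = 3) → (s j i ↔ ¬ s i j)) ∧ (¬ (c i = 3 ∧ c j = 3) → (s j i ↔ s i j))

/-- the symbol `(u / w)` has the value prescribed by `s` -/
def Sy (s : Prop) (u w : ℕ) : Prop := jacobiSym u w = -1 ↔ s

open Classical in
theorem Sy_card (U W : Finset ℕ) (s : Prop) :
    ((U ×ˢ W).filter (fun e => Sy s e.1 e.2)).card =
      ((U ×ˢ W).filter (fun e => (jacobiSym e.1 e.2 = -1 ↔ s))).card :=
  congrArg card (filter_congr (fun _ _ => Iff.rfl))

theorem card_lt (k : ℕ) :
    ((univ : Finset (Fin k × Fin k)).filter (fun e => e.1 < e.2)).card = k.choose 2 := by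
  classical
  rw [card_filter, ← univ_product_univ, sum_product_right]
  have h1 : ∀ j : Fin k, ∑ i : Fin k, (if i < j then 1 else 0) = (j : ℕ) := by
    intro j
    rw [← card_filter]
    have : (univ.filter (fun i : Fin k => i < j)) = Finset.Iio j := by
      ext i; simp
    rw [this, Fin.card_Iio]
  simp only [h1]
  rw [Fin.sum_univ_eq_sum_range (fun i => i) k, Finset.sum_range_id, Nat.choose_two_right]

open Classical in
/-- **tuples** -/
theorem tuples (K : ℝ) (hK : 1 ≤ K) : ∃ x₀ : ℕ, 3 ≤ x₀ ∧ ∀ x : ℕ, x₀ ≤ x → ∀ z : ℕ,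
    (z : ℝ) ^ (10 : ℝ) ≤ x → Real.log x ^ 4 ≤ z →
    (x : ℝ) / (K * Real.log x ^ 2) ≤ (TT x z).card →
    (∀ c : ℕ, c = 1 ∨ c = 3 → ((TT x z).card : ℝ) / 4 ≤ (Tf x z c).card) →
    ∀ (k : ℕ) (c : Fin k → ℕ) (s : Fin k → Fin k → Prop), Cons c s →
    ∀ A : Fin k → Finset ℕ, (∀ i, A i ⊆ Tf x z (c i)) →
    |(((Fintype.piFinset A).filter (fun t => Function.Injective t ∧ ∀ i j : Fin k, i ≠ j →
        (orderOf ((t i : ℕ) : ZMod (t j)) = t j - 1 ↔ s i j))).card : ℝ) -
      (1 / 2) ^ (k.choose 2) * ∏ i, ((A i).card : ℝ)| ≤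
      (k : ℝ) ^ 2 / √z * ∏ i, ((Tf x z (c i)).card : ℝ) := by
  obtain ⟨x₀, hx₀3, hx₀⟩ := pairs K hK
  refine ⟨x₀, hx₀3, fun x hx z hz10 hLz hT hTc k c s hcs A hA => ?_⟩
  have H := hx₀ x hx z hz10 hLz hT
  set n : Fin k → ℝ := fun i => ((Tf x z (c i)).card : ℝ) with hn
  have hnT : ∀ i, ((TT x z).card : ℝ) / 4 ≤ n i := fun i => hTc (c i) (hcs.1 i)
  have hAn : ∀ i, ((A i).card : ℝ) ≤ n i := fun i => Nat.cast_le.2 (card_le_card (hA i))
  have hn0 : ∀ i, 0 ≤ n i := fun i => Nat.cast_nonneg _
  have hTfT : ∀ c : ℕ, Tf x z c ⊆ TT x z := fun c => filter_subset _ _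
  have hAT : ∀ i, A i ⊆ TT x z := fun i => (hA i).trans (hTfT _)
  have hmod : ∀ i, ∀ p ∈ A i, p.Prime ∧ 2 < p ∧ p % 4 = c i := by
    intro i p hp
    have h1 := hA i hp
    unfold Tf at h1
    rw [mem_filter] at h1
    have h2 := (mem_TT.1 h1.1).2.1
    refine ⟨h2, ?_, h1.2⟩
    have h3 := h2.two_le
    rcases hcs.1 i with h | h <;> omega
  have hA2 : ∀ i, ∀ p ∈ A i, 2 < p := fun i p hp => (hmod i p hp).2.1
  set δ : ℝ := 1 / (2 * √z) with hδ
  have hδ0 : 0 ≤ δ := by positivity
  set P := (univ : Finset (Fin k × Fin k)).filter (fun e => e.1 < e.2) with hP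
  have hPc : P.card = k.choose 2 := card_lt k
  -- the symbols
  have h1 := pattern_count A n hAn (fun a b u w => Sy (s a b) u w) δ hδ0
    (fun a b _ U hU W hW => by
      have h2 := (H (n a) (n b) (hnT a) (hnT b) U W (hU.trans (hAT a))
        (hW.trans (hAT b)) (fun w hw => hA2 b w (hW hw))
        (le_trans (Nat.cast_le.2 (card_le_card hU)) (hAn a))
        (le_trans (Nat.cast_le.2 (card_le_card hW)) (hAn b))).1 (s a b)
      rw [← Sy_card] at h2
      exact h2) P
    (fun e he => (mem_filter.1 he).2)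
  set N' := (Fintype.piFinset A).filter
    (fun t => ∀ e ∈ P, Sy (s e.1 e.2) (t e.1) (t e.2)) with hN'
  set N := (Fintype.piFinset A).filter (fun t => Function.Injective t ∧ ∀ i j : Fin k, i ≠ j →
        (orderOf ((t i : ℕ) : ZMod (t j)) = t j - 1 ↔ s i j)) with hN
  -- the irregular tuples
  set Q := (univ : Finset (Fin k × Fin k)).filter (fun e => e.1 ≠ e.2) with hQ
  set I := Q.biUnion (fun e => (Fintype.piFinset A).filter (fun t => BadP (t e.1) (t e.2))) with hI
  have hIc : (I.card : ℝ) ≤ (Q.card : ℝ) * (δ * ∏ i, n i) := by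
    have h2 : (I.card : ℝ) ≤ ∑ e ∈ Q, (((Fintype.piFinset A).filter
        (fun t => BadP (t e.1) (t e.2))).card : ℝ) := by
      exact_mod_cast card_biUnion_le
    refine h2.trans ?_
    rw [← nsmul_eq_mul, ← sum_const]
    apply sum_le_sum
    intro e he
    have hne : e.1 ≠ e.2 := (mem_filter.1 he).2
    exact pair_few A n hAn BadP δ hδ0 e.1 e.2 hne ((H (n e.1) (n e.2) (hnT _) (hnT _) (A e.1)
      (A e.2) (hAT _) (hAT _) (hA2 _) (hAn _) (hAn _)).2)
  have hreg : ∀ t ∈ Fintype.piFinset A, t ∉ I → (t ∈ N ↔ t ∈ N') := by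
    intro t ht htI
    have htA := Fintype.mem_piFinset.1 ht
    have hb : ∀ i j : Fin k, i ≠ j → ¬ BadP (t i) (t j) := by
      intro i j hij hb
      apply htI
      rw [hI, mem_biUnion]
      exact ⟨(i, j), by rw [hQ, mem_filter]; exact ⟨mem_univ _, hij⟩, by
        rw [mem_filter]; exact ⟨ht, hb⟩⟩
    have hroot : ∀ i j : Fin k, i ≠ j → (orderOf ((t i : ℕ) : ZMod (t j)) = t j - 1 ↔
        jacobiSym (t i : ℤ) (t j) = -1) := fun i j hij =>
      root_iff (hmod i _ (htA i)).1 (hmod j _ (htA j)).1 (hmod j _ (htA j)).2.1 (hb i j hij)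
    have hinj : Function.Injective t := by
      intro i j hij
      by_contra hne
      exact hb i j hne (Or.inl hij)
    rw [hN, hN', mem_filter, mem_filter]
    constructor
    · rintro ⟨h2, -, h3⟩
      refine ⟨h2, fun e he => ?_⟩
      have hlt : e.1 < e.2 := (mem_filter.1 he).2
      unfold Sy
      rw [← hroot e.1 e.2 hlt.ne]
      exact h3 e.1 e.2 hlt.ne
    · rintro ⟨h2, h3⟩
      refine ⟨h2, hinj, fun i j hij => ?_⟩
      rw [hroot i j hij]
      rcases lt_or_gt_of_ne hij with hlt | hlt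
      · exact h3 (i, j) (by rw [hP, mem_filter]; exact ⟨mem_univ _, hlt⟩)
      · have h4 := h3 (j, i) (by rw [hP, mem_filter]; exact ⟨mem_univ _, hlt⟩)
        unfold Sy at h4
        simp only at h4
        have hi := hmod i _ (htA i)
        have hj := hmod j _ (htA j)
        by_cases h33 : c i = 3 ∧ c j = 3
        · have h5 := (hcs.2 i j hij).1 h33
          have h6 := recip_three (p := t i) (q := t j) (by rw [hi.2.2]; exact h33.1)
            (by rw [hj.2.2]; exact h33.2)
          have hne : t i ≠ t j := fun h => hb i j hij (Or.inl h)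
          have h7 := jac_pm (p := t j) (q := t i) hj.1 hi.1 hne
          rw [h6] at h7 ⊢
          rcases h7 with h7 | h7
          · have h8 : jacobiSym (t j : ℤ) (t i) = -1 := by linarith
            rw [h8] at h4 ⊢
            have h9 : s j i := h4.1 rfl
            constructor
            · intro h; norm_num at h
            · intro h; exact absurd h (h5.1 h9)
          · have h8 : jacobiSym (t j : ℤ) (t i) = 1 := by linarith
            rw [h8] at h4 ⊢
            have h9 : ¬ s j i := fun h => by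
              have := h4.2 h
              norm_num at this
            constructor
            · intro _
              by_contra hcon
              exact h9 (h5.2 hcon)
            · intro _; rfl
        · have h5 := (hcs.2 i j hij).2 h33
          have h6 := recip_one (p := t i) (q := t j) hi.1 hj.1 hi.2.1 hj.2.1 (by
            rw [hi.2.2, hj.2.2]
            rcases hcs.1 i with h | h
            · exact Or.inl h
            · rcases hcs.1 j with h' | h'
              · exact Or.inr h'
              · exact absurd ⟨h, h'⟩ h33)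
          rw [h6, h4, h5]
  have hNN' : |(N.card : ℝ) - N'.card| ≤ I.card := by
    have c1 : N.card ≤ N'.card + I.card := by
      have : N ⊆ N' ∪ I := by
        intro t ht
        rw [mem_union]
        by_cases h : t ∈ I
        · exact Or.inr h
        · exact Or.inl ((hreg t (mem_filter.1 ht).1 h).1 ht)
      exact (card_le_card this).trans (card_union_le _ _)
    have c2 : N'.card ≤ N.card + I.card := by
      have : N' ⊆ N ∪ I := by
        intro t ht
        rw [mem_union]
        by_cases h : t ∈ I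
        · exact Or.inr h
        · exact Or.inl ((hreg t (mem_filter.1 ht).1 h).2 ht)
      exact (card_le_card this).trans (card_union_le _ _)
    have c1' : (N.card : ℝ) ≤ N'.card + I.card := by exact_mod_cast c1
    have c2' : (N'.card : ℝ) ≤ N.card + I.card := by exact_mod_cast c2
    rw [abs_le]
    constructor <;> linarith
  have hQc : (Q.card : ℝ) = 2 * (k.choose 2 : ℕ) := by
    have e : Q = P ∪ P.map (Equiv.prodComm (Fin k) (Fin k)).toEmbedding := by
      ext ⟨i, j⟩
      simp only [hQ, hP, mem_filter, mem_univ, true_and, mem_union, Finset.mem_map, Equiv.coe_toEmbedding,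
        Equiv.prodComm_apply, Prod.exists, Prod.swap_prod_mk, Prod.mk.injEq]
      constructor
      · intro h
        rcases lt_or_gt_of_ne h with h | h
        · exact Or.inl h
        · exact Or.inr ⟨j, i, h, rfl, rfl⟩
      · rintro (h | ⟨a, b, h, rfl, rfl⟩)
        · exact h.ne
        · exact h.ne'
    rw [e, card_union_of_disjoint, card_map, hPc]
    · push_cast; ring
    · rw [disjoint_left]
      rintro ⟨i, j⟩ h1 h2
      simp only [hP, mem_filter, mem_univ, true_and, Finset.mem_map, Equiv.coe_toEmbedding,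
        Equiv.prodComm_apply, Prod.exists, Prod.swap_prod_mk, Prod.mk.injEq] at h1 h2
      obtain ⟨a, b, h3, rfl, rfl⟩ := h2
      exact absurd h1 (not_lt.2 h3.le)
  rw [hPc] at h1
  rw [hQc] at hIc
  have hprod : 0 ≤ ∏ i, n i := prod_nonneg fun i _ => hn0 i
  have hchoose : ((k.choose 2 : ℕ) : ℝ) ≤ (k : ℝ) ^ 2 / 2 := by
    have h2 := Nat.choose_two_right k
    have h3 : k.choose 2 * 2 ≤ k * (k - 1) := by rw [h2]; exact Nat.div_mul_le_self _ _
    have h4 : k * (k - 1) ≤ k * k := Nat.mul_le_mul_left _ (Nat.sub_le _ _)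
    have h5 : ((k.choose 2 : ℕ) : ℝ) * 2 ≤ (k : ℝ) * k := by exact_mod_cast h3.trans h4
    nlinarith
  have hfin : 3 * ((k.choose 2 : ℕ) : ℝ) * (δ * ∏ i, n i) ≤ (k : ℝ) ^ 2 / √z * ∏ i, n i := by
    have e1 : (k : ℝ) ^ 2 / √z * ∏ i, n i = 2 * (k : ℝ) ^ 2 * (δ * ∏ i, n i) := by
      rw [hδ]
      rcases eq_or_ne (√(z : ℝ)) 0 with h | h
      · rw [h]; simp
      · field_simp
    rw [e1]
    apply mul_le_mul_of_nonneg_right _ (mul_nonneg hδ0 hprod)
    have : (0 : ℝ) ≤ (k : ℝ) ^ 2 := by positivity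
    linarith
  have e2 : (N.card : ℝ) - (1 / 2) ^ (k.choose 2) * ∏ i, ((A i).card : ℝ) =
      ((N.card : ℝ) - N'.card) + (N'.card - (1 / 2) ^ (k.choose 2) * ∏ i, ((A i).card : ℝ)) := by
    ring
  rw [e2]
  refine (abs_add_le _ _).trans (le_trans ?_ hfin)
  linarith

end Pool.Agent.H482.MR
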