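import Mathlib
import Pool.Agent.H482.MR.M5

/-!
Densities in the classes modulo `4`.
-/

set_option autoImplicit false

open Finset

namespace Pool.Agent.H482.MR

open Pool.Agent.Y855 (TT OP mem_OP NS NS_eq cl cl_pos cls dl dl_eq dl_nonneg dl_le_one OF VP VP_pos
  Bad order_iff)

/-- unions of classes modulo `4 m` -/
theorem class_union (x z m c : ℕ) (hm2 : m % 2 = 1) (hc : c = 1 ∨ c = 3) (S : Finset ℕ)
    (hS : ∀ a ∈ S, a < m ∧ a.Coprime m ∧ ∀ q ∈ m.primeFactors, a % q ≠ 1) (ε u : ℝ)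
    (hNS : ∀ a : ℕ, a.Coprime (4 * m) → (∀ q ∈ (4 * m).primeFactors, 3 ≤ q → a % q ≠ 1) →
      |((NS x (4 * m) a (OP z)).card : ℝ) - u| ≤ ε * u) :
    |(((Tf x z c).filter (fun p => p % m ∈ S)).card : ℝ) - S.card * u| ≤ S.card * (ε * u) := by
  classical
  have co : Nat.Coprime 4 m := by
    have h : Nat.Coprime (2 ^ 2) m := Nat.Coprime.pow_left 2 (by
      rw [Nat.coprime_two_left, Nat.odd_iff]; exact hm2)
    simpa using h
  have hm0 : 0 < m := by omega
  have e : (Tf x z c).filter (fun p => p % m ∈ S) = S.biUnion (fun a =>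
      NS x (4 * m) (Nat.chineseRemainder co c a : ℕ) (OP z)) := by
    ext p
    rw [mem_filter, mem_biUnion]
    unfold Tf
    rw [mem_filter]
    constructor
    · rintro ⟨⟨h1, h2⟩, h3⟩
      refine ⟨p % m, h3, ?_⟩
      rw [NS_eq, mem_filter]
      refine ⟨h1, ?_⟩
      have h4 := (Nat.chineseRemainder co c (p % m)).2
      rw [← Nat.modEq_and_modEq_iff_modEq_mul co]
      constructor
      · refine Nat.ModEq.trans ?_ h4.1.symm
        unfold Nat.ModEq
        rw [h2]
        rcases hc with rfl | rfl <;> rfl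
      · refine Nat.ModEq.trans ?_ h4.2.symm
        unfold Nat.ModEq
        rw [Nat.mod_mod]
    · rintro ⟨a, ha, h1⟩
      rw [NS_eq, mem_filter, ← Nat.modEq_and_modEq_iff_modEq_mul co] at h1
      have h4 := (Nat.chineseRemainder co c a).2
      have h5 := h1.2.1.trans h4.1
      have h6 := h1.2.2.trans h4.2
      unfold Nat.ModEq at h5 h6
      refine ⟨⟨h1.1, ?_⟩, ?_⟩
      · rw [h5]
        rcases hc with rfl | rfl <;> rfl
      · rw [h6, Nat.mod_eq_of_lt (hS a ha).1]
        exact ha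
  rw [e, card_biUnion]
  · push_cast
    rw [← nsmul_eq_mul S.card u, ← sum_const, ← sum_sub_distrib]
    refine (abs_sum_le_sum_abs _ _).trans ?_
    rw [← nsmul_eq_mul, ← sum_const]
    apply sum_le_sum
    intro a ha
    have h4 := (Nat.chineseRemainder co c a).2
    have h5 := h4.1
    have h6 := h4.2
    set b : ℕ := (Nat.chineseRemainder co c a : ℕ) with hb
    apply hNS
    · have g1 : b.Coprime 4 := by
        have : Nat.gcd b 4 = Nat.gcd c 4 := h5.gcd_eq
        rw [Nat.Coprime, this]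
        rcases hc with rfl | rfl <;> rfl
      have g2 : b.Coprime m := by
        have : Nat.gcd b m = Nat.gcd a m := h6.gcd_eq
        rw [Nat.Coprime, this]
        exact (hS a ha).2.1
      exact g1.mul_right g2
    · intro q hq hq3
      have hqp := Nat.prime_of_mem_primeFactors hq
      have hqd := Nat.dvd_of_mem_primeFactors hq
      have hqm : q ∣ m := by
        rcases (Nat.Prime.dvd_mul hqp).1 hqd with h | h
        · have h7 : q ∣ 2 ^ 2 := by simpa using h
          have h8 := Nat.le_of_dvd (by norm_num) (hqp.dvd_of_dvd_pow h7)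
          omega
        · exact h
      have h7 := h6.of_dvd hqm
      unfold Nat.ModEq at h7
      rw [h7]
      exact (hS a ha).2.2 q (Nat.mem_primeFactors.2 ⟨hqp, hqm, hm0.ne'⟩)
  · intro a ha b hb hab
    rw [Function.onFun, disjoint_left]
    intro p hp hq
    rw [NS_eq, mem_filter, ← Nat.modEq_and_modEq_iff_modEq_mul co] at hp hq
    have h1 := hp.2.2.trans (Nat.chineseRemainder co c a).2.2
    have h2 := hq.2.2.trans (Nat.chineseRemainder co c b).2.2
    have h3 := h1.symm.trans h2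
    unfold Nat.ModEq at h3
    rw [Nat.mod_eq_of_lt (hS a ha).1, Nat.mod_eq_of_lt (hS b hb).1] at h3
    exact hab h3

theorem OF_four_mul (m : ℕ) (hm : Squarefree m) (hm3 : ∀ q ∈ m.primeFactors, 3 ≤ q) :
    OF (4 * m) = m.primeFactors := by
  unfold OF
  have hm0 : m ≠ 0 := hm.ne_zero
  ext q
  rw [mem_filter, Nat.mem_primeFactors, Nat.mem_primeFactors]
  constructor
  · rintro ⟨⟨h1, h2, _⟩, h3⟩
    refine ⟨h1, ?_, hm0⟩
    rcases (Nat.Prime.dvd_mul h1).1 h2 with h | h
    · have h7 : q ∣ 2 ^ 2 := by simpa using h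
      have h8 := Nat.le_of_dvd (by norm_num) (h1.dvd_of_dvd_pow h7)
      omega
    · exact h
  · rintro ⟨h1, h2, h3⟩
    exact ⟨⟨h1, h2.mul_left _, by omega⟩, hm3 q (Nat.mem_primeFactors.2 ⟨h1, h2, h3⟩)⟩

theorem odd_of_three (m : ℕ) (hm : Squarefree m) (hm3 : ∀ q ∈ m.primeFactors, 3 ≤ q) :
    m % 2 = 1 := by
  by_contra h
  have h2 : 2 ∣ m := by omega
  have := hm3 2 (Nat.mem_primeFactors.2 ⟨Nat.prime_two, h2, hm.ne_zero⟩)
  omega

theorem totient_four_mul (m : ℕ) (hm2 : m % 2 = 1) : Nat.totient (4 * m) = 2 * Nat.totient m := by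
  have co : Nat.Coprime 4 m := by
    have h : Nat.Coprime (2 ^ 2) m := Nat.Coprime.pow_left 2 (by
      rw [Nat.coprime_two_left, Nat.odd_iff]; exact hm2)
    simpa using h
  rw [Nat.totient_mul co]
  have : Nat.totient 4 = 2 := by decide
  rw [this]

theorem cls_cl (m : ℕ) (hm : Squarefree m) (hm3 : ∀ q ∈ m.primeFactors, 3 ≤ q) :
    ((cls m).card : ℝ) * cl (4 * m) = dl m / 2 := by
  have hm2 := odd_of_three m hm hm3
  have h1 := dl_eq m hm hm3 m.primeFactors (Subset.refl _)
  rw [sdiff_self] at h1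
  have h2 : VP (∅ : Finset ℕ) = 1 := by unfold VP; rw [prod_empty]
  rw [show (⊥ : Finset ℕ) = ∅ from rfl, h2, mul_one] at h1
  unfold cl
  rw [OF_four_mul m hm hm3, totient_four_mul m hm2]
  have h3 := VP_pos m.primeFactors hm3
  have h4 : (0 : ℝ) < Nat.totient m := by
    exact_mod_cast Nat.totient_pos.2 (Nat.pos_of_ne_zero hm.ne_zero)
  push_cast
  have key : ∀ C φ V d : ℝ, 0 < φ → 0 < V → C * (1 / φ) = d * V → C * (1 / (2 * φ * V)) = d / 2 := by
    intro C φ V d hφ hV h
    have h5 : C * (1 / (2 * φ * V)) = (C * (1 / φ)) / (2 * V) := by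
      field_simp
    rw [h5, h]
    field_simp
  exact key _ _ _ _ h4 h3 h1

open Classical in
/-- the primes of the class `c` with the primitive root `n` -/
theorem class_root (x z c H : ℕ) (hc : c = 1 ∨ c = 3) (n D k : ℤ) (hn : n = D * k ^ 2)
    (hD : Squarefree D) (hD4 : D % 4 = 1) (hn0 : n ≠ 0) (hnH : n.natAbs ≤ H) (hH2 : 2 ≤ H)
    (hnz : n.natAbs ≤ z) (t ε : ℝ) (ht : 0 ≤ t) (hε : 0 ≤ ε) (hε1 : ε ≤ 1 / 2)
    (hNS : ∀ m a : ℕ, m ≤ 4 * n.natAbs → 1 ≤ m → a.Coprime m →
      (∀ q ∈ m.primeFactors, 3 ≤ q → a % q ≠ 1) →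
      |((NS x m a (OP z)).card : ℝ) - cl m * t| ≤ ε * (cl m * t)) :
    |(((Tf x z c).filter (fun p => orderOf (n : ZMod p) = p - 1)).card : ℝ) -
      dl D.natAbs * (Tf x z c).card| ≤ H + (Bad n x z H).card + 4 * ε * (Tf x z c).card := by
  have hm : Squarefree D.natAbs := Int.squarefree_natAbs.2 hD
  set m := D.natAbs with hmD
  have hm0 : 0 < m := Nat.pos_of_ne_zero hm.ne_zero
  have hDn : D ∣ n := ⟨k ^ 2, hn⟩
  have hmn : m ≤ n.natAbs := Nat.le_of_dvd (Int.natAbs_pos.2 hn0) (Int.natAbs_dvd_natAbs.2 hDn)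
  have hm3 : ∀ q ∈ m.primeFactors, 3 ≤ q := by
    intro q hq
    have hqp := Nat.prime_of_mem_primeFactors hq
    have hqm := Nat.dvd_of_mem_primeFactors hq
    by_contra h
    have h2 : q = 2 := by have := hqp.two_le; omega
    rw [h2, hmD] at hqm
    have : (2 : ℤ) ∣ D := Int.natCast_dvd.2 hqm
    omega
  have hm2 := odd_of_three m hm hm3
  have hdl0 := dl_nonneg m hm hm3
  have hdl1 := dl_le_one m hm3
  -- the whole class
  have hT : |((Tf x z c).card : ℝ) - t / 2| ≤ ε * (t / 2) := by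
    have h1 := hNS 4 c (by have := Int.natAbs_pos.2 hn0; omega) (by norm_num)
      (by rcases hc with rfl | rfl <;> decide) (by
        intro q hq h3
        have hqp := Nat.prime_of_mem_primeFactors hq
        have h7 : q ∣ 2 ^ 2 := by simpa using Nat.dvd_of_mem_primeFactors hq
        have h8 := Nat.le_of_dvd (by norm_num) (hqp.dvd_of_dvd_pow h7)
        omega)
    rw [Pool.Agent.Y855.cl4, NS_eq] at h1
    have e : (TT x z).filter (fun p => p ≡ c [MOD 4]) = Tf x z c := by
      unfold Tf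
      apply filter_congr
      intro p _
      unfold Nat.ModEq
      rcases hc with rfl | rfl <;> rfl
    rw [e] at h1
    have e2 : (1 / 2 : ℝ) * t = t / 2 := by ring
    rw [e2] at h1
    exact h1
  -- the symbol
  set W := (Tf x z c).filter (fun p : ℕ => jacobiSym (p : ℤ) m = -1) with hW
  have hWeq : W = (Tf x z c).filter (fun p => p % m ∈ cls m) := by
    rw [hW]
    apply filter_congr
    intro p hp
    unfold Tf at hp
    rw [mem_filter] at hp
    have hpT := mem_TT.1 hp.1
    have hj : jacobiSym (p : ℤ) m = jacobiSym ((p % m : ℕ) : ℤ) m := by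
      rw [jacobiSym.mod_left (p : ℤ) m]
      push_cast
      rfl
    unfold cls
    rw [mem_filter, mem_range, ← hj]
    constructor
    · intro h
      refine ⟨Nat.mod_lt _ hm0, ?_, h⟩
      intro q hq
      have hqp := Nat.prime_of_mem_primeFactors hq
      have hqm := Nat.dvd_of_mem_primeFactors hq
      rw [Nat.mod_mod_of_dvd p hqm]
      rintro (h' | h')
      · have h1 : q ∣ p := Nat.dvd_of_mod_eq_zero h'
        have h2 : jacobiSym (p : ℤ) m = 0 := by
          rw [jacobiSym.eq_zero_iff]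
          refine ⟨hm0.ne', ?_⟩
          intro h3
          rw [Int.gcd_natCast_natCast] at h3
          have := Nat.dvd_gcd h1 hqm
          rw [h3] at this
          exact hqp.one_lt.ne' (Nat.dvd_one.1 this)
        rw [h2] at h
        norm_num at h
      · apply hpT.2.2 q (mem_OP.2 ⟨hqp, hm3 q hq,
          (Nat.le_of_dvd hm0 hqm).trans (hmn.trans hnz)⟩)
        exact (Nat.modEq_iff_dvd' hpT.1.1).1 (by
          unfold Nat.ModEq
          rw [h', Nat.mod_eq_of_lt hqp.one_lt])
    · exact fun h => h.2.2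
  have hWc : |(W.card : ℝ) - dl m / 2 * t| ≤ dl m / 2 * (ε * t) := by
    have h1 := class_union x z m c hm2 hc (cls m) (by
      intro a ha
      unfold cls at ha
      rw [mem_filter, mem_range] at ha
      refine ⟨ha.1, ?_, fun q hq h => ha.2.1 q hq (Or.inr h)⟩
      by_contra hcon
      obtain ⟨q, hq, hqd⟩ := Nat.exists_prime_and_dvd hcon
      have h5 := (Nat.dvd_gcd_iff.1 hqd).1
      have h6 := (Nat.dvd_gcd_iff.1 hqd).2
      exact ha.2.1 q (Nat.mem_primeFactors.2 ⟨hq, h6, hm0.ne'⟩)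
        (Or.inl (Nat.mod_eq_zero_of_dvd h5))) ε (cl (4 * m) * t)
      (fun a h1 h2 => hNS (4 * m) a (by omega) (by omega) h1 h2)
    rw [← hWeq] at h1
    have e := cls_cl m hm hm3
    have e1 : ((cls m).card : ℝ) * (cl (4 * m) * t) = dl m / 2 * t := by rw [← e]; ring
    have e2 : ((cls m).card : ℝ) * (ε * (cl (4 * m) * t)) = dl m / 2 * (ε * t) := by
      rw [← e]; ring
    rwa [e1, e2] at h1
  -- comparison
  set R := (Tf x z c).filter (fun p => orderOf (n : ZMod p) = p - 1) with hR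
  have hnd : ∀ p : ℕ, H < p → ¬ (p : ℤ) ∣ n := by
    intro p hp h
    have := Nat.le_of_dvd (Int.natAbs_pos.2 hn0) (Int.natCast_dvd.1 h)
    omega
  have c1 : R ⊆ W ∪ Icc 1 H := by
    intro p hp
    rw [hR, mem_filter] at hp
    have hp' := hp.1
    unfold Tf at hp'
    rw [mem_filter] at hp'
    have hpT := mem_TT.1 hp'.1
    rw [mem_union]
    rcases Nat.lt_or_ge H p with h | h
    · left
      rw [hW, mem_filter]
      exact ⟨hp.1, ((order_iff n D k hn hD4 p hpT.2.1 (by omega) (hnd p h)).1 hp.2).1⟩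
    · right
      rw [mem_Icc]
      exact ⟨hpT.1.1, h⟩
  have c2 : W ⊆ R ∪ (Icc 1 H ∪ Bad n x z H) := by
    intro p hp
    rw [hW, mem_filter] at hp
    have hp' := hp.1
    unfold Tf at hp'
    rw [mem_filter] at hp'
    have hpT := mem_TT.1 hp'.1
    rw [mem_union, mem_union]
    rcases Nat.lt_or_ge H p with h | h
    · by_cases hb : ∃ l : ℕ, l.Prime ∧ 3 ≤ l ∧ l ∣ p - 1 ∧ (n : ZMod p) ^ ((p - 1) / l) = 1
      · right; right
        unfold Bad
        rw [mem_filter]
        exact ⟨hp'.1, h, hb⟩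
      · left
        rw [hR, mem_filter]
        exact ⟨hp.1, (order_iff n D k hn hD4 p hpT.2.1 (by omega) (hnd p h)).2 ⟨hp.2, hb⟩⟩
    · right; left
      rw [mem_Icc]
      exact ⟨hpT.1.1, h⟩
  have c3 := (card_le_card c1).trans (card_union_le _ _)
  have c4 := (card_le_card c2).trans ((card_union_le _ _).trans
    (Nat.add_le_add_left (card_union_le _ _) _))
  rw [Nat.card_Icc] at c3 c4
  have c3' : (R.card : ℝ) ≤ W.card + H := by
    have : R.card ≤ W.card + H := by omega
    exact_mod_cast this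
  have c4' : (W.card : ℝ) ≤ R.card + (H + (Bad n x z H).card) := by
    have : W.card ≤ R.card + (H + (Bad n x z H).card) := by omega
    exact_mod_cast this
  have h0 : (0 : ℝ) ≤ (Bad n x z H).card := Nat.cast_nonneg _
  have h1 : |(R.card : ℝ) - W.card| ≤ H + (Bad n x z H).card := by
    rw [abs_le]
    constructor <;> linarith
  set T : ℝ := ((Tf x z c).card : ℝ) with hTdef
  have hT1 := abs_le.1 hT
  have hT2 : t / 2 ≤ 2 * T := by
    have : ε * (t / 2) ≤ 1 / 2 * (t / 2) := mul_le_mul_of_nonneg_right hε1 (by linarith)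
    linarith
  have h2 : |(W.card : ℝ) - dl m * T| ≤ 4 * ε * T := by
    have e : (W.card : ℝ) - dl m * T = ((W.card : ℝ) - dl m / 2 * t) - dl m * (T - t / 2) := by ring
    rw [e]
    refine (abs_sub _ _).trans ?_
    rw [abs_mul, abs_of_nonneg hdl0]
    have g1 : dl m / 2 * (ε * t) ≤ 1 / 2 * (ε * t) :=
      mul_le_mul_of_nonneg_right (by linarith) (by positivity)
    have g2 : dl m * |T - t / 2| ≤ 1 * (ε * (t / 2)) :=
      mul_le_mul hdl1 hT (abs_nonneg _) (by norm_num)
    have g3 : ε * (t / 2) ≤ ε * (2 * T) := mul_le_mul_of_nonneg_left hT2 hε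
    linarith
  have e : (R.card : ℝ) - dl m * T = ((R.card : ℝ) - W.card) + (W.card - dl m * T) := by ring
  rw [e]
  exact (abs_add_le _ _).trans (add_le_add h1 h2)

end Pool.Agent.H482.MR
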