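import Mathlib
import Pool.Graph.R_seed8.Y855.A18

/-!
All but a bounded number of independent bases are almost never power residues of odd order.
-/

set_option autoImplicit false

open Finset

namespace Pool.Agent.H482.MR

open Pool.Agent.Y855

open Pool.Agent.H442R2.KF

theorem bad_set (B : ℕ) (ε : ℝ) (hε : 0 < ε) : ∃ K : ℝ, 1 ≤ K ∧ ∃ x₀ : ℕ, 3 ≤ x₀ ∧ ∀ x : ℕ, x₀ ≤ x →
    ∀ z : ℕ, K * (Real.log x * Real.log (Real.log x)) ≤ (Real.log z) ^ 2 → (z : ℝ) ^ K ≤ x →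
    ∀ M : Finset ℤ, (∀ n ∈ M, n ≠ 0 ∧ |(n : ℝ)| ≤ (Real.log x) ^ B) → MI M →
    ∃ E ⊆ M, (E.card : ℝ) ≤ K * (Real.log x / Real.log z) ∧ ∀ n ∈ M \ E, ∃ H : ℕ, 2 ≤ H ∧
      n.natAbs ≤ H ∧ (H : ℝ) ≤ ε / 4 * (TT x z).card ∧
      ((Bad n x z H).card : ℝ) ≤ ε / 4 * (TT x z).card := by
  classical
  obtain ⟨ε₁, hε₁⟩ : ∃ ε₁ : ℝ, ε₁ = min ε 1 / 20 := ⟨_, rfl⟩
  have hmin : 0 < min ε 1 := lt_min hε one_pos
  have hε₁0 : 0 < ε₁ := by rw [hε₁]; positivity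
  have hε₁1 : ε₁ ≤ 1 / 20 := by
    rw [hε₁]
    have := min_le_right ε 1
    linarith
  have hε₁ε : 20 * ε₁ ≤ ε := by
    rw [hε₁]
    have := min_le_left ε 1
    linarith
  obtain ⟨B₁, hB₁, hasy⟩ := asymp ε₁ hε₁0
  obtain ⟨CS, hCS, hSL⟩ := SL_bound
  obtain ⟨cV, hcV, hV⟩ := VP_lower
  obtain ⟨Xπ, hXπ3, hπ⟩ := piN_ge
  obtain ⟨CB, hCB, hBV⟩ := bvEs (B + 1 + 5)
  obtain ⟨C₁, hC₁⟩ : ∃ C₁ : ℝ, C₁ = 30 + 2 * CS := ⟨_, rfl⟩
  have hC₁0 : 0 < C₁ := by rw [hC₁]; linarith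
  obtain ⟨K, hK⟩ : ∃ K : ℝ, K = 7 * B₁ + 36 * (B + 1) + 4 / cV + 4 * C₁ / ε := ⟨_, rfl⟩
  have hB₁r : (1 : ℝ) ≤ B₁ := by exact_mod_cast hB₁
  have hBr : (0 : ℝ) ≤ B := Nat.cast_nonneg B
  have hp1 : 0 < 4 / cV := by positivity
  have hp2 : 0 < 4 * C₁ / ε := by positivity
  have hKa : 7 * (B₁ : ℝ) ≤ K := by rw [hK]; linarith
  have hKb : 36 * ((B : ℝ) + 1) ≤ K := by rw [hK]; linarith
  have hKc : 4 / cV ≤ K := by rw [hK]; linarith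
  have hKd : 4 * C₁ / ε ≤ K := by rw [hK]; linarith
  have hK1 : 1 ≤ K := by linarith
  obtain ⟨Q₀, hQ₀⟩ : ∃ Q₀ : ℝ, Q₀ = 54 / cV + 6 / (ε₁ * cV) + 2 := ⟨_, rfl⟩
  have hp3 : 0 < 54 / cV := by positivity
  have hp4 : 0 < 6 / (ε₁ * cV) := by positivity
  have hQ1 : 1 ≤ Q₀ := by rw [hQ₀]; linarith
  have hQa : 54 / cV ≤ Q₀ := by rw [hQ₀]; linarith
  have hQb : 6 / (ε₁ * cV) ≤ Q₀ := by rw [hQ₀]; linarith
  obtain ⟨L₀, hL₀⟩ := ev_exp (B + 3) Q₀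
  obtain ⟨L₁, hL₁⟩ : ∃ L₁ : ℝ, L₁ = max (max L₀ 120) (24 * CB / (cV * ε₁) + 1) := ⟨_, rfl⟩
  refine ⟨K, hK1, max Xπ ⌈Real.exp L₁⌉₊, le_max_of_le_left hXπ3, ?_⟩
  intro x hx z hKL hzK M hM0 hMI
  have hxXπ : Xπ ≤ x := (le_max_left _ _).trans hx
  have hx3 : 3 ≤ x := hXπ3.trans hxXπ
  have hx3r : (3 : ℝ) ≤ x := by exact_mod_cast hx3
  have hx0 : (0 : ℝ) < x := by linarith
  obtain ⟨L, hL⟩ : ∃ L : ℝ, L = Real.log x := ⟨_, rfl⟩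
  have hLL₁ : L₁ ≤ L := by
    rw [hL, Real.le_log_iff_exp_le hx0]
    have h1 := Nat.le_ceil (Real.exp L₁)
    have h2 : ((⌈Real.exp L₁⌉₊ : ℕ) : ℝ) ≤ x := by exact_mod_cast (le_max_right _ _).trans hx
    linarith
  have hL120 : 120 ≤ L := by
    rw [hL₁] at hLL₁
    exact ((le_max_right _ _).trans (le_max_left _ _)).trans hLL₁
  have hLL₀ : L₀ ≤ L := by
    rw [hL₁] at hLL₁
    exact ((le_max_left _ _).trans (le_max_left _ _)).trans hLL₁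
  have hLc : 24 * CB / (cV * ε₁) ≤ L := by
    rw [hL₁] at hLL₁
    have := (le_max_right _ _).trans hLL₁
    linarith
  have hexp := hL₀ L hLL₀
  obtain ⟨ℓ, hℓ⟩ : ∃ ℓ : ℝ, ℓ = Real.log z := ⟨_, rfl⟩
  have S : Sz B K B₁ x z L ℓ := by
    rw [hℓ]
    exact sz B K B₁ hK1 hKa Q₀ hQ1 x z L hL hL120 hx3 hexp hKL hzK
  rw [← hL, ← hℓ]
  have hL0 : 0 < L := by linarith
  have hL1 : 1 ≤ L := by linarith
  have hℓ0 : 0 < ℓ := by linarith [S.hℓ1]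
  have hXL : Real.exp L = x := by rw [hL]; exact Real.exp_log hx0
  obtain ⟨PV, hPV⟩ : ∃ PV : ℝ, PV = piN x * VP (OP z) := ⟨_, rfl⟩
  obtain ⟨hPVlow, hPVlow2⟩ := PV_low cV hcV x z L ℓ PV hL0 hℓ0 S.hℓL hPV
    (by rw [hL]; exact hπ x hxXπ) (by rw [hℓ]; exact hV z S.hz2)
  have hPV0 : 0 < PV := lt_of_lt_of_le (by positivity) hPVlow2
  obtain ⟨SQ, hSQ⟩ : ∃ SQ : ℝ, SQ = ∑ d ∈ Icc 1 ⌊(x : ℝ) ^ (2 / 5 : ℝ)⌋₊, Es x d := ⟨_, rfl⟩
  have hBVx : SQ ≤ CB * (x / L ^ (B + 1 + 5)) := by rw [hSQ, hL]; exact hBV x hx3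
  have hSQ0 : 0 ≤ SQ := by rw [hSQ]; exact sum_nonneg fun d _ => Es_nonneg x d
  have herr2 := err_gen (B + 1) cV CB ε₁ hcV hε₁0 x L PV SQ hx0 hL1 hBVx hPVlow2 hLc
  have herr : L ^ (B + 1) * (12 * SQ) ≤ ε₁ * PV := by
    refine le_trans ?_ herr2
    apply mul_le_mul_of_nonneg_right _ (by positivity)
    exact pow_le_pow_right₀ hL1 (by omega)
  have hsm := small_gen2 B cV Q₀ ε₁ hcV hε₁0 hQb x L PV hx0 hL1 hXL hexp hPVlow2
  have hExc2 := small_gen B cV Q₀ hcV hQa x L ℓ PV hx0 hL1 S.hsq hexp hPVlow2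
  obtain ⟨w, hw⟩ : ∃ w : ℕ, w = Nat.sqrt (Nat.sqrt x) := ⟨_, rfl⟩
  obtain ⟨hw1, hw2, hx14⟩ := x_facts x hx3 w hw
  have hsubsum : ∀ a : ℕ, (a : ℝ) ≤ (x : ℝ) ^ (1 / 4 : ℝ) →
      ∑ d ∈ Icc 1 (a * z ^ B₁), Es x d ≤ SQ := by
    intro a ha
    rw [hSQ]
    apply sum_le_sum_of_subset_of_nonneg
    · apply Icc_subset_Icc_right
      apply Nat.le_floor
      push_cast
      calc (a : ℝ) * (z : ℝ) ^ B₁ ≤ (x : ℝ) ^ (1 / 4 : ℝ) * (x : ℝ) ^ (1 / 7 : ℝ) :=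
            mul_le_mul ha S.hzB (by positivity) (by positivity)
        _ = (x : ℝ) ^ (1 / 4 + 1 / 7 : ℝ) := (Real.rpow_add hx0 _ _).symm
        _ ≤ (x : ℝ) ^ (2 / 5 : ℝ) :=
            Real.rpow_le_rpow_of_exponent_le (by linarith) (by norm_num)
    · intro d _ _
      exact Es_nonneg x d
  have hlog2 := log2_le z S.hz2 L (by rw [← hℓ]; exact S.hℓL) hL120
  have hlog20 : (0 : ℝ) ≤ (Nat.log 2 z : ℝ) + 2 := by positivity
  have hpowB1 : L ≤ L ^ (B + 1) := le_self_pow₀ hL1 (by omega)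
  obtain ⟨hT, hTQ, hNS⟩ := hasy z S.hz2 x
  rw [← hPV] at hT
  obtain ⟨t, ht⟩ : ∃ t : ℝ, t = ((TT x z).card : ℝ) := ⟨_, rfl⟩
  rw [← ht] at hT ⊢
  have hET : ((Nat.log 2 z : ℝ) + 2) * ∑ d ∈ Icc 1 (z ^ B₁), Es x d ≤ ε₁ * PV := by
    have h1 := hsubsum 1 (by rw [Nat.cast_one]; exact hx14)
    rw [one_mul] at h1
    have h2 : ((Nat.log 2 z : ℝ) + 2) * ∑ d ∈ Icc 1 (z ^ B₁), Es x d ≤ (4 * L) * SQ :=
      mul_le_mul hlog2 h1 (sum_nonneg fun d _ => Es_nonneg x d) (by positivity)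
    have h3 : (4 * L) * SQ ≤ L ^ (B + 1) * (12 * SQ) := by
      have h4 : L * (12 * SQ) ≤ L ^ (B + 1) * (12 * SQ) :=
        mul_le_mul_of_nonneg_right hpowB1 (by positivity)
      have h5 : 0 ≤ L * SQ := by positivity
      linarith
    linarith
  have hT' : |t - PV| ≤ 2 * ε₁ * PV := by linarith
  have hT1 := abs_le.1 hT'
  have hεPV : ε₁ * PV ≤ 1 / 20 * PV := mul_le_mul_of_nonneg_right hε₁1 hPV0.le
  have htPV : PV ≤ 2 * t := by linarith [hT1.1]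
  have htPV2 : t ≤ 2 * PV := by linarith [hT1.2]
  have ht0 : 0 < t := by linarith
  have hratio : 1 ≤ L / ℓ := by rw [le_div_iff₀ hℓ0]; linarith [S.hℓL]
  have hratio0 : 0 ≤ L / ℓ := by linarith
  -- the bad sum
  obtain ⟨H, hH⟩ : ∃ H : ℕ, H = ⌊L ^ B⌋₊ + 2 := ⟨_, rfl⟩
  have hLB1 : 1 ≤ L ^ B := one_le_pow₀ hL1
  have hHr : (H : ℝ) ≤ 3 * L ^ B := by
    rw [hH]; push_cast
    have := Nat.floor_le (by positivity : 0 ≤ L ^ B)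
    linarith
  have hH1 : 1 ≤ H := by omega
  have hH2 : 2 ≤ H := by omega
  have hM0' : ∀ n ∈ M, n ≠ 0 := fun n hn => (hM0 n hn).1
  have hnatr : ∀ n ∈ M, (n.natAbs : ℝ) ≤ L ^ B := by
    intro n hn
    have h1 := (hM0 n hn).2
    rw [Nat.cast_natAbs, Int.cast_abs, hL]
    exact h1
  have hMH : ∀ n ∈ M, n.natAbs ≤ H := by
    intro n hn
    have h2 : n.natAbs ≤ ⌊L ^ B⌋₊ := Nat.le_floor (hnatr n hn)
    omega
  obtain ⟨R, hR⟩ : ∃ R : ℕ, R = ⌈2 * (L / ℓ)⌉₊ := ⟨_, rfl⟩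
  have hRa : 2 * (L / ℓ) ≤ R := by rw [hR]; exact Nat.le_ceil _
  have hRb : (R : ℝ) ≤ 3 * (L / ℓ) := by
    have h1 := Nat.ceil_lt_add_one (show 0 ≤ 2 * (L / ℓ) by positivity)
    rw [← hR] at h1
    linarith
  have hR1 : 1 ≤ R := by
    have : (0 : ℝ) < R := by linarith
    exact_mod_cast this
  have hRz : x ^ 2 ≤ z ^ R := by
    have hz2 : (2 : ℝ) ≤ z := by exact_mod_cast S.hz2
    have h1 : ((x : ℝ)) ^ 2 ≤ (z : ℝ) ^ R := by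
      rw [← Real.log_le_log_iff (by positivity) (by positivity), Real.log_pow, Real.log_pow,
        ← hL, ← hℓ]
      push_cast
      have h2 : 2 * (L / ℓ) * ℓ ≤ R * ℓ := mul_le_mul_of_nonneg_right hRa hℓ0.le
      have h3 : 2 * (L / ℓ) * ℓ = 2 * L := by field_simp
      linarith
    exact_mod_cast h1
  have hbad := bad_sum M x z R H hx3 S.hz2 hRz hM0' hMH
  rw [← hL] at hbad
  have hSLb := hSL B₁ z x w S.hz2 hx3 hw1 (by
    intro l hl hzl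
    have h1 := hNS l hl hzl
    refine h1.trans (add_le_add ?_ le_rfl)
    have hl2 : (2 : ℝ) ≤ l := by exact_mod_cast hl.two_le
    have h2 : 0 ≤ (piN x : ℝ) / ((l : ℝ) - 1) := div_nonneg (Nat.cast_nonneg _) (by linarith)
    have h3 : 0 < VP (OP z) := VP_pos _ fun q hq => (mem_OP.1 hq).2.1
    apply mul_le_mul_of_nonneg_right _ (mul_nonneg h2 h3.le)
    linarith)
  rw [← hPV, ← ht, ← hL, ← hℓ] at hSLb
  have herr3 : 3 * L * (((Nat.log 2 z : ℝ) + 2) * ∑ d ∈ Icc 1 (w * z ^ B₁), Es x d) ≤ ε₁ * PV := by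
    have h1 := hsubsum w hw2
    have h2 : ((Nat.log 2 z : ℝ) + 2) * ∑ d ∈ Icc 1 (w * z ^ B₁), Es x d ≤ (4 * L) * SQ :=
      mul_le_mul hlog2 h1 (sum_nonneg fun d _ => Es_nonneg x d) (by positivity)
    have h5 : 3 * L * (((Nat.log 2 z : ℝ) + 2) * ∑ d ∈ Icc 1 (w * z ^ B₁), Es x d) ≤
        3 * L * ((4 * L) * SQ) := mul_le_mul_of_nonneg_left h2 (by positivity)
    have h6 : 3 * L * ((4 * L) * SQ) = L ^ 2 * (12 * SQ) := by ring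
    have h7 : L ^ 2 * (12 * SQ) ≤ L ^ (B + 1 + 1) * (12 * SQ) := by
      apply mul_le_mul_of_nonneg_right _ (by positivity)
      exact pow_le_pow_right₀ hL1 (by omega)
    linarith
  have hExc := Exc_total B x z R H M L ℓ K hL hℓ (by omega) hKb S.hKL S.hℓL hL120 S.hℓ1 hR1 hRb
    hH1 hHr hM0' hMI hMH
  have hsumbad : ∑ n ∈ M, ((Bad n x z H).card : ℝ) ≤ C₁ * t * (L / ℓ) := by
    have h1 : CS * PV * (L / ℓ) ≤ CS * (2 * t) * (L / ℓ) := by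
      apply mul_le_mul_of_nonneg_right _ hratio0
      exact mul_le_mul_of_nonneg_left htPV hCS.le
    have h2 : t ≤ t * (L / ℓ) := le_mul_of_one_le_right ht0.le hratio
    have h3 : ∑ n ∈ M, ((Bad n x z H).card : ℝ) ≤
        24 * t + CS * (2 * t) * (L / ℓ) + ε₁ * PV + PV := by linarith
    have h4 : C₁ * t * (L / ℓ) = 30 * (t * (L / ℓ)) + CS * (2 * t) * (L / ℓ) := by
      rw [hC₁]; ring
    rw [h4]
    linarith
  -- the exceptional bases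
  refine ⟨M.filter (fun n => ε / 4 * t < ((Bad n x z H).card : ℝ)), filter_subset _ _, ?_, ?_⟩
  · have h1 : ((M.filter (fun n => ε / 4 * t < ((Bad n x z H).card : ℝ))).card : ℝ) *
        (ε / 4 * t) ≤ C₁ * t * (L / ℓ) := by
      refine le_trans ?_ hsumbad
      rw [← nsmul_eq_mul, ← sum_const]
      calc ∑ _n ∈ M.filter (fun n => ε / 4 * t < ((Bad n x z H).card : ℝ)), ε / 4 * t
          ≤ ∑ n ∈ M.filter (fun n => ε / 4 * t < ((Bad n x z H).card : ℝ)),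
            ((Bad n x z H).card : ℝ) := sum_le_sum fun n hn => (mem_filter.1 hn).2.le
        _ ≤ _ := sum_le_sum_of_subset_of_nonneg (filter_subset _ _)
            fun _ _ _ => Nat.cast_nonneg _
    have h2 : ((M.filter (fun n => ε / 4 * t < ((Bad n x z H).card : ℝ))).card : ℝ) ≤
        4 * C₁ / ε * (L / ℓ) := by
      have h3 : 0 < ε / 4 * t := by positivity
      rw [← mul_le_mul_iff_left₀ h3]
      refine h1.trans (le_of_eq ?_)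
      field_simp
    exact h2.trans (mul_le_mul_of_nonneg_right hKd hratio0)
  · intro n hn
    rw [mem_sdiff, mem_filter] at hn
    have hb : ((Bad n x z H).card : ℝ) ≤ ε / 4 * t := by
      by_contra hcon
      exact hn.2 ⟨hn.1, not_le.1 hcon⟩
    refine ⟨H, hH2, hMH n hn.1, ?_, hb⟩
    have g1 : ε₁ * PV ≤ ε₁ * (2 * t) := mul_le_mul_of_nonneg_left htPV hε₁0.le
    have g2 : 20 * ε₁ * t ≤ ε * t := mul_le_mul_of_nonneg_right hε₁ε ht0.le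
    linarith

end Pool.Agent.H482.MR
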