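import Mathlib
import Pool.Agent.H482.MR.M6
import Pool.Agent.H482.MR.M7

/-!
Assembly: the counts of tuples, the classes modulo `4` and the exceptional bases.
-/

set_option autoImplicit false

open Finset Filter

namespace Pool.Agent.H482.MR

open Pool.Agent.Y855 (TT OP mem_OP NS NS_eq cl cl_pos cls dl MI Bad core)

open Classical in
/-- the number of the tuples with the prescribed relation -/
noncomputable def cnt {k : ℕ} (A : Fin k → Finset ℕ) (s : Fin k → Fin k → Prop) : ℕ :=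
  ((Fintype.piFinset A).filter (fun t => Function.Injective t ∧ ∀ i j : Fin k, i ≠ j →
        (orderOf ((t i : ℕ) : ZMod (t j)) = t j - 1 ↔ s i j))).card

open Classical in
theorem mainA (B : ℕ) (ε : ℝ) (hε : 0 < ε) : ∃ K : ℝ, 10 ≤ K ∧ ∃ x₀ : ℕ, 3 ≤ x₀ ∧
    ∀ x : ℕ, x₀ ≤ x → ∀ z : ℕ, K * (Real.log x * Real.log (Real.log x)) ≤ (Real.log z) ^ 2 →
    (z : ℝ) ^ K ≤ x →
    (∀ c : ℕ, c = 1 ∨ c = 3 → (x : ℝ) / (K * (Real.log x * Real.log z)) ≤ (Tf x z c).card ∧
      ((TT x z).card : ℝ) / 4 ≤ (Tf x z c).card) ∧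
    (∀ (k : ℕ) (c : Fin k → ℕ) (s : Fin k → Fin k → Prop), Cons c s →
      ∀ A : Fin k → Finset ℕ, (∀ i, A i ⊆ Tf x z (c i)) →
      |(cnt A s : ℝ) - (1 / 2) ^ (k.choose 2) * ∏ i, ((A i).card : ℝ)| ≤
        (k : ℝ) ^ 2 / √z * ∏ i, ((Tf x z (c i)).card : ℝ)) ∧
    (∀ m a : ℕ, 1 ≤ m → (m : ℝ) ≤ (Real.log x) ^ (B + 1) → a.Coprime m →
      (∀ q ∈ m.primeFactors, 3 ≤ q → a % q ≠ 1) →
      |((NS x m a (OP z)).card : ℝ) - cl m * (TT x z).card| ≤ min ε 1 / 8 * (cl m * (TT x z).card)) ∧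
    (Real.log x) ^ (B + 1) ≤ z ∧ 4 ≤ Real.log x ∧
    ∀ M : Finset ℤ, (∀ n ∈ M, n ≠ 0 ∧ |(n : ℝ)| ≤ (Real.log x) ^ B) → MI M →
    ∃ E ⊆ M, (E.card : ℝ) ≤ K * (Real.log x / Real.log z) ∧
      (∀ n ∈ M \ E, ∃ H : ℕ, 2 ≤ H ∧ n.natAbs ≤ H ∧ (H : ℝ) ≤ min ε 1 / 32 * (TT x z).card ∧
        ((Bad n x z H).card : ℝ) ≤ min ε 1 / 32 * (TT x z).card) ∧
      ∀ n ∈ M \ E, ∀ D k : ℤ, Squarefree D → D % 4 = 1 → n = D * k ^ 2 →
      ∀ c : ℕ, c = 1 ∨ c = 3 →
      |(((Tf x z c).filter (fun p => orderOf (n : ZMod p) = p - 1)).card : ℝ) -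
        dl D.natAbs * (Tf x z c).card| ≤ ε * (Tf x z c).card := by
  obtain ⟨ε', hε'⟩ : ∃ ε' : ℝ, ε' = min ε 1 / 8 := ⟨_, rfl⟩
  have hmin : 0 < min ε 1 := lt_min hε one_pos
  have hε'0 : 0 < ε' := by rw [hε']; positivity
  have hε'1 : ε' ≤ 1 / 8 := by
    rw [hε']
    have := min_le_right ε 1
    linarith
  have hε'ε : 8 * ε' ≤ ε := by
    rw [hε']
    have := min_le_left ε 1
    linarith
  obtain ⟨K₁, hK₁, x₁, hx₁, H1⟩ := bad_set B ε' hε'0
  obtain ⟨K₂, hK₂, H2⟩ := core ε' hε'0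
  obtain ⟨x₂, hx₂, H2⟩ := H2 (B + 5)
  obtain ⟨x₃, hx₃, H3⟩ := tuples K₂ hK₂
  obtain ⟨K, hK⟩ : ∃ K : ℝ, K = max K₁ (4 * K₂) + 10 := ⟨_, rfl⟩
  have hKK₁ : K₁ ≤ K := by rw [hK]; have := le_max_left K₁ (4 * K₂); linarith
  have hKK₂ : 4 * K₂ ≤ K := by rw [hK]; have := le_max_right K₁ (4 * K₂); linarith
  have hK10 : 10 ≤ K := by rw [hK]; have := le_max_left K₁ (4 * K₂); linarith
  refine ⟨K, hK10, max x₁ (max x₂ x₃), hx₁.trans (le_max_left _ _), fun x hx z hKL hzK => ?_⟩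
  have hxx₁ : x₁ ≤ x := (le_max_left _ _).trans hx
  have hxx₂ : x₂ ≤ x := ((le_max_left _ _).trans (le_max_right _ _)).trans hx
  have hxx₃ : x₃ ≤ x := ((le_max_right _ _).trans (le_max_right _ _)).trans hx
  obtain ⟨h120, H2⟩ := H2 x hxx₂
  have hL0 : 0 < Real.log x := by linarith
  have hLL : 1 ≤ Real.log (Real.log x) := by
    rw [Real.le_log_iff_exp_le hL0]
    have := Real.exp_one_lt_d9
    linarith
  have hKL1 : Real.log x ≤ (Real.log z) ^ 2 := by
    refine le_trans ?_ hKL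
    have h1 : Real.log x * 1 ≤ Real.log x * Real.log (Real.log x) :=
      mul_le_mul_of_nonneg_left hLL hL0.le
    have h2 : 1 * (Real.log x * Real.log (Real.log x)) ≤
        K * (Real.log x * Real.log (Real.log x)) :=
      mul_le_mul_of_nonneg_right (by linarith) (by positivity)
    linarith
  have hz0 : 0 < Real.log z := by
    by_contra hcon
    have h1 : Real.log z = 0 := le_antisymm (not_lt.1 hcon) (Real.log_natCast_nonneg z)
    rw [h1] at hKL1
    norm_num at hKL1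
    linarith
  have hsq : √(Real.log x) ≤ Real.log z := by
    rw [Real.sqrt_le_left hz0.le]
    exact hKL1
  have hz1 : (1 : ℝ) ≤ z := by
    by_contra hcon
    have h1 : z = 0 := by
      by_contra h
      exact hcon (by exact_mod_cast Nat.one_le_iff_ne_zero.2 h)
    rw [h1] at hz0
    simp at hz0
  have hzK₁ : (z : ℝ) ^ K₁ ≤ x := (Real.rpow_le_rpow_of_exponent_le hz1 hKK₁).trans hzK
  have hzK₂ : (z : ℝ) ^ K₂ ≤ x :=
    (Real.rpow_le_rpow_of_exponent_le hz1 (by linarith)).trans hzK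
  have hz10 : (z : ℝ) ^ (10 : ℝ) ≤ x := (Real.rpow_le_rpow_of_exponent_le hz1 hK10).trans hzK
  obtain ⟨hz2, hLBz, ht0, hlow, -, hNS⟩ := H2 z hsq hzK₂
  set t : ℝ := ((TT x z).card : ℝ) with ht
  have hL1 : 1 ≤ Real.log x := by linarith
  have hzL : Real.log z ≤ Real.log x := by
    apply Real.log_le_log (by linarith)
    refine le_trans ?_ hzK
    calc (z : ℝ) = (z : ℝ) ^ (1 : ℝ) := (Real.rpow_one _).symm
      _ ≤ (z : ℝ) ^ K := Real.rpow_le_rpow_of_exponent_le hz1 (by linarith)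
  -- the classes
  have hclass : ∀ c : ℕ, c = 1 ∨ c = 3 → t / 4 ≤ (Tf x z c).card := by
    intro c hc
    have hL4 : (4 : ℝ) ≤ Real.log x ^ (B + 5) := by
      have : Real.log x ≤ Real.log x ^ (B + 5) := le_self_pow₀ hL1 (by omega)
      linarith
    have h1 := hNS 4 c (by norm_num) (by exact_mod_cast hL4)
      (by rcases hc with rfl | rfl <;> decide) (by
        intro q hq h3
        have hqp := Nat.prime_of_mem_primeFactors hq
        have h7 : q ∣ 2 ^ 2 := by simpa using Nat.dvd_of_mem_primeFactors hq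
        have h8 := Nat.le_of_dvd (by norm_num) (hqp.dvd_of_dvd_pow h7)
        omega)
    rw [Pool.Agent.Y855.cl4, NS_eq] at h1
    have e : (TT x z).filter (fun p => p ≡ c [MOD 4]) = Tf x z c := by
      unfold Tf
      apply filter_congr
      intro p _
      unfold Nat.ModEq
      rcases hc with rfl | rfl <;> rfl
    rw [e] at h1
    have h2 := (abs_le.1 h1).1
    have h3 : ε' * (1 / 2 * t) ≤ 1 / 8 * (1 / 2 * t) :=
      mul_le_mul_of_nonneg_right hε'1 (by positivity)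
    linarith
  refine ⟨?_, ?_, ?_, ?_, by linarith, ?_⟩
  · intro c hc
    refine ⟨le_trans ?_ (hclass c hc), hclass c hc⟩
    have h1 : (x : ℝ) / (K * (Real.log x * Real.log z)) ≤
        x / (4 * K₂ * (Real.log x * Real.log z)) := by
      apply div_le_div_of_nonneg_left (Nat.cast_nonneg _) (by positivity)
      exact mul_le_mul_of_nonneg_right hKK₂ (by positivity)
    have h2 : (x : ℝ) / (4 * K₂ * (Real.log x * Real.log z)) =
        x / (K₂ * (Real.log x * Real.log z)) / 4 := by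
      rw [div_div]; congr 1; ring
    linarith
  · have h4 : Real.log x ^ 4 ≤ z :=
      (pow_le_pow_right₀ hL1 (by omega : 4 ≤ B + 5)).trans hLBz
    refine H3 x hxx₃ z hz10 h4 ?_ hclass
    refine le_trans ?_ hlow
    apply div_le_div_of_nonneg_left (Nat.cast_nonneg _) (by positivity)
    apply mul_le_mul_of_nonneg_left _ (by linarith)
    rw [sq]
    exact mul_le_mul_of_nonneg_left hzL hL0.le
  · intro m a hm hmL ha hq
    rw [← hε']
    exact hNS m a hm (hmL.trans (pow_le_pow_right₀ hL1 (by omega))) ha hq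
  · exact (pow_le_pow_right₀ hL1 (by omega)).trans hLBz
  · intro M hM hMI
    have hKL₁ : K₁ * (Real.log x * Real.log (Real.log x)) ≤ (Real.log z) ^ 2 := by
      refine le_trans ?_ hKL
      exact mul_le_mul_of_nonneg_right hKK₁ (by positivity)
    obtain ⟨E, hE, hEc, hEb⟩ := H1 x hxx₁ z hKL₁ hzK₁ M hM hMI
    refine ⟨E, hE, hEc.trans (mul_le_mul_of_nonneg_right hKK₁ (by positivity)), ?_, ?_⟩
    · intro n hn
      obtain ⟨H, hH2, hnH, hHt, hb⟩ := hEb n hn
      have e : min ε 1 / 32 = ε' / 4 := by rw [hε']; ring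
      rw [e]
      exact ⟨H, hH2, hnH, hHt, hb⟩
    · intro n hn D k hD hD4 hnD c hc
      obtain ⟨H, hH2, hnH, hHt, hb⟩ := hEb n hn
      have hnM := hM n (mem_sdiff.1 hn).1
      have hnL : (n.natAbs : ℝ) ≤ Real.log x ^ B := by
        rw [Nat.cast_natAbs, Int.cast_abs]
        exact hnM.2
      have hnz : n.natAbs ≤ z := by
        have : (n.natAbs : ℝ) ≤ z :=
          hnL.trans ((pow_le_pow_right₀ hL1 (by omega)).trans hLBz)
        exact_mod_cast this
      have h4n : (4 * n.natAbs : ℝ) ≤ Real.log x ^ (B + 5) := by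
        calc (4 * n.natAbs : ℝ) ≤ Real.log x * Real.log x ^ B :=
              mul_le_mul (by linarith) hnL (Nat.cast_nonneg _) hL0.le
          _ = Real.log x ^ (B + 1) := by rw [pow_succ]; ring
          _ ≤ Real.log x ^ (B + 5) := pow_le_pow_right₀ hL1 (by omega)
      have h1 := class_root x z c H hc n D k hnD hD hD4 hnM.1 hnH hH2 hnz t ε' ht0.le hε'0.le
        (by linarith) (by
          intro m a hm hm1 ha hq
          apply hNS m a hm1 _ ha hq
          refine le_trans ?_ h4n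
          exact_mod_cast hm)
      refine h1.trans ?_
      have h2 := hclass c hc
      have h3 : ε' / 4 * t ≤ ε' * (Tf x z c).card := by
        calc ε' / 4 * t = ε' * (t / 4) := by ring
          _ ≤ _ := mul_le_mul_of_nonneg_left h2 hε'0.le
      have h4 : (0 : ℝ) ≤ (Tf x z c).card := Nat.cast_nonneg _
      have h5 : 8 * ε' * (Tf x z c).card ≤ ε * (Tf x z c).card :=
        mul_le_mul_of_nonneg_right hε'ε h4
      have h6 : 0 ≤ ε' * (Tf x z c).card := mul_nonneg hε'0.le h4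
      linarith

end Pool.Agent.H482.MR
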