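import Mathlib
import Pool.Agent.H482.MR.M8

/-!
The choice of the sifting limit, independence of primes, and primitive roots modulo a prime.
-/

set_option autoImplicit false

open Finset Filter

namespace Pool.Agent.H482.MR

open Pool.Agent.Y855 (TT OP mem_OP NS NS_eq cl cl_pos cls dl MI Bad)

/-- the sifting limit `x ^ (1 / K)` -/
noncomputable def zz (K : ℝ) (x : ℕ) : ℕ := ⌊(x : ℝ) ^ (1 / K)⌋₊

theorem zz_spec (K : ℝ) (hK : 1 ≤ K) (Z N : ℝ) : ∃ X : ℕ, 3 ≤ X ∧ ∀ x : ℕ, X ≤ x →
    K * (Real.log x * Real.log (Real.log x)) ≤ (Real.log (zz K x)) ^ 2 ∧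
    ((zz K x : ℕ) : ℝ) ^ K ≤ x ∧ Real.log x / Real.log (zz K x) ≤ 2 * K ∧ Z ≤ (zz K x : ℕ) ∧
    N ≤ (x : ℝ) / (K * (Real.log x * Real.log (zz K x))) := by
  have hK0 : 0 < K := by linarith
  have h1 : ∀ᶠ t : ℝ in atTop, 1 ≤ Real.log t := Real.tendsto_log_atTop.eventually_ge_atTop _
  have h2 : ∀ᶠ t : ℝ in atTop, 2 * K * Real.log 2 ≤ Real.log t :=
    Real.tendsto_log_atTop.eventually_ge_atTop _
  have h3 : ∀ᶠ t : ℝ in atTop, 4 * K ^ 3 * Real.log (Real.log t) ≤ Real.log t := by
    have h4 : ∀ᶠ u : ℝ in atTop, ‖Real.log u‖ ≤ 1 / (4 * K ^ 3) * ‖id u‖ :=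
      Real.isLittleO_log_id_atTop.bound (by positivity)
    have h5 := Real.tendsto_log_atTop.eventually (h4.and (eventually_ge_atTop 1))
    filter_upwards [h5] with t ht
    obtain ⟨h6, h7⟩ := ht
    have h8 : Real.log (Real.log t) ≤ 1 / (4 * K ^ 3) * Real.log t := by
      refine (Real.le_norm_self _).trans (h6.trans (le_of_eq ?_))
      rw [id, Real.norm_of_nonneg (by linarith)]
    calc 4 * K ^ 3 * Real.log (Real.log t) ≤ 4 * K ^ 3 * (1 / (4 * K ^ 3) * Real.log t) :=
          mul_le_mul_of_nonneg_left h8 (by positivity)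
      _ = Real.log t := by field_simp
  have h4 : ∀ᶠ t : ℝ in atTop, 2 * (|Z| + 2) ≤ t ^ (1 / K) :=
    (tendsto_rpow_atTop (by positivity)).eventually_ge_atTop _
  have h5 : ∀ᶠ t : ℝ in atTop, ‖(Real.log t) ^ (2 : ℕ)‖ ≤ 1 / (K * (|N| + 1)) * ‖id t‖ := by
    have := isLittleO_log_rpow_rpow_atTop (2 : ℝ) (by norm_num : (0 : ℝ) < 1)
    have h6 := this.bound (by positivity : 0 < 1 / (K * (|N| + 1)))
    filter_upwards [h6] with t ht
    have e : (Real.log t) ^ (2 : ℝ) = (Real.log t) ^ (2 : ℕ) := by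
      rw [← Real.rpow_natCast]; norm_num
    rw [e, Real.rpow_one] at ht
    exact ht
  have h6 := tendsto_natCast_atTop_atTop.eventually (h1.and (h2.and (h3.and (h4.and h5))))
  obtain ⟨x₁, hx₁⟩ := eventually_atTop.1 h6
  refine ⟨max x₁ 3, le_max_right _ _, fun x hx => ?_⟩
  obtain ⟨a1, a2, a3, a4, a5⟩ := hx₁ x ((le_max_left _ _).trans hx)
  have hx3 : 3 ≤ x := (le_max_right _ _).trans hx
  have hx0 : (0 : ℝ) < x := by
    have : (3 : ℝ) ≤ x := by exact_mod_cast hx3
    linarith
  have hw : 0 < (x : ℝ) ^ (1 / K) := Real.rpow_pos_of_pos hx0 _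
  have hZ0 : 0 ≤ |Z| := abs_nonneg _
  have hz1 : ((zz K x : ℕ) : ℝ) ≤ (x : ℝ) ^ (1 / K) := Nat.floor_le hw.le
  have hz2 : (x : ℝ) ^ (1 / K) / 2 ≤ (zz K x : ℕ) := by
    have := Nat.lt_floor_add_one ((x : ℝ) ^ (1 / K))
    unfold zz
    linarith
  have hz0 : (1 : ℝ) < (zz K x : ℕ) := by linarith
  have hlz : Real.log x / (2 * K) ≤ Real.log (zz K x) := by
    have g1 : Real.log ((x : ℝ) ^ (1 / K) / 2) ≤ Real.log (zz K x) :=
      Real.log_le_log (by positivity) hz2
    rw [Real.log_div hw.ne' (by norm_num), Real.log_rpow hx0] at g1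
    have g2 : Real.log x / (2 * K) = 1 / K * Real.log x - Real.log x / (2 * K) := by
      field_simp
      ring
    have g3 : Real.log 2 ≤ Real.log x / (2 * K) := by
      rw [le_div_iff₀ (by positivity)]
      linarith
    linarith
  have hlz0 : 0 < Real.log (zz K x) := Real.log_pos hz0
  refine ⟨?_, ?_, ?_, ?_, ?_⟩
  · have g1 : (Real.log x / (2 * K)) ^ 2 ≤ Real.log (zz K x) ^ 2 :=
      pow_le_pow_left₀ (by positivity) hlz 2
    refine le_trans ?_ g1
    have g2 : (Real.log x / (2 * K)) ^ 2 = Real.log x * (Real.log x / (4 * K ^ 2)) := by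
      field_simp
      ring
    rw [g2]
    have g3 : K * Real.log (Real.log x) ≤ Real.log x / (4 * K ^ 2) := by
      rw [le_div_iff₀ (by positivity)]
      linarith
    calc K * (Real.log x * Real.log (Real.log x)) =
        Real.log x * (K * Real.log (Real.log x)) := by ring
      _ ≤ _ := mul_le_mul_of_nonneg_left g3 (by linarith)
  · calc ((zz K x : ℕ) : ℝ) ^ K ≤ ((x : ℝ) ^ (1 / K)) ^ K :=
          Real.rpow_le_rpow (Nat.cast_nonneg _) hz1 hK0.le
      _ = x := by
        rw [← Real.rpow_mul hx0.le, one_div_mul_cancel hK0.ne', Real.rpow_one]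
  · rw [div_le_iff₀ hlz0]
    rw [div_le_iff₀ (by positivity)] at hlz
    linarith
  · have := le_abs_self Z
    linarith
  · have g1 : Real.log (zz K x) ≤ Real.log x := by
      apply Real.log_le_log (by linarith)
      refine hz1.trans ?_
      calc (x : ℝ) ^ (1 / K) ≤ (x : ℝ) ^ (1 : ℝ) := by
            apply Real.rpow_le_rpow_of_exponent_le
            · have : (3 : ℝ) ≤ x := by exact_mod_cast hx3
              linarith
            · rw [div_le_one hK0]; exact hK
        _ = x := Real.rpow_one _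
    have g2 : Real.log x ^ 2 ≤ 1 / (K * (|N| + 1)) * x := by
      have := (Real.le_norm_self _).trans a5
      rwa [id, Real.norm_of_nonneg hx0.le] at this
    have hN : N ≤ |N| + 1 := by have := le_abs_self N; linarith
    have hN0 : 0 < |N| + 1 := by have := abs_nonneg N; linarith
    refine hN.trans ?_
    rw [le_div_iff₀ (by positivity)]
    calc (|N| + 1) * (K * (Real.log x * Real.log (zz K x)))
        ≤ (|N| + 1) * (K * (Real.log x * Real.log x)) := by
          apply mul_le_mul_of_nonneg_left _ hN0.le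
          apply mul_le_mul_of_nonneg_left _ hK0.le
          exact mul_le_mul_of_nonneg_left g1 (by linarith)
      _ = ((|N| + 1) * K) * Real.log x ^ 2 := by ring
      _ ≤ ((|N| + 1) * K) * (1 / (K * (|N| + 1)) * x) :=
          mul_le_mul_of_nonneg_left g2 (by positivity)
      _ = x := by field_simp

open Classical in
theorem exists_tuple {k : ℕ} (A : Fin k → Finset ℕ) (s : Fin k → Fin k → Prop) (h : 0 < cnt A s) :
    ∃ t : Fin k → ℕ, (∀ i, t i ∈ A i) ∧ Function.Injective t ∧ ∀ i j : Fin k, i ≠ j →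
        (orderOf ((t i : ℕ) : ZMod (t j)) = t j - 1 ↔ s i j) := by
  unfold cnt at h
  obtain ⟨t, ht⟩ := card_pos.1 h
  rw [mem_filter, Fintype.mem_piFinset] at ht
  exact ⟨t, ht.1, ht.2.1, ht.2.2⟩

theorem cnt_pos {k : ℕ} (A : Fin k → Finset ℕ) (s : Fin k → Fin k → Prop) (n : Fin k → ℝ)
    (θ ρ : ℝ) (hθ : 0 < θ) (hn : ∀ i, 0 < n i) (hA : ∀ i, θ * n i ≤ (A i).card)
    (h : |(cnt A s : ℝ) - (1 / 2) ^ (k.choose 2) * ∏ i, ((A i).card : ℝ)| ≤ ρ * ∏ i, n i)
    (hρ : ρ < (1 / 2) ^ (k.choose 2) * θ ^ k) : 0 < cnt A s := by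
  have h1 : θ ^ k * ∏ i, n i ≤ ∏ i, ((A i).card : ℝ) := by
    calc θ ^ k * ∏ i, n i = ∏ i, (θ * n i) := by
          rw [prod_mul_distrib, prod_const, card_univ, Fintype.card_fin]
      _ ≤ _ := prod_le_prod (fun i _ => by have := hn i; positivity) (fun i _ => hA i)
  have h2 : 0 < ∏ i, n i := prod_pos fun i _ => hn i
  have h3 := (abs_le.1 h).1
  have h4 : (1 / 2 : ℝ) ^ (k.choose 2) * (θ ^ k * ∏ i, n i) ≤
      (1 / 2) ^ (k.choose 2) * ∏ i, ((A i).card : ℝ) := mul_le_mul_of_nonneg_left h1 (by positivity)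
  have h5 : ρ * ∏ i, n i < (1 / 2) ^ (k.choose 2) * θ ^ k * ∏ i, n i :=
    mul_lt_mul_of_pos_right hρ h2
  have h6 : (0 : ℝ) < cnt A s := by linarith
  exact_mod_cast h6

/-- distinct primes are independent -/
theorem MI_primes (F : Finset ℕ) (hF : ∀ q ∈ F, q.Prime) :
    MI (F.image (fun q : ℕ => (q : ℤ))) := by
  classical
  intro c hc n hn
  rw [mem_image] at hn
  obtain ⟨q, hq, rfl⟩ := hn
  rw [prod_image (fun a _ b _ h => by exact_mod_cast h)] at hc
  have hfact : Fact q.Prime := ⟨hF q hq⟩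
  have key : ∀ G : Finset ℕ, (∀ r ∈ G, r.Prime) →
      padicValRat q (∏ r ∈ G, (((r : ℕ) : ℤ) : ℚ) ^ (c r)) = if q ∈ G then c q else 0 := by
    intro G
    induction G using Finset.induction_on with
    | empty => intro _; simp
    | insert r G hr ih =>
      intro hG
      have hr0 : (((r : ℕ) : ℤ) : ℚ) ≠ 0 := by
        have := (hG r (mem_insert_self _ _)).ne_zero
        exact_mod_cast this
      have hG0 : ∏ r ∈ G, (((r : ℕ) : ℤ) : ℚ) ^ (c r) ≠ 0 := by
        rw [prod_ne_zero_iff]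
        intro s hs
        apply zpow_ne_zero
        have := (hG s (mem_insert_of_mem hs)).ne_zero
        exact_mod_cast this
      rw [prod_insert hr, padicValRat.mul (zpow_ne_zero _ hr0) hG0, padicValRat.zpow,
        ih (fun s hs => hG s (mem_insert_of_mem hs))]
      have e : padicValRat q (((r : ℕ) : ℤ) : ℚ) = if q = r then 1 else 0 := by
        rw [Int.cast_natCast, padicValRat.of_nat]
        have hrp : r.Prime := hG r (mem_insert_self _ _)
        by_cases h : q = r
        · rw [if_pos h, ← h, padicValNat_self]; rfl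
        · rw [if_neg h]
          have : padicValNat q r = 0 := by
            apply padicValNat.eq_zero_of_not_dvd
            intro h'
            exact h ((Nat.prime_dvd_prime_iff_eq (hF q hq) hrp).1 h')
          rw [this]; rfl
      rw [e]
      by_cases h : q = r
      · subst h
        rw [if_pos rfl, if_neg hr, if_pos (mem_insert_self _ _)]
        ring
      · rw [if_neg h, mul_zero, zero_add]
        by_cases h2 : q ∈ G
        · rw [if_pos h2, if_pos (mem_insert_of_mem h2)]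
        · rw [if_neg h2, if_neg (by rw [mem_insert]; tauto)]
  have h1 := key F hF
  rw [hc, padicValRat.one, if_pos hq] at h1
  exact h1.symm

/-- primitive roots modulo `q` -/
noncomputable def Gq (q : ℕ) : Finset ℕ :=
  (range q).filter (fun g => orderOf (g : ZMod q) = q - 1)

theorem Gq_card (q : ℕ) (hq : q.Prime) : Nat.totient (q - 1) ≤ (Gq q).card := by
  classical
  have hfact : Fact q.Prime := ⟨hq⟩
  have h1 : ((univ : Finset (ZMod q)ˣ).filter (fun u => orderOf u = q - 1)).card =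
      Nat.totient (q - 1) := by
    apply IsCyclic.card_orderOf_eq_totient
    rw [ZMod.card_units_eq_totient, Nat.totient_prime hq]
  rw [← h1]
  apply card_le_card_of_injOn (fun u : (ZMod q)ˣ => (u : ZMod q).val)
  · intro u hu
    rw [mem_coe, mem_filter] at hu
    unfold Gq
    rw [mem_coe, mem_filter, mem_range]
    refine ⟨ZMod.val_lt _, ?_⟩
    rw [ZMod.natCast_val, ZMod.cast_id', id, orderOf_units]
    exact hu.2
  · intro u _ v _ h
    exact Units.ext (ZMod.val_injective q h)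

end Pool.Agent.H482.MR
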