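import Mathlib
import Pool.Agent.H482.MR.M9

/-!
Every finite graph and every finite tournament of primes with the primitive root `n`.
-/

set_option autoImplicit false

open Finset Filter

namespace Pool.Agent.H482.MR

open Pool.Agent.Y855 (TT OP mem_OP NS NS_eq cl cl_pos cl_ge cls dl MI Bad order_iff')

/-- every compatible relation occurs in `S(n)` -/
def Rich (n : ℤ) : Prop :=
  ∀ (k : ℕ) (c : Fin k → ℕ) (s : Fin k → Fin k → Prop), Cons c s → ∀ N : ℕ,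
    ∃ t : Fin k → ℕ, Function.Injective t ∧
      (∀ i, N < t i ∧ (t i).Prime ∧ t i % 4 = c i ∧ orderOf (n : ZMod (t i)) = t i - 1) ∧
      ∀ i j : Fin k, i ≠ j → (orderOf ((t i : ℕ) : ZMod (t j)) = t j - 1 ↔ s i j)

/-- every graph occurs in the set of the primes which are joined with `q` -/
def Joined (q : ℕ) : Prop :=
  ∀ (k : ℕ) (s : Fin k → Fin k → Prop), (∀ i j, s i j ↔ s j i) → ∀ N : ℕ,
    ∃ t : Fin k → ℕ, Function.Injective t ∧
      (∀ i, N < t i ∧ (t i).Prime ∧ orderOf ((q : ℕ) : ZMod (t i)) = t i - 1 ∧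
        orderOf ((t i : ℕ) : ZMod q) = q - 1) ∧
      ∀ i j : Fin k, i ≠ j → (orderOf ((t i : ℕ) : ZMod (t j)) = t j - 1 ↔ s i j)

theorem dl_third (D : ℤ) (hD : Squarefree D) (hD4 : D % 4 = 1) (hD1 : D ≠ 1) :
    1 / 3 ≤ dl D.natAbs := by
  have hm : Squarefree D.natAbs := Int.squarefree_natAbs.2 hD
  have hmD : (D.natAbs : ℤ) = |D| := Int.natCast_natAbs D
  set m := D.natAbs with hmdef
  have hm0 : 0 < m := Nat.pos_of_ne_zero hm.ne_zero
  have hm1 : m ≠ 1 := by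
    intro h
    have h1 : D.natAbs = 1 := h
    rcases Int.natAbs_eq D with h2 | h2 <;> rw [h1] at h2 <;> omega
  have hm3 : ∀ q ∈ m.primeFactors, 3 ≤ q := by
    intro q hq
    have hqp := Nat.prime_of_mem_primeFactors hq
    have hqm := Nat.dvd_of_mem_primeFactors hq
    by_contra h
    have h2 : q = 2 := by have := hqp.two_le; omega
    rw [h2, hmdef] at hqm
    have : (2 : ℤ) ∣ D := Int.natCast_dvd.2 hqm
    omega
  have hterm : ∀ q ∈ m.primeFactors, 0 ≤ 1 / ((q : ℝ) - 2) ∧ 1 / ((q : ℝ) - 2) ≤ 1 := by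
    intro q hq
    have h3 : (3 : ℝ) ≤ q := by exact_mod_cast hm3 q hq
    refine ⟨div_nonneg zero_le_one (by linarith), ?_⟩
    rw [div_le_one (by linarith)]
    linarith
  unfold dl
  by_cases h5 : ∃ q ∈ m.primeFactors, 5 ≤ q
  · obtain ⟨q, hq, hq5⟩ := h5
    have h1 : 0 ≤ ∏ q ∈ m.primeFactors, (1 / ((q : ℝ) - 2)) := prod_nonneg fun r hr => (hterm r hr).1
    have h2 : ∏ q ∈ m.primeFactors, (1 / ((q : ℝ) - 2)) ≤ 1 / 3 := by
      rw [← mul_prod_erase _ _ hq]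
      have h3 : ∏ r ∈ m.primeFactors.erase q, (1 / ((r : ℝ) - 2)) ≤ 1 := by
        apply prod_le_one
        · intro r hr; exact (hterm r (mem_of_mem_erase hr)).1
        · intro r hr; exact (hterm r (mem_of_mem_erase hr)).2
      have h3' : 0 ≤ ∏ r ∈ m.primeFactors.erase q, (1 / ((r : ℝ) - 2)) :=
        prod_nonneg fun r hr => (hterm r (mem_of_mem_erase hr)).1
      have h4 : 1 / ((q : ℝ) - 2) ≤ 1 / 3 := by
        have h5 : (5 : ℝ) ≤ q := by exact_mod_cast hq5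
        apply div_le_div_of_nonneg_left zero_le_one (by norm_num) (by linarith)
      calc 1 / ((q : ℝ) - 2) * ∏ r ∈ m.primeFactors.erase q, (1 / ((r : ℝ) - 2))
          ≤ 1 / 3 * 1 := mul_le_mul h4 h3 h3' (by norm_num)
        _ = 1 / 3 := by norm_num
    have h3 : ((ArithmeticFunction.moebius m : ℤ) : ℝ) ≤ 1 := by
      have := ArithmeticFunction.abs_moebius_le_one (n := m)
      have h4 := (abs_le.1 this).2
      exact_mod_cast h4
    nlinarith
  · push Not at h5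
    have hall : ∀ q ∈ m.primeFactors, q = 3 := by
      intro q hq
      have h1 := hm3 q hq
      have h2 := h5 q hq
      have hqp := Nat.prime_of_mem_primeFactors hq
      interval_cases q
      · rfl
      · exact absurd hqp (by norm_num)
    have hpf : m.primeFactors = {3} := by
      ext q
      rw [mem_singleton]
      constructor
      · exact hall q
      · rintro rfl
        obtain ⟨p, hp, hpm⟩ := Nat.exists_prime_and_dvd hm1
        have h1 : p ∈ m.primeFactors := Nat.mem_primeFactors.2 ⟨hp, hpm, hm0.ne'⟩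
        rw [← hall p h1]
        exact h1
    have hm3' : m = 3 := by
      have := Nat.prod_primeFactors_of_squarefree hm
      rw [hpf, prod_singleton] at this
      exact this.symm
    rw [hpf, prod_singleton, hm3', ArithmeticFunction.moebius_apply_prime Nat.prime_three]
    norm_num

/-- the threshold for the sifting limit -/
theorem thr (k : ℕ) (ρ : ℝ) (hρ : 0 < ρ) : ∃ Z : ℝ, ∀ z : ℝ, Z ≤ z → (k : ℝ) ^ 2 / √z < ρ := by
  refine ⟨((k : ℝ) ^ 2 / ρ + 1) ^ 2, fun z hz => ?_⟩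
  have h0 : 0 < (k : ℝ) ^ 2 / ρ + 1 := by positivity
  have h1 : (k : ℝ) ^ 2 / ρ + 1 ≤ √z := by
    rw [← Real.sqrt_sq h0.le]
    exact Real.sqrt_le_sqrt hz
  have h2 : 0 < √z := by linarith
  rw [div_lt_iff₀ h2]
  have h3 : (k : ℝ) ^ 2 / ρ < √z := by linarith
  rw [div_lt_iff₀ hρ] at h3
  linarith

open Classical in
theorem rich_one (K : ℝ) (hK : 1 ≤ K) (n : ℤ) (d : ℝ) (hd : 1 / 3 ≤ d) (hn : ¬ Rich n) :
    ∃ X : ℕ, ∀ x : ℕ, X ≤ x →
    (∀ c : ℕ, c = 1 ∨ c = 3 → (x : ℝ) / (K * (Real.log x * Real.log (zz K x))) ≤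
      (Tf x (zz K x) c).card) →
    (∀ (k : ℕ) (c : Fin k → ℕ) (s : Fin k → Fin k → Prop), Cons c s →
      ∀ A : Fin k → Finset ℕ, (∀ i, A i ⊆ Tf x (zz K x) (c i)) →
      |(cnt A s : ℝ) - (1 / 2) ^ (k.choose 2) * ∏ i, ((A i).card : ℝ)| ≤
        (k : ℝ) ^ 2 / √(zz K x) * ∏ i, ((Tf x (zz K x) (c i)).card : ℝ)) →
    (∀ c : ℕ, c = 1 ∨ c = 3 →
      |(((Tf x (zz K x) c).filter (fun p => orderOf (n : ZMod p) = p - 1)).card : ℝ) -
        d * (Tf x (zz K x) c).card| ≤ 1 / 12 * (Tf x (zz K x) c).card) → False := by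
  unfold Rich at hn
  push Not at hn
  obtain ⟨k, c, s, hcs, N, hno⟩ := hn
  obtain ⟨Z, hZ⟩ := thr k ((1 / 2) ^ (k.choose 2) * (1 / 8) ^ k) (by positivity)
  obtain ⟨X, hX3, hX⟩ := zz_spec K hK Z (8 * N + 1)
  refine ⟨X, fun x hx h1 h2 h3 => ?_⟩
  obtain ⟨-, -, -, hz, hN⟩ := hX x hx
  set z := zz K x with hzdef
  set A : Fin k → Finset ℕ := fun i => (Tf x z (c i)).filter
    (fun p => orderOf (n : ZMod p) = p - 1 ∧ N < p) with hA
  have hTN : ∀ i, 8 * (N : ℝ) + 1 ≤ ((Tf x z (c i)).card : ℝ) := fun i =>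
    hN.trans (h1 (c i) (hcs.1 i))
  have hAc : ∀ i, 1 / 8 * ((Tf x z (c i)).card : ℝ) ≤ ((A i).card : ℝ) := by
    intro i
    have g1 := (abs_le.1 (h3 (c i) (hcs.1 i))).1
    have g2 : (Tf x z (c i)).filter (fun p => orderOf (n : ZMod p) = p - 1) ⊆ A i ∪ Icc 1 N := by
      intro p hp
      rw [mem_filter] at hp
      rw [mem_union]
      rcases Nat.lt_or_ge N p with h | h
      · left
        rw [hA, mem_filter]
        exact ⟨hp.1, hp.2, h⟩
      · right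
        rw [mem_Icc]
        have h4 := hp.1
        unfold Tf at h4
        rw [mem_filter] at h4
        exact ⟨(mem_TT.1 h4.1).1.1, h⟩
    have g3 := (card_le_card g2).trans (card_union_le _ _)
    rw [Nat.card_Icc] at g3
    have g4 : (((Tf x z (c i)).filter (fun p => orderOf (n : ZMod p) = p - 1)).card : ℝ) ≤
        (A i).card + N := by
      have : ((Tf x z (c i)).filter (fun p => orderOf (n : ZMod p) = p - 1)).card ≤
        (A i).card + N := by omega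
      exact_mod_cast this
    have g5 := hTN i
    have g6 : (0 : ℝ) ≤ (N : ℝ) := Nat.cast_nonneg _
    have g7 : 1 / 3 * ((Tf x z (c i)).card : ℝ) ≤ d * (Tf x z (c i)).card :=
      mul_le_mul_of_nonneg_right hd (Nat.cast_nonneg _)
    linarith
  have hn0 : ∀ i, (0 : ℝ) < ((Tf x z (c i)).card : ℝ) := by
    intro i
    have := hTN i
    have g6 : (0 : ℝ) ≤ (N : ℝ) := Nat.cast_nonneg _
    linarith
  have hpos := cnt_pos A s (fun i => ((Tf x z (c i)).card : ℝ)) (1 / 8) _ (by norm_num) hn0 hAc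
    (h2 k c s hcs A (fun i => filter_subset _ _)) (hZ z hz)
  obtain ⟨t, ht, hinj, hs⟩ := exists_tuple A s hpos
  have hno' := hno t hinj (by
    intro i
    have h4 := ht i
    rw [hA, mem_filter] at h4
    have h5 := h4.1
    unfold Tf at h5
    rw [mem_filter] at h5
    exact ⟨h4.2.2, (mem_TT.1 h5.1).2.1, h5.2, h4.2.1⟩)
  obtain ⟨i, j, hij, h4⟩ := hno'
  have h5 := hs i j hij
  rcases h4 with ⟨h4, h6⟩ | ⟨h4, h6⟩
  · exact h6 (h5.1 h4)
  · exact h4 (h5.2 h6)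

open Classical in
theorem rich_few : ∃ C : ℕ, ∀ M : Set ℤ, (∀ n ∈ M, n ≠ 0 ∧ ∃ D k : ℤ, Squarefree D ∧
    D % 4 = 1 ∧ D ≠ 1 ∧ n = D * k ^ 2) → (∀ F : Finset ℤ, (F : Set ℤ) ⊆ M → MI F) →
    {n ∈ M | ¬ Rich n}.encard ≤ C := by
  obtain ⟨K, hK, x₀, hx₀, H⟩ := mainA 1 (1 / 12) (by norm_num)
  have hK1 : 1 ≤ K := by linarith
  refine ⟨⌈2 * K ^ 2⌉₊, fun M hM hMI => ?_⟩
  by_contra hcon
  rw [not_le] at hcon
  have hcon' : ((⌈2 * K ^ 2⌉₊ + 1 : ℕ) : ℕ∞) ≤ {n ∈ M | ¬ Rich n}.encard := by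
    push_cast
    exact Order.add_one_le_of_lt hcon
  obtain ⟨F₀, hF₀, hF₀c⟩ := Set.exists_subset_encard_eq hcon'
  have hfin : F₀.Finite := Set.finite_of_encard_eq_coe hF₀c
  obtain ⟨F, hF⟩ : ∃ F : Finset ℤ, (F : Set ℤ) = F₀ := ⟨hfin.toFinset, by simp⟩
  have hFc : F.card = ⌈2 * K ^ 2⌉₊ + 1 := by
    have h1 : (F : Set ℤ).encard = ((⌈2 * K ^ 2⌉₊ + 1 : ℕ) : ℕ∞) := by rw [hF]; exact hF₀c
    rw [Set.encard_coe_eq_coe_finsetCard] at h1
    exact_mod_cast h1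
  have hFM : ∀ n ∈ F, n ∈ M ∧ ¬ Rich n := by
    intro n hn
    have : n ∈ F₀ := by rw [← hF]; exact hn
    exact hF₀ this
  -- the thresholds
  have hthr : ∀ n ∈ F, ∃ X : ℕ, ∀ x : ℕ, X ≤ x →
      (∀ c : ℕ, c = 1 ∨ c = 3 → (x : ℝ) / (K * (Real.log x * Real.log (zz K x))) ≤
        (Tf x (zz K x) c).card) →
      (∀ (k : ℕ) (c : Fin k → ℕ) (s : Fin k → Fin k → Prop), Cons c s →
        ∀ A : Fin k → Finset ℕ, (∀ i, A i ⊆ Tf x (zz K x) (c i)) →
        |(cnt A s : ℝ) - (1 / 2) ^ (k.choose 2) * ∏ i, ((A i).card : ℝ)| ≤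
          (k : ℝ) ^ 2 / √(zz K x) * ∏ i, ((Tf x (zz K x) (c i)).card : ℝ)) →
      (∀ D k : ℤ, Squarefree D → D % 4 = 1 → n = D * k ^ 2 → ∀ c : ℕ, c = 1 ∨ c = 3 →
        |(((Tf x (zz K x) c).filter (fun p => orderOf (n : ZMod p) = p - 1)).card : ℝ) -
          dl D.natAbs * (Tf x (zz K x) c).card| ≤ 1 / 12 * (Tf x (zz K x) c).card) → False := by
    intro n hn
    obtain ⟨hnM, hnR⟩ := hFM n hn
    obtain ⟨_, D, k, hD, hD4, hD1, hnD⟩ := hM n hnM
    obtain ⟨X, hX⟩ := rich_one K hK1 n (dl D.natAbs) (dl_third D hD hD4 hD1) hnR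
    exact ⟨X, fun x hx h1 h2 h3 => hX x hx h1 h2 (h3 D k hD hD4 hnD)⟩
  choose! X hX using hthr
  obtain ⟨X₁, -, hX₁⟩ := zz_spec K hK1 1 1
  obtain ⟨x, hx⟩ : ∃ x : ℕ, x = x₀ + F.sup X + X₁ +
      ⌈Real.exp (F.sup (fun n => n.natAbs) : ℕ)⌉₊ := ⟨_, rfl⟩
  have hx1 : x₀ ≤ x := by omega
  have hx2 : F.sup X ≤ x := by omega
  have hx3 : X₁ ≤ x := by omega
  have hx0 : (0 : ℝ) < x := by
    have : 3 ≤ x := hx₀.trans hx1
    have : (3 : ℝ) ≤ x := by exact_mod_cast this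
    linarith
  have hlog : ((F.sup (fun n => n.natAbs) : ℕ) : ℝ) ≤ Real.log x := by
    rw [Real.le_log_iff_exp_le hx0]
    refine (Nat.le_ceil _).trans ?_
    exact_mod_cast (by omega : ⌈Real.exp (F.sup (fun n => n.natAbs) : ℕ)⌉₊ ≤ x)
  obtain ⟨hz1, hz2, hz3, hz4, hz5⟩ := hX₁ x hx3
  obtain ⟨h1, h2, -, -, -, h3⟩ := H x hx1 (zz K x) hz1 hz2
  obtain ⟨E, hE, hEc, -, h4⟩ := h3 F (by
    intro n hn
    refine ⟨(hM n (hFM n hn).1).1, ?_⟩
    rw [pow_one]
    refine le_trans ?_ hlog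
    have : n.natAbs ≤ F.sup (fun n => n.natAbs) := le_sup (f := fun n : ℤ => n.natAbs) hn
    have h5 : (n.natAbs : ℝ) ≤ ((F.sup (fun n => n.natAbs) : ℕ) : ℝ) := by exact_mod_cast this
    rwa [Nat.cast_natAbs, Int.cast_abs] at h5) (hMI F (by
      rw [hF]; exact fun n hn => (hF₀ hn).1))
  have hEF : E.card < F.card := by
    have h5 : (E.card : ℝ) ≤ 2 * K ^ 2 := by
      refine hEc.trans ?_
      calc K * (Real.log x / Real.log (zz K x)) ≤ K * (2 * K) :=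
            mul_le_mul_of_nonneg_left hz3 (by linarith)
        _ = 2 * K ^ 2 := by ring
    have h6 : (E.card : ℝ) < F.card := by
      rw [hFc]
      push_cast
      have := Nat.le_ceil (2 * K ^ 2)
      linarith
    exact_mod_cast h6
  obtain ⟨n, hn⟩ : (F \ E).Nonempty := by
    rw [← card_pos, card_sdiff_of_subset hE]
    omega
  have hnF := (mem_sdiff.1 hn).1
  exact hX n hnF x ((le_sup hnF).trans hx2) (fun c hc => (h1 c hc).1) h2 (h4 n hn)

end Pool.Agent.H482.MR
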