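import Mathlib
import Pool.Agent.H482.MR.M10

/-!
Every finite graph of primes joined with a given prime `q`.
-/

set_option autoImplicit false

open Finset Filter

namespace Pool.Agent.H482.MR

open Pool.Agent.Y855 (TT OP mem_OP NS NS_eq cl cl_pos cl_ge cls dl MI Bad order_iff')

open Classical in
/-- the primes `1 mod 4` which are joined with `q` -/
noncomputable def Jq (x z q N : ℕ) : Finset ℕ :=
  (Tf x z 1).filter (fun p => orderOf ((q : ℕ) : ZMod p) = p - 1 ∧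
    orderOf ((p : ℕ) : ZMod q) = q - 1 ∧ N < p)

theorem Gq_prop {q a : ℕ} (hq : q.Prime) (hq3 : 3 ≤ q) (ha : a ∈ Gq q) :
    a < q ∧ a.Coprime q ∧ ∀ r ∈ q.primeFactors, a % r ≠ 1 := by
  have hfact : Fact q.Prime := ⟨hq⟩
  unfold Gq at ha
  rw [mem_filter, mem_range] at ha
  have ha0 : a ≠ 0 := by
    rintro rfl
    have h1 := ha.2
    rw [Nat.cast_zero, orderOf_zero] at h1
    omega
  refine ⟨ha.1, ?_, ?_⟩
  · rw [Nat.coprime_comm, Nat.Prime.coprime_iff_not_dvd hq]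
    intro h
    have := Nat.le_of_dvd (Nat.pos_of_ne_zero ha0) h
    omega
  · intro r hr h
    rw [Nat.Prime.primeFactors hq, mem_singleton] at hr
    rw [hr, Nat.mod_eq_of_lt ha.1] at h
    have h1 := ha.2
    rw [h, Nat.cast_one, orderOf_one] at h1
    omega

theorem joined_mem {x z q H p : ℕ} (hq : q.Prime) (hq3 : 3 ≤ q) (hqH : q ≤ H)
    (hp : p ∈ Tf x z 1) (hpq : p % q ∈ Gq q) (hpH : H < p) (hb : p ∉ Bad (q : ℤ) x z H) :
    orderOf ((q : ℕ) : ZMod p) = p - 1 ∧ orderOf ((p : ℕ) : ZMod q) = q - 1 := by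
  classical
  have hfq : Fact q.Prime := ⟨hq⟩
  unfold Tf at hp
  rw [mem_filter] at hp
  have hpT := mem_TT.1 hp.1
  have hpp := hpT.2.1
  have h1 : orderOf ((p : ℕ) : ZMod q) = q - 1 := by
    unfold Gq at hpq
    rw [mem_filter] at hpq
    have := hpq.2
    rwa [ZMod.natCast_mod] at this
  refine ⟨?_, h1⟩
  have hnd : ¬ (q : ℤ) ∣ (p : ℤ) := by
    intro h
    rw [Int.natCast_dvd_natCast, Nat.prime_dvd_prime_iff_eq hq hpp] at h
    omega
  have h2 := (order_iff' (p : ℤ) q (by omega) hnd).1 (by rw [Int.cast_natCast]; exact h1)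
  have h3 : jacobiSym (p : ℤ) q = -1 := by
    rw [← jacobiSym.legendreSym.to_jacobiSym]
    exact h2.1
  have h4 : jacobiSym (q : ℤ) p = -1 := by
    rw [← recip_one hpp hq (by omega) (by omega) (Or.inl hp.2)]
    exact h3
  have hbp : ¬ BadP q p := by
    rintro (h | h)
    · omega
    · apply hb
      unfold Bad
      rw [mem_filter]
      refine ⟨hp.1, hpH, ?_⟩
      obtain ⟨l, hl, hl3, hlp, h⟩ := h
      exact ⟨l, hl, hl3, hlp, by rw [Int.cast_natCast]; exact h⟩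
  exact (root_iff hq hpp (by omega) hbp).2 h4

theorem Jq_card (x z q N H : ℕ) (hq : q.Prime) (hq3 : 3 ≤ q) (hqH : q ≤ H) (η t : ℝ) (hη : 0 < η)
    (hηq : η * q ≤ Nat.totient (q - 1)) (ht : t = ((TT x z).card : ℝ)) (hN : (N : ℝ) ≤ η / 32 * t)
    (hH : (H : ℝ) ≤ min η 1 / 32 * t) (hB : ((Bad (q : ℤ) x z H).card : ℝ) ≤ min η 1 / 32 * t)
    (hNS : ∀ a : ℕ, a.Coprime (4 * q) → (∀ r ∈ (4 * q).primeFactors, 3 ≤ r → a % r ≠ 1) →
      |((NS x (4 * q) a (OP z)).card : ℝ) - cl (4 * q) * t| ≤ min η 1 / 8 * (cl (4 * q) * t)) :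
    η / 8 * t ≤ ((Jq x z q N).card : ℝ) := by
  classical
  have ht0 : 0 ≤ t := by rw [ht]; exact Nat.cast_nonneg _
  have hq0 : (0 : ℝ) < q := by exact_mod_cast hq.pos
  have hmin1 : min η 1 ≤ 1 := min_le_right _ _
  have hminη : min η 1 ≤ η := min_le_left _ _
  have hmin0 : 0 < min η 1 := lt_min hη one_pos
  have hclp := cl_pos (4 * q) (by have := hq.pos; omega)
  have h1 := class_union x z q 1 (by
      rcases hq.eq_two_or_odd with h | h
      · omega
      · exact h) (Or.inl rfl) (Gq q) (fun a ha => Gq_prop hq hq3 ha) (min η 1 / 8)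
    (cl (4 * q) * t) hNS
  set S := (Tf x z 1).filter (fun p => p % q ∈ Gq q) with hS
  set g : ℝ := ((Gq q).card : ℝ) with hg
  have hgq : η * q ≤ g := hηq.trans (Nat.cast_le.2 (Gq_card q hq))
  have hcl : 1 / (4 * (q : ℝ)) ≤ cl (4 * q) := by
    have := cl_ge (4 * q) (by have := hq.pos; omega)
    push_cast at this
    exact this
  -- lower bound for `S`
  have h2 : 7 / 32 * η * t ≤ (S.card : ℝ) := by
    have h3 := (abs_le.1 h1).1
    have h4 : g * (min η 1 / 8 * (cl (4 * q) * t)) ≤ 1 / 8 * (g * (cl (4 * q) * t)) := by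
      have h5 : 0 ≤ g * (cl (4 * q) * t) := by positivity
      calc g * (min η 1 / 8 * (cl (4 * q) * t)) = (min η 1 / 8) * (g * (cl (4 * q) * t)) := by ring
        _ ≤ _ := mul_le_mul_of_nonneg_right (by linarith) h5
    have h6 : 7 / 8 * (g * (cl (4 * q) * t)) ≤ (S.card : ℝ) := by linarith
    have h7 : η / 4 * t ≤ g * (cl (4 * q) * t) := by
      have h8 : η / 4 = (η * q) * (1 / (4 * (q : ℝ))) := by field_simp
      rw [h8, ← mul_assoc g]
      apply mul_le_mul_of_nonneg_right _ ht0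
      exact mul_le_mul hgq hcl (by positivity) (by positivity)
    linarith
  have hsub : S ⊆ Jq x z q N ∪ (Icc 1 N ∪ (Icc 1 H ∪ Bad (q : ℤ) x z H)) := by
    intro p hp
    rw [hS, mem_filter] at hp
    have hp1 : 1 ≤ p := by
      have h3 := hp.1
      unfold Tf at h3
      rw [mem_filter] at h3
      exact (mem_TT.1 h3.1).1.1
    rw [mem_union, mem_union, mem_union]
    by_cases hN' : N < p
    · by_cases hH' : H < p
      · by_cases hB' : p ∈ Bad (q : ℤ) x z H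
        · exact Or.inr (Or.inr (Or.inr hB'))
        · left
          unfold Jq
          rw [mem_filter]
          have := joined_mem hq hq3 hqH hp.1 hp.2 hH' hB'
          exact ⟨hp.1, this.1, this.2, hN'⟩
      · exact Or.inr (Or.inr (Or.inl (by rw [mem_Icc]; exact ⟨hp1, not_lt.1 hH'⟩)))
    · exact Or.inr (Or.inl (by rw [mem_Icc]; exact ⟨hp1, not_lt.1 hN'⟩))
  have hc := (card_le_card hsub).trans ((card_union_le _ _).trans (Nat.add_le_add_left
    ((card_union_le _ _).trans (Nat.add_le_add_left (card_union_le _ _) _)) _))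
  rw [Nat.card_Icc, Nat.card_Icc] at hc
  have hc' : (S.card : ℝ) ≤ (Jq x z q N).card + (N + (H + (Bad (q : ℤ) x z H).card)) := by
    have : S.card ≤ (Jq x z q N).card + (N + (H + (Bad (q : ℤ) x z H).card)) := by omega
    exact_mod_cast this
  have h5 : min η 1 / 32 * t ≤ η / 32 * t := mul_le_mul_of_nonneg_right (by linarith) ht0
  have h6 : 0 ≤ η * t := by positivity
  linarith

theorem joined_one (K : ℝ) (hK : 1 ≤ K) (η : ℝ) (hη : 0 < η) (q : ℕ) (hq : ¬ Joined q) :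
    ∃ X : ℕ, ∃ N : ℕ, ∀ x : ℕ, X ≤ x → (32 * N / η + 1 : ℝ) ≤
        (x : ℝ) / (K * (Real.log x * Real.log (zz K x))) ∧
    ((∀ (k : ℕ) (c : Fin k → ℕ) (s : Fin k → Fin k → Prop), Cons c s →
      ∀ A : Fin k → Finset ℕ, (∀ i, A i ⊆ Tf x (zz K x) (c i)) →
      |(cnt A s : ℝ) - (1 / 2) ^ (k.choose 2) * ∏ i, ((A i).card : ℝ)| ≤
        (k : ℝ) ^ 2 / √(zz K x) * ∏ i, ((Tf x (zz K x) (c i)).card : ℝ)) →
    (0 : ℝ) < (Tf x (zz K x) 1).card →
    η / 8 * (Tf x (zz K x) 1).card ≤ (Jq x (zz K x) q N).card → False) := by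
  unfold Joined at hq
  push Not at hq
  obtain ⟨k, s, hs, N, hno⟩ := hq
  obtain ⟨Z, hZ⟩ := thr k ((1 / 2) ^ (k.choose 2) * (η / 8) ^ k) (by positivity)
  obtain ⟨X, hX3, hX⟩ := zz_spec K hK Z (32 * N / η + 1)
  refine ⟨X, N, fun x hx => ⟨(hX x hx).2.2.2.2, fun h1 h2 h3 => ?_⟩⟩
  obtain ⟨-, -, -, hz, hN⟩ := hX x hx
  set z := zz K x with hzdef
  have hcs : Cons (fun _ : Fin k => 1) s := by
    refine ⟨fun i => Or.inl rfl, fun i j _ => ⟨?_, ?_⟩⟩
    · rintro ⟨h, -⟩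
      norm_num at h
    · intro _
      exact hs j i
  have hpos := cnt_pos (fun _ : Fin k => Jq x z q N) s
    (fun _ : Fin k => ((Tf x z 1).card : ℝ)) (η / 8) _ (by positivity) (fun _ => h2) (fun _ => h3)
    (h1 k (fun _ => 1) s hcs (fun _ => Jq x z q N) (fun _ => by
      unfold Jq; exact filter_subset _ _)) (hZ z hz)
  obtain ⟨t, ht, hinj, hs'⟩ := exists_tuple _ s hpos
  have hno' := hno t hinj (by
    intro i
    have h4 := ht i
    unfold Jq at h4
    rw [mem_filter] at h4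
    have h5 := h4.1
    unfold Tf at h5
    rw [mem_filter] at h5
    exact ⟨h4.2.2.2, (mem_TT.1 h5.1).2.1, h4.2.1, h4.2.2.1⟩)
  obtain ⟨i, j, hij, h4⟩ := hno'
  have h5 := hs' i j hij
  rcases h4 with ⟨h4, h6⟩ | ⟨h4, h6⟩
  · exact h6 (h5.1 h4)
  · exact h4 (h5.2 h6)

theorem joined_few (η : ℝ) (hη : 0 < η) : ∃ C : ℕ,
    {q : ℕ | q.Prime ∧ η * q ≤ Nat.totient (q - 1) ∧ ¬ Joined q}.encard ≤ C := by
  classical
  obtain ⟨K, hK, x₀, hx₀, H⟩ := mainA 1 η hη
  have hK1 : 1 ≤ K := by linarith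
  refine ⟨⌈2 * K ^ 2⌉₊ + 1, ?_⟩
  by_contra hcon
  rw [not_le] at hcon
  have hcon' : (((⌈2 * K ^ 2⌉₊ + 1) + 1 : ℕ) : ℕ∞) ≤
      {q : ℕ | q.Prime ∧ η * q ≤ Nat.totient (q - 1) ∧ ¬ Joined q}.encard := by
    rw [Nat.cast_add_one]
    exact Order.add_one_le_of_lt hcon
  obtain ⟨F₀, hF₀, hF₀c⟩ := Set.exists_subset_encard_eq hcon'
  have hfin : F₀.Finite := Set.finite_of_encard_eq_coe hF₀c
  obtain ⟨F, hF⟩ : ∃ F : Finset ℕ, (F : Set ℕ) = F₀ := ⟨hfin.toFinset, by simp⟩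
  have hFc : F.card = ⌈2 * K ^ 2⌉₊ + 1 + 1 := by
    have h1 : (F : Set ℕ).encard = (((⌈2 * K ^ 2⌉₊ + 1) + 1 : ℕ) : ℕ∞) := by rw [hF]; exact hF₀c
    rw [Set.encard_coe_eq_coe_finsetCard] at h1
    exact_mod_cast h1
  have hFM : ∀ q ∈ F, q.Prime ∧ η * q ≤ Nat.totient (q - 1) ∧ ¬ Joined q := by
    intro n hn
    have : n ∈ F₀ := by rw [← hF]; exact hn
    exact hF₀ this
  have hthr : ∀ q ∈ F, ∃ X N : ℕ, ∀ x : ℕ, X ≤ x → (32 * N / η + 1 : ℝ) ≤
        (x : ℝ) / (K * (Real.log x * Real.log (zz K x))) ∧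
      ((∀ (k : ℕ) (c : Fin k → ℕ) (s : Fin k → Fin k → Prop), Cons c s →
        ∀ A : Fin k → Finset ℕ, (∀ i, A i ⊆ Tf x (zz K x) (c i)) →
        |(cnt A s : ℝ) - (1 / 2) ^ (k.choose 2) * ∏ i, ((A i).card : ℝ)| ≤
          (k : ℝ) ^ 2 / √(zz K x) * ∏ i, ((Tf x (zz K x) (c i)).card : ℝ)) →
      (0 : ℝ) < (Tf x (zz K x) 1).card →
      η / 8 * (Tf x (zz K x) 1).card ≤ (Jq x (zz K x) q N).card → False) :=
    fun q hq => joined_one K hK1 η hη q (hFM q hq).2.2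
  choose! X N hXN using hthr
  obtain ⟨X₁, -, hX₁⟩ := zz_spec K hK1 1 1
  obtain ⟨x, hx⟩ : ∃ x : ℕ, x = x₀ + F.sup X + X₁ +
      ⌈Real.exp (4 * F.sup id : ℕ)⌉₊ := ⟨_, rfl⟩
  have hx1 : x₀ ≤ x := by omega
  have hx2 : F.sup X ≤ x := by omega
  have hx3 : X₁ ≤ x := by omega
  have hx0 : (0 : ℝ) < x := by
    have : 3 ≤ x := hx₀.trans hx1
    have : (3 : ℝ) ≤ x := by exact_mod_cast this
    linarith
  have hlog : ((4 * F.sup id : ℕ) : ℝ) ≤ Real.log x := by
    rw [Real.le_log_iff_exp_le hx0]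
    refine (Nat.le_ceil _).trans ?_
    exact_mod_cast (by omega : ⌈Real.exp (4 * F.sup id : ℕ)⌉₊ ≤ x)
  obtain ⟨hz1, hz2, hz3, hz4, hz5⟩ := hX₁ x hx3
  obtain ⟨h1, h2, hNS, hLz, hL4, h3⟩ := H x hx1 (zz K x) hz1 hz2
  have hL1 : 1 ≤ Real.log x := by linarith
  have h4q : ∀ q ∈ F, (4 * (q : ℝ)) ≤ Real.log x := by
    intro q hq
    refine le_trans ?_ hlog
    have : q ≤ F.sup id := le_sup (f := id) hq
    exact_mod_cast Nat.mul_le_mul_left 4 this
  have hF2p : ∀ q ∈ F.erase 2, q.Prime := fun q hq => (hFM q (mem_of_mem_erase hq)).1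
  obtain ⟨E, hE, hEc, h4, -⟩ := h3 ((F.erase 2).image (fun q : ℕ => (q : ℤ))) (by
    intro n hn
    rw [mem_image] at hn
    obtain ⟨q, hq, rfl⟩ := hn
    refine ⟨by exact_mod_cast (hF2p q hq).ne_zero, ?_⟩
    rw [pow_one]
    have h5 := h4q q (mem_of_mem_erase hq)
    have h6 : (0 : ℝ) ≤ (q : ℝ) := Nat.cast_nonneg _
    rw [Int.cast_natCast, abs_of_nonneg h6]
    linarith) (MI_primes _ hF2p)
  have hcard : ((F.erase 2).image (fun q : ℕ => (q : ℤ))).card = (F.erase 2).card :=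
    card_image_of_injective _ (fun a b h => by exact_mod_cast h)
  have hEF : E.card < ((F.erase 2).image (fun q : ℕ => (q : ℤ))).card := by
    rw [hcard]
    have h5 : (E.card : ℝ) ≤ 2 * K ^ 2 := by
      refine hEc.trans ?_
      calc K * (Real.log x / Real.log (zz K x)) ≤ K * (2 * K) :=
            mul_le_mul_of_nonneg_left hz3 (by linarith)
        _ = 2 * K ^ 2 := by ring
    have h7 : ⌈2 * K ^ 2⌉₊ + 1 ≤ (F.erase 2).card := by
      have := pred_card_le_card_erase (s := F) (a := 2)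
      omega
    have h6 : (E.card : ℝ) < (F.erase 2).card := by
      have h8 : ((⌈2 * K ^ 2⌉₊ + 1 : ℕ) : ℝ) ≤ (F.erase 2).card := by exact_mod_cast h7
      push_cast at h8
      have := Nat.le_ceil (2 * K ^ 2)
      linarith
    exact_mod_cast h6
  obtain ⟨n, hn⟩ : (((F.erase 2).image (fun q : ℕ => (q : ℤ))) \ E).Nonempty := by
    rw [← card_pos, card_sdiff_of_subset hE]
    omega
  obtain ⟨Hb, hH2, hnH, hHt, hBt⟩ := h4 n hn
  have hn1 := (mem_sdiff.1 hn).1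
  rw [mem_image] at hn1
  obtain ⟨q, hq, rfl⟩ := hn1
  have hqF := mem_of_mem_erase hq
  have hqp := hF2p q hq
  have hq3 : 3 ≤ q := by
    have h5 := hqp.two_le
    have h6 := ne_of_mem_erase hq
    omega
  rw [Int.natAbs_natCast] at hnH
  obtain ⟨hb1, hb2⟩ := hXN q hqF x ((le_sup hqF).trans hx2)
  have hT1 := (h1 1 (Or.inl rfl)).1
  have hTf : ((Tf x (zz K x) 1).card : ℝ) ≤ (TT x (zz K x)).card := by
    exact_mod_cast card_le_card (filter_subset _ _)
  have hNη : 0 ≤ 32 * (N q : ℝ) / η := by positivity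
  apply hb2 h2 (by linarith)
  have h5 := Jq_card x (zz K x) q (N q) Hb hqp hq3 hnH η _ hη (hFM q hqF).2.1 rfl (by
      have h6 : 32 * (N q : ℝ) / η ≤ (TT x (zz K x)).card := by linarith
      rw [div_le_iff₀ hη] at h6
      linarith) hHt hBt (by
      intro a ha hr
      have h7 := hNS (4 * q) a (by omega) (by
        have h8 := h4q q hqF
        push_cast
        refine h8.trans ?_
        exact le_self_pow₀ hL1 (by norm_num)) ha hr
      exact h7)
  refine le_trans ?_ h5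
  exact mul_le_mul_of_nonneg_left hTf (by positivity)

end Pool.Agent.H482.MR
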