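import Mathlib
import Pool.Agent.H482.MR.M11

/-!
The primes which are joined with a given prime `q`: asymptotic formulas.
-/

set_option autoImplicit false

open Finset Filter

namespace Pool.Agent.H482.MR

open Pool.Agent.Y855 (TT OP mem_OP NS NS_eq cl cl_pos cl_ge cls dl MI Bad order_iff' OF VP)

theorem Gq_card_eq (q : ℕ) (hq : q.Prime) (hq3 : 3 ≤ q) : (Gq q).card = Nat.totient (q - 1) := by
  classical
  have hfact : Fact q.Prime := ⟨hq⟩
  apply le_antisymm _ (Gq_card q hq)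
  have h1 : ((univ : Finset (ZMod q)ˣ).filter (fun u => orderOf u = q - 1)).card =
      Nat.totient (q - 1) := by
    apply IsCyclic.card_orderOf_eq_totient
    rw [ZMod.card_units_eq_totient, Nat.totient_prime hq]
  rw [← h1]
  have hne : ∀ a ∈ Gq q, ((a : ℕ) : ZMod q) ≠ 0 := by
    intro a ha h0
    have h2 := Gq_prop hq hq3 ha
    rw [ZMod.natCast_eq_zero_iff] at h0
    have h3 : q ∣ Nat.gcd a q := Nat.dvd_gcd h0 dvd_rfl
    rw [h2.2.1] at h3
    exact hq.one_lt.ne' (Nat.dvd_one.1 h3)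
  apply card_le_card_of_injOn (fun a => if h : ((a : ℕ) : ZMod q) ≠ 0 then Units.mk0 _ h else 1)
  · intro a ha
    have ha' : a ∈ Gq q := ha
    have h2 := hne a ha'
    beta_reduce
    rw [dif_pos h2, mem_coe, mem_filter]
    refine ⟨mem_univ _, ?_⟩
    rw [← orderOf_units]
    unfold Gq at ha'
    rw [mem_filter] at ha'
    exact ha'.2
  · intro a ha b hb h
    have ha' : a ∈ Gq q := ha
    have hb' : b ∈ Gq q := hb
    beta_reduce at h
    rw [dif_pos (hne a ha'), dif_pos (hne b hb')] at h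
    have h3 : ((a : ℕ) : ZMod q) = (b : ℕ) := by
      have := congrArg Units.val h
      simpa using this
    rw [ZMod.natCast_eq_natCast_iff] at h3
    have h4 := (Gq_prop hq hq3 ha').1
    have h5 := (Gq_prop hq hq3 hb').1
    unfold Nat.ModEq at h3
    rwa [Nat.mod_eq_of_lt h4, Nat.mod_eq_of_lt h5] at h3

theorem cl_four_prime (q : ℕ) (hq : q.Prime) (hq3 : 3 ≤ q) :
    cl (4 * q) = 1 / (2 * ((q : ℝ) - 2)) := by
  have hm3 : ∀ r ∈ q.primeFactors, 3 ≤ r := by
    intro r hr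
    rw [Nat.Prime.primeFactors hq, mem_singleton] at hr
    omega
  have hq2 : q % 2 = 1 := odd_of_three q hq.squarefree hm3
  unfold cl
  rw [OF_four_mul q hq.squarefree hm3, totient_four_mul q hq2, Nat.Prime.primeFactors hq,
    Nat.totient_prime hq]
  unfold VP
  rw [prod_singleton]
  have h3 : (3 : ℝ) ≤ q := by exact_mod_cast hq3
  have h4 : ((q - 1 : ℕ) : ℝ) = (q : ℝ) - 1 := by
    rw [Nat.cast_sub (by omega), Nat.cast_one]
  push_cast
  rw [h4]
  have h5 : (q : ℝ) - 1 ≠ 0 := by linarith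
  have h6 : (q : ℝ) - 2 ≠ 0 := by linarith
  have h7 : 2 * ((q : ℝ) - 1) * (1 - 1 / ((q : ℝ) - 1)) = 2 * ((q : ℝ) - 2) := by
    field_simp
    ring
  rw [h7]

/-- the proportion of the primitive roots modulo `q` among the allowed classes -/
noncomputable def rho (q : ℕ) : ℝ := (Nat.totient (q - 1) : ℝ) / ((q : ℝ) - 2)

theorem rho_nonneg (q : ℕ) (hq3 : 3 ≤ q) : 0 ≤ rho q := by
  unfold rho
  have h3 : (3 : ℝ) ≤ q := by exact_mod_cast hq3
  exact div_nonneg (Nat.cast_nonneg _) (by linarith)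

theorem rho_le_one (q : ℕ) (hq3 : 3 ≤ q) : rho q ≤ 1 := by
  unfold rho
  have h3 : (3 : ℝ) ≤ q := by exact_mod_cast hq3
  rw [div_le_one (by linarith)]
  have h1 : Nat.totient (q - 1) ≤ q - 2 := by
    rcases Nat.lt_or_ge 1 (q - 1) with h | h
    · have := Nat.totient_lt (q - 1) h
      omega
    · have : q - 1 = 1 := by omega
      omega
  have h2 : ((Nat.totient (q - 1) : ℕ) : ℝ) ≤ ((q - 2 : ℕ) : ℝ) := by exact_mod_cast h1
  rw [Nat.cast_sub (by omega)] at h2
  push_cast at h2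
  exact h2

open Classical in
/-- the primes in the class `c` which are joined with `q` -/
noncomputable def Jc (x z q c : ℕ) : Finset ℕ :=
  (Tf x z c).filter (fun p => orderOf ((q : ℕ) : ZMod p) = p - 1 ∧
    orderOf ((p : ℕ) : ZMod q) = q - 1)

theorem joined_mem' {x z q H p c : ℕ} (hq : q.Prime) (hq3 : 3 ≤ q) (hqH : q ≤ H)
    (hc : c = 1 ∨ (c = 3 ∧ q % 4 = 1))
    (hp : p ∈ Tf x z c) (hpq : p % q ∈ Gq q) (hpH : H < p) (hb : p ∉ Bad (q : ℤ) x z H) :
    orderOf ((q : ℕ) : ZMod p) = p - 1 ∧ orderOf ((p : ℕ) : ZMod q) = q - 1 := by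
  classical
  have hfq : Fact q.Prime := ⟨hq⟩
  unfold Tf at hp
  rw [mem_filter] at hp
  have hpT := mem_TT.1 hp.1
  have hpp := hpT.2.1
  have h1 : orderOf ((p : ℕ) : ZMod q) = q - 1 := by
    unfold Gq at hpq
    rw [mem_filter] at hpq
    have := hpq.2
    rwa [ZMod.natCast_mod] at this
  refine ⟨?_, h1⟩
  have hnd : ¬ (q : ℤ) ∣ (p : ℤ) := by
    intro h
    rw [Int.natCast_dvd_natCast, Nat.prime_dvd_prime_iff_eq hq hpp] at h
    omega
  have h2 := (order_iff' (p : ℤ) q (by omega) hnd).1 (by rw [Int.cast_natCast]; exact h1)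
  have h3 : jacobiSym (p : ℤ) q = -1 := by
    rw [← jacobiSym.legendreSym.to_jacobiSym]
    exact h2.1
  have h4 : jacobiSym (q : ℤ) p = -1 := by
    rw [← recip_one hpp hq (by omega) (by omega) (by
      rcases hc with h | h
      · left; rw [hp.2, h]
      · exact Or.inr h.2)]
    exact h3
  have hbp : ¬ BadP q p := by
    rintro (h | h)
    · omega
    · apply hb
      unfold Bad
      rw [mem_filter]
      refine ⟨hp.1, hpH, ?_⟩
      obtain ⟨l, hl, hl3, hlp, h⟩ := h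
      exact ⟨l, hl, hl3, hlp, by rw [Int.cast_natCast]; exact h⟩
  exact (root_iff hq hpp (by omega) hbp).2 h4

theorem Jc_card (x z q H c : ℕ) (hq : q.Prime) (hq3 : 3 ≤ q) (hqH : q ≤ H)
    (hc : c = 1 ∨ (c = 3 ∧ q % 4 = 1)) (t ε : ℝ) (ht : 0 ≤ t) (hε : 0 ≤ ε) (hε1 : ε ≤ 1 / 2)
    (hNS : ∀ m a : ℕ, m ≤ 4 * q → 1 ≤ m → a.Coprime m →
      (∀ r ∈ m.primeFactors, 3 ≤ r → a % r ≠ 1) →
      |((NS x m a (OP z)).card : ℝ) - cl m * t| ≤ ε * (cl m * t)) :
    |((Jc x z q c).card : ℝ) - rho q * (Tf x z c).card| ≤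
      H + (Bad (q : ℤ) x z H).card + 4 * ε * (Tf x z c).card := by
  classical
  have hc13 : c = 1 ∨ c = 3 := by
    rcases hc with h | h
    · exact Or.inl h
    · exact Or.inr h.1
  have hρ0 := rho_nonneg q hq3
  have hρ1 := rho_le_one q hq3
  have hT : |((Tf x z c).card : ℝ) - t / 2| ≤ ε * (t / 2) := by
    have h1 := hNS 4 c (by omega) (by norm_num)
      (by rcases hc13 with rfl | rfl <;> decide) (by
        intro q hq h3
        have hqp := Nat.prime_of_mem_primeFactors hq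
        have h7 : q ∣ 2 ^ 2 := by simpa using Nat.dvd_of_mem_primeFactors hq
        have h8 := Nat.le_of_dvd (by norm_num) (hqp.dvd_of_dvd_pow h7)
        omega)
    rw [Pool.Agent.Y855.cl4, NS_eq] at h1
    have e : (TT x z).filter (fun p => p ≡ c [MOD 4]) = Tf x z c := by
      unfold Tf
      apply filter_congr
      intro p _
      unfold Nat.ModEq
      rcases hc13 with rfl | rfl <;> rfl
    rw [e] at h1
    have e2 : (1 / 2 : ℝ) * t = t / 2 := by ring
    rw [e2] at h1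
    exact h1
  set S := (Tf x z c).filter (fun p => p % q ∈ Gq q) with hS
  have hSc : |(S.card : ℝ) - rho q / 2 * t| ≤ rho q / 2 * (ε * t) := by
    have h1 := class_union x z q c (by
      rcases hq.eq_two_or_odd with h | h
      · omega
      · exact h) hc13 (Gq q) (fun a ha => Gq_prop hq hq3 ha) ε (cl (4 * q) * t)
      (fun a h1 h2 => hNS (4 * q) a le_rfl (by omega) h1 h2)
    have e : ((Gq q).card : ℝ) * cl (4 * q) = rho q / 2 := by
      rw [Gq_card_eq q hq hq3, cl_four_prime q hq hq3]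
      unfold rho
      have h3 : (3 : ℝ) ≤ q := by exact_mod_cast hq3
      have h6 : (q : ℝ) - 2 ≠ 0 := by linarith
      field_simp
    have e1 : ((Gq q).card : ℝ) * (cl (4 * q) * t) = rho q / 2 * t := by rw [← e]; ring
    have e2 : ((Gq q).card : ℝ) * (ε * (cl (4 * q) * t)) = rho q / 2 * (ε * t) := by
      rw [← e]; ring
    rwa [e1, e2] at h1
  have c1 : Jc x z q c ⊆ S := by
    intro p hp
    unfold Jc at hp
    rw [mem_filter] at hp
    rw [hS, mem_filter]
    refine ⟨hp.1, ?_⟩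
    unfold Gq
    rw [mem_filter, mem_range]
    refine ⟨Nat.mod_lt _ hq.pos, ?_⟩
    rw [ZMod.natCast_mod]
    exact hp.2.2
  have c2 : S ⊆ Jc x z q c ∪ (Icc 1 H ∪ Bad (q : ℤ) x z H) := by
    intro p hp
    rw [hS, mem_filter] at hp
    have hp1 : 1 ≤ p := by
      have h3 := hp.1
      unfold Tf at h3
      rw [mem_filter] at h3
      exact (mem_TT.1 h3.1).1.1
    rw [mem_union, mem_union]
    by_cases hH' : H < p
    · by_cases hB' : p ∈ Bad (q : ℤ) x z H
      · exact Or.inr (Or.inr hB')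
      · left
        unfold Jc
        rw [mem_filter]
        exact ⟨hp.1, joined_mem' hq hq3 hqH hc hp.1 hp.2 hH' hB'⟩
    · exact Or.inr (Or.inl (by rw [mem_Icc]; exact ⟨hp1, not_lt.1 hH'⟩))
  have c3 := card_le_card c1
  have c4 := (card_le_card c2).trans ((card_union_le _ _).trans (Nat.add_le_add_left
    (card_union_le _ _) _))
  rw [Nat.card_Icc] at c4
  have c3' : ((Jc x z q c).card : ℝ) ≤ S.card := by exact_mod_cast c3
  have c4' : (S.card : ℝ) ≤ (Jc x z q c).card + (H + (Bad (q : ℤ) x z H).card) := by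
    have : S.card ≤ (Jc x z q c).card + (H + (Bad (q : ℤ) x z H).card) := by omega
    exact_mod_cast this
  have h0 : (0 : ℝ) ≤ (Bad (q : ℤ) x z H).card := Nat.cast_nonneg _
  have h00 : (0 : ℝ) ≤ (H : ℝ) := Nat.cast_nonneg _
  have h1 : |((Jc x z q c).card : ℝ) - S.card| ≤ H + (Bad (q : ℤ) x z H).card := by
    rw [abs_le]
    constructor <;> linarith
  set T : ℝ := ((Tf x z c).card : ℝ) with hTdef
  have hT1 := abs_le.1 hT
  have hT2 : t / 2 ≤ 2 * T := by
    have : ε * (t / 2) ≤ 1 / 2 * (t / 2) := mul_le_mul_of_nonneg_right hε1 (by linarith)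
    linarith
  have h2 : |(S.card : ℝ) - rho q * T| ≤ 4 * ε * T := by
    have e : (S.card : ℝ) - rho q * T = ((S.card : ℝ) - rho q / 2 * t) - rho q * (T - t / 2) := by
      ring
    rw [e]
    refine (abs_sub _ _).trans ?_
    rw [abs_mul, abs_of_nonneg hρ0]
    have g1 : rho q / 2 * (ε * t) ≤ 1 / 2 * (ε * t) :=
      mul_le_mul_of_nonneg_right (by linarith) (by positivity)
    have g2 : rho q * |T - t / 2| ≤ 1 * (ε * (t / 2)) :=
      mul_le_mul hρ1 hT (abs_nonneg _) (by norm_num)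
    have g3 : ε * (t / 2) ≤ ε * (2 * T) := mul_le_mul_of_nonneg_left hT2 hε
    linarith
  have e : ((Jc x z q c).card : ℝ) - rho q * T =
      (((Jc x z q c).card : ℝ) - S.card) + (S.card - rho q * T) := by ring
  rw [e]
  exact (abs_add_le _ _).trans (add_le_add h1 h2)

/-- the asymptotic formula for the primes joined with `q`, for all but few `q` -/
theorem mainJ (B : ℕ) (ε : ℝ) (hε : 0 < ε) : ∃ K : ℝ, 10 ≤ K ∧ ∃ x₀ : ℕ, 3 ≤ x₀ ∧
    ∀ x : ℕ, x₀ ≤ x → ∀ z : ℕ, K * (Real.log x * Real.log (Real.log x)) ≤ (Real.log z) ^ 2 →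
    (z : ℝ) ^ K ≤ x →
    (∀ c : ℕ, c = 1 ∨ c = 3 → (x : ℝ) / (K * (Real.log x * Real.log z)) ≤ (Tf x z c).card) ∧
    (∀ (k : ℕ) (c : Fin k → ℕ) (s : Fin k → Fin k → Prop), Cons c s →
      ∀ A : Fin k → Finset ℕ, (∀ i, A i ⊆ Tf x z (c i)) →
      |(cnt A s : ℝ) - (1 / 2) ^ (k.choose 2) * ∏ i, ((A i).card : ℝ)| ≤
        (k : ℝ) ^ 2 / √z * ∏ i, ((Tf x z (c i)).card : ℝ)) ∧
    ∀ Q : Finset ℕ, (∀ q ∈ Q, q.Prime ∧ 3 ≤ q ∧ (q : ℝ) ≤ (Real.log x) ^ B) →
    ∃ E ⊆ Q, (E.card : ℝ) ≤ K * (Real.log x / Real.log z) ∧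
      ∀ q ∈ Q \ E, ∀ c : ℕ, (c = 1 ∨ (c = 3 ∧ q % 4 = 1)) →
      |((Jc x z q c).card : ℝ) - rho q * (Tf x z c).card| ≤ ε * (Tf x z c).card := by
  classical
  obtain ⟨ε', hε'⟩ : ∃ ε' : ℝ, ε' = min ε 1 / 8 := ⟨_, rfl⟩
  have hmin : 0 < min ε 1 := lt_min hε one_pos
  have hε'0 : 0 < ε' := by rw [hε']; positivity
  have hε'1 : ε' ≤ 1 / 8 := by
    rw [hε']
    have := min_le_right ε 1
    linarith
  have hε'ε : 8 * ε' ≤ ε := by
    rw [hε']
    have := min_le_left ε 1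
    linarith
  obtain ⟨K, hK, x₀, hx₀, H⟩ := mainA B ε hε
  refine ⟨K, hK, x₀, hx₀, fun x hx z hKL hzK => ?_⟩
  obtain ⟨h1, h2, hNS, hLz, hL4, h3⟩ := H x hx z hKL hzK
  refine ⟨fun c hc => (h1 c hc).1, h2, fun Q hQ => ?_⟩
  obtain ⟨E', hE', hEc, h4, -⟩ := h3 (Q.image (fun q : ℕ => (q : ℤ))) (by
    intro n hn
    rw [mem_image] at hn
    obtain ⟨q, hq, rfl⟩ := hn
    refine ⟨by exact_mod_cast (hQ q hq).1.ne_zero, ?_⟩
    have h6 : (0 : ℝ) ≤ (q : ℝ) := Nat.cast_nonneg _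
    rw [Int.cast_natCast, abs_of_nonneg h6]
    exact (hQ q hq).2.2) (MI_primes _ (fun q hq => (hQ q hq).1))
  refine ⟨Q.filter (fun q : ℕ => (q : ℤ) ∈ E'), filter_subset _ _, ?_, ?_⟩
  · refine le_trans ?_ hEc
    have : (Q.filter (fun q : ℕ => (q : ℤ) ∈ E')).card ≤ E'.card := by
      apply card_le_card_of_injOn (fun q : ℕ => (q : ℤ))
      · intro q hq
        rw [mem_coe, mem_filter] at hq
        exact hq.2
      · intro a _ b _ h
        have h' : ((a : ℕ) : ℤ) = ((b : ℕ) : ℤ) := h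
        exact_mod_cast h'
    exact_mod_cast this
  · intro q hq c hc
    rw [Finset.mem_sdiff, mem_filter] at hq
    have hqQ := hq.1
    obtain ⟨hqp, hq3, hqL⟩ := hQ q hqQ
    obtain ⟨Hb, hH2, hnH, hHt, hBt⟩ := h4 (q : ℤ) (by
      rw [Finset.mem_sdiff, mem_image]
      exact ⟨⟨q, hqQ, rfl⟩, fun h => hq.2 ⟨hqQ, h⟩⟩)
    rw [Int.natAbs_natCast] at hnH
    have hc13 : c = 1 ∨ c = 3 := by
      rcases hc with h | h
      · exact Or.inl h
      · exact Or.inr h.1
    have h5 := Jc_card x z q Hb c hqp hq3 hnH hc ((TT x z).card : ℝ) ε' (Nat.cast_nonneg _)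
      hε'0.le (by linarith) (by
        intro m a hm hm1 ha hr
        rw [hε']
        apply hNS m a hm1 _ ha hr
        have h6 : (m : ℝ) ≤ 4 * q := by exact_mod_cast hm
        calc (m : ℝ) ≤ 4 * q := h6
          _ ≤ Real.log x * Real.log x ^ B := mul_le_mul hL4 hqL (Nat.cast_nonneg _) (by linarith)
          _ = Real.log x ^ (B + 1) := by rw [pow_succ]; ring)
    refine h5.trans ?_
    have h6 := (h1 c hc13).2
    have e : min ε 1 / 32 = ε' / 4 := by rw [hε']; ring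
    rw [e] at hHt hBt
    have h7 : ε' / 4 * (TT x z).card ≤ ε' * (Tf x z c).card := by
      calc ε' / 4 * (TT x z).card = ε' * ((TT x z).card / 4) := by ring
        _ ≤ _ := mul_le_mul_of_nonneg_left h6 hε'0.le
    have h8 : (0 : ℝ) ≤ (Tf x z c).card := Nat.cast_nonneg _
    have h9 : 8 * ε' * (Tf x z c).card ≤ ε * (Tf x z c).card :=
      mul_le_mul_of_nonneg_right hε'ε h8
    have h10 : 0 ≤ ε' * (Tf x z c).card := mul_nonneg hε'0.le h8
    linarith

end Pool.Agent.H482.MR
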